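import Pool.Agent.H760.TT.Conn2

/-!
# Fully augmented links in the thickened torus, part 15: the rank of the lattice
-/

set_option autoImplicit false

namespace Pool.Agent.H760.TT

open Finset
open Pool.Agent.Q99.FAL

variable {D : List Vx} {k m : ℕ}

lemma fin_add {R : Type} [AddCommGroup R] (a a' : Fin D.length → Fin 6 → R) (G G' : List R)
    (h : G.length = G'.length) :
    (fin D (fun k i => a k i + a' k i) (0, List.zipWith (· + ·) G G')).2 =
      List.zipWith (· + ·) (fin D a (0, G)).2 (fin D a' (0, G')).2 :=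
  nat_add (fun R _ a G => (fin D a (0, G)).2) (fun R R' _ _ f a G => by
    have := fin_map f D a (0, G)
    have e : sm f ((0 : R), G) = (0, G.map f) := by simp [sm]
    rw [e] at this
    rw [this]
    rfl) a a' G G' h

/-- **the diagram is connected** -/
theorem connected (h : Val D (m + 1) (m + 1)) (hC : Cell D m k)
    (a : Fin D.length → Fin 6 → ℝ) (ha : TS k m D a 1) (φ g : Fin D.length → ℝ)
    (hg : ∀ b i, ∑ r, g r * (Cf k m D r b i : ℝ) = φ b) :
    ∃ l, (∀ b, φ b = l) ∧ ∀ r, g r = l := by
  obtain ⟨c, hc, hP, hd⟩ := exists_per h hC (List.ofFn g) (by simp)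
  have hdot : ∀ x : Fin D.length → Fin 6 → ℝ, dot (List.ofFn g) (clo D x (0, Gof k m D x)) =
      ∑ b, φ b * (n1 (x b) + n2 (x b)) := by
    intro x
    have e1 : clo D x (0, Gof k m D x) = List.ofFn fun r => evx x (Cf k m D r) := by
      rw [clo_gen, ← Cl_eq h, List.map_ofFn]
      rfl
    have e2 : ∀ (n : ℕ) (f f' : Fin n → ℝ), dot (List.ofFn f) (List.ofFn f') = ∑ r, f r * f' r := by
      intro n
      induction n with
      | zero => intro f f'; simp [dot]
      | succ n ih =>
        intro f f'
        rw [List.ofFn_succ, List.ofFn_succ, dot_cons, ih, Fin.sum_univ_succ]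
    rw [e1, e2]
    have e3 : ∀ r, g r * evx x (Cf k m D r) = ∑ b, ∑ i, (g r * (Cf k m D r b i : ℝ)) * x b i := by
      intro r
      rw [evx_apply, mul_sum]
      refine sum_congr rfl fun b _ => ?_
      rw [mul_sum]
      refine sum_congr rfl fun i _ => ?_
      rw [zsmul_eq_mul]
      ring
    simp only [e3]
    rw [sum_comm]
    refine sum_congr rfl fun b _ => ?_
    rw [sum_comm]
    have e4 : ∀ i, ∑ r, (g r * (Cf k m D r b i : ℝ)) * x b i = φ b * x b i := by
      intro i
      rw [← sum_mul, hg]
    simp only [e4]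
    unfold n1 n2
    rw [Fin.sum_univ_six]
    ring
  have hx : ∀ x : Fin D.length → Fin 6 → ℝ,
      dot c (fin D x (0, List.replicate (m + 1 + 1) 0)).2 +
      dot (List.ofFn g) (clo D x (0, List.replicate (m + 1 + 1) 0)) =
      ∑ b, φ b * (n1 (x b) + n2 (x b)) := by
    intro x
    obtain ⟨G, hG⟩ : ∃ G, G = Gof k m D x := ⟨_, rfl⟩
    have hGl : G.length = m + 2 := by rw [hG]; exact Gof_len h k x
    have hfix : turn D x G = G := by rw [hG]; exact fixR h hC x
    have e1 := hdot x
    rw [← hG] at e1
    have e2 := clo_add x (fun _ _ => 0) (List.replicate (m + 1 + 1) 0) G (by simp [hGl])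
    have e3 := fin_add x (fun _ _ => 0) (List.replicate (m + 1 + 1) 0) G (by simp [hGl])
    simp only [add_zero] at e2 e3
    rw [zero_zip _ _ hGl] at e2 e3
    have l1 := fin_len D _ _ h x (0, List.replicate (m + 1 + 1) 0) (by simp)
    have l2 := fin_len D _ _ h (fun _ _ => (0 : ℝ)) (0, G) hGl
    have l3 := clo_len D _ _ h x (0, List.replicate (m + 1 + 1) 0) (by simp)
    have l4 := clo_len D _ _ h (fun _ _ => (0 : ℝ)) (0, G) hGl
    have e4 : dot (List.ofFn g) (clo D x (0, G)) =
        dot (List.ofFn g) (clo D x (0, List.replicate (m + 1 + 1) 0)) +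
        dot (List.ofFn g) (clo D (fun _ _ => 0) (0, G)) := by
      rw [e2, dot_add _ _ _ (by omega)]
    have e5 : dot c (fin D x (0, G)).2 = dot c (fin D x (0, List.replicate (m + 1 + 1) 0)).2 +
        dot c (fin D (fun _ _ => 0) (0, G)).2 := by
      rw [e3, dot_add _ _ _ (l1.trans l2.symm)]
    have e6 : dot c (fin D x (0, G)).2 = dot c G := by
      rw [← nrm_dot c _ hP ((fin_len D _ _ h x (0, G) hGl).trans hc.symm)]
      unfold turn at hfix
      rw [hfix]
    have e7 := hd (0, G) hGl
    simp only at e7
    linarith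
  have hcol := Col_of D _ _ h φ c c (List.ofFn g) hc hP hc (by simp) hd hx
  obtain ⟨l, hl⟩ := const_of h hC φ c hc hP hcol
  rw [hl] at hcol
  have hφ := const_up D (m + 1) (m + 1) h φ l _ hcol
  refine ⟨l, hφ, fun r => ?_⟩
  rw [TS_iff h] at ha
  have h1 := ha.2 r
  rw [evx_apply] at h1
  obtain ⟨b, i, hbi⟩ : ∃ b i, Cf k m D r b i ≠ 0 := by
    by_contra hcon
    push Not at hcon
    rw [sum_eq_zero fun b _ => sum_eq_zero fun i _ => by rw [hcon b i, zero_smul]] at h1
    exact zero_ne_one h1
  have hpos := Cf_nn (k := k) h r b i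
  have hs := Cf_sum h hC b i
  have hz : ∀ r', r' ≠ r → Cf k m D r' b i = 0 := by
    intro r' hr
    have h3 : Cf k m D r' b i + Cf k m D r b i ≤ ∑ r, Cf k m D r b i := by
      rw [← sum_pair (f := fun r => Cf k m D r b i) hr]
      exact sum_le_sum_of_subset_of_nonneg (subset_univ _) fun r _ _ => Cf_nn h r b _
    have := Cf_nn (k := k) h r' b i
    omega
  have h1' : Cf k m D r b i = 1 := by
    rw [← hs, sum_eq_single r (fun r' _ hr => hz r' hr) (fun hh => absurd (mem_univ _) hh)]
  have h2 := hg b i
  rw [sum_eq_single r (fun r' _ hr => by rw [hz r' hr]; simp)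
    (fun hh => absurd (mem_univ _) hh), h1'] at h2
  rw [← hφ b, ← h2]
  simp

/-! ### the rank -/

lemma D_ne (hC : Cell D m k) : D ≠ [] := by
  rintro rfl
  have h1 := hC (0 :: (List.replicate m 0 ++ [1])) (by simp)
  have h2 : turn [] (fun _ _ => 0) (0 :: (List.replicate m 0 ++ [1])) =
      ((0 : ℝ) :: (List.replicate m 0 ++ [1])) := by
    show nrm (0 :: (List.replicate m 0 ++ [1])) = _
    rw [nrm_eq]
    simp
  rw [Function.iterate_fixed h2 k] at h1
  have h3 := congrArg List.sum h1
  simp at h3

/-- the matrix of the sums -/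
noncomputable def MT (k m : ℕ) (D : List Vx) :
    Matrix (Fin D.length ⊕ Fin D.length) (Fin D.length × Fin 6) ℝ :=
  fun s q => Sum.elim (fun b => if b = q.1 then 1 else 0) (fun r => (Cf k m D r q.1 q.2 : ℝ)) s

lemma MT_ker (h : Val D (m + 1) (m + 1)) (x : Fin D.length → Fin 6 → ℝ) :
    (MT k m D).mulVec (fun q => x q.1 q.2) = 0 ↔ TS k m D x 0 := by
  rw [TS_iff h, funext_iff]
  constructor
  · intro hh
    refine ⟨fun b => ?_, fun r => ?_⟩
    · have := hh (Sum.inl b)
      simp only [Matrix.mulVec, dotProduct, MT, Sum.elim_inl, Pi.zero_apply] at this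
      rw [Fintype.sum_prod_type] at this
      simp only [ite_mul, one_mul, zero_mul] at this
      rw [sum_eq_single b] at this
      · simp only [if_true] at this
        rw [Fin.sum_univ_six] at this
        unfold n1 n2
        linarith
      · intro b' _ hb
        simp [Ne.symm hb]
      · intro hb
        exact absurd (mem_univ _) hb
    · have := hh (Sum.inr r)
      simp only [Matrix.mulVec, dotProduct, MT, Sum.elim_inr, Pi.zero_apply] at this
      rw [Fintype.sum_prod_type] at this
      rw [evx_apply]
      simpa only [zsmul_eq_mul] using this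
  · rintro ⟨h1, h2⟩ s
    rcases s with b | r
    · simp only [Matrix.mulVec, dotProduct, MT, Sum.elim_inl, Pi.zero_apply]
      rw [Fintype.sum_prod_type]
      simp only [ite_mul, one_mul, zero_mul]
      rw [sum_eq_single b, Fin.sum_univ_six]
      · have := h1 b
        unfold n1 n2 at this
        simp only [if_true]
        linarith
      · intro b' _ hb
        simp [Ne.symm hb]
      · intro hb
        exact absurd (mem_univ _) hb
    · simp only [Matrix.mulVec, dotProduct, MT, Sum.elim_inr, Pi.zero_apply]
      rw [Fintype.sum_prod_type]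
      have := h2 r
      rw [evx_apply] at this
      simpa only [zsmul_eq_mul] using this

/-- the dimension of the real span -/
lemma rank_LR (X : Net D.length) : Module.finrank ℝ X.LR = Module.finrank ℤ X.L := by
  obtain ⟨E, h1, h2, h3, h4⟩ := Pool.Agent.Q299.FAL.task_LB D.length X
  have hEL : ∀ j, E j ∈ X.L := by
    intro j
    have := h1 (Pi.single j 1)
    rwa [sum_eq_single j (fun i _ hi => by rw [Pi.single_eq_of_ne hi, zero_smul])
      (fun h => absurd (mem_univ _) h), Pi.single_eq_same, one_smul] at this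
  have hli : LinearIndependent ℝ fun j => toR (E j) := by
    rw [Fintype.linearIndependent_iff]
    intro τ hτ j
    rw [h3 τ hτ]
    rfl
  have hsp : X.LR = Submodule.span ℝ (Set.range fun j => toR (E j)) := by
    apply le_antisymm
    · intro x hx
      obtain ⟨τ, rfl⟩ := h4 x hx
      exact Submodule.sum_mem _ fun j _ => Submodule.smul_mem _ _
        (Submodule.subset_span ⟨j, rfl⟩)
    · rw [Submodule.span_le]
      rintro _ ⟨j, rfl⟩
      exact Submodule.subset_span ⟨_, hEL j, rfl⟩
  rw [hsp, finrank_span_eq_card hli, Fintype.card_fin]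

/-- **the rank of the lattice** -/
theorem rank_LT (h : Val D (m + 1) (m + 1)) (hC : Cell D m k)
    (a : Fin D.length → Fin 6 → ℝ) (ha : TS k m D a 1) :
    Module.finrank ℤ (LT k m D) = 4 * D.length + 1 := by
  classical
  have h1 : Module.finrank ℤ (LT k m D) = Module.finrank ℝ (XT k m D 0).LR :=
    (rank_LR (XT k m D 0)).symm
  have h2 : Module.finrank ℝ (XT k m D 0).LR =
      Module.finrank ℝ (LinearMap.ker (MT k m D).mulVecLin) := by
    refine LinearEquiv.finrank_eq ?_
    let e : (Fin D.length → Fin 6 → ℝ) ≃ₗ[ℝ] (Fin D.length × Fin 6 → ℝ) :=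
      (LinearEquiv.curry ℝ ℝ (Fin D.length) (Fin 6)).symm
    have he : ∀ x, e x = fun q => x q.1 q.2 := fun x => rfl
    have hmap : Submodule.map (e : (Fin D.length → Fin 6 → ℝ) →ₗ[ℝ] _) (XT k m D 0).LR =
        LinearMap.ker (MT k m D).mulVecLin := by
      ext y
      rw [Submodule.mem_map]
      constructor
      · rintro ⟨x, hx, rfl⟩
        rw [LinearMap.mem_ker, Matrix.mulVecLin_apply]
        exact (MT_ker h x).2 ((LR_TS 0 x).1 hx)
      · intro hy
        rw [LinearMap.mem_ker, Matrix.mulVecLin_apply] at hy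
        refine ⟨e.symm y, (LR_TS 0 _).2 ((MT_ker h _).1 ?_), e.apply_symm_apply y⟩
        exact hy
    rw [← hmap]
    exact e.submoduleMap _
  have h3 := LinearMap.finrank_range_add_finrank_ker (MT k m D).mulVecLin
  have h4 := LinearMap.finrank_range_add_finrank_ker (MT k m D).transpose.mulVecLin
  have h5 : (MT k m D).transpose.rank = (MT k m D).rank := Matrix.rank_transpose _
  unfold Matrix.rank at h5
  have hD : 0 < D.length := List.length_pos_iff.2 (D_ne hC)
  have h6 : Module.finrank ℝ (LinearMap.ker (MT k m D).transpose.mulVecLin) = 1 := by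
    obtain ⟨v, hv⟩ : ∃ v : Fin D.length ⊕ Fin D.length → ℝ,
      v = Sum.elim (fun _ => -1) (fun _ => 1) := ⟨_, rfl⟩
    have hv0 : v ≠ 0 := by
      intro h0
      have := congrFun h0 (Sum.inr ⟨0, hD⟩)
      rw [hv] at this
      simp at this
    have hker : LinearMap.ker (MT k m D).transpose.mulVecLin = Submodule.span ℝ {v} := by
      ext u
      rw [LinearMap.mem_ker, Matrix.mulVecLin_apply, Submodule.mem_span_singleton]
      have hu : ∀ w : Fin D.length ⊕ Fin D.length → ℝ, (MT k m D).transpose.mulVec w = 0 ↔
          ∀ b i, ∑ r, w (Sum.inr r) * (Cf k m D r b i : ℝ) = -w (Sum.inl b) := by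
        intro w
        rw [funext_iff, Prod.forall]
        refine forall_congr' fun b => forall_congr' fun i => ?_
        simp only [Matrix.mulVec, dotProduct, Matrix.transpose_apply, MT, Pi.zero_apply]
        rw [Fintype.sum_sum_type]
        simp only [Sum.elim_inl, Sum.elim_inr, ite_mul, one_mul, zero_mul, sum_ite_eq',
          mem_univ, if_true]
        have e : ∑ r, (Cf k m D r b i : ℝ) * w (Sum.inr r) =
          ∑ r, w (Sum.inr r) * (Cf k m D r b i : ℝ) := sum_congr rfl fun r _ => mul_comm _ _
        rw [e]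
        constructor
        · intro hh; linarith
        · intro hh; linarith
      rw [hu]
      constructor
      · intro hh
        obtain ⟨l, hl1, hl2⟩ := connected h hC a ha (fun b => -u (Sum.inl b))
          (fun r => u (Sum.inr r)) hh
        refine ⟨l, ?_⟩
        funext s
        rw [hv]
        rcases s with b | r
        · have := hl1 b
          simp only [Pi.smul_apply, Sum.elim_inl, smul_eq_mul]
          linarith
        · have := hl2 r
          simp only [Pi.smul_apply, Sum.elim_inr, smul_eq_mul]
          linarith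
      · rintro ⟨l, rfl⟩ b i
        rw [hv]
        simp only [Pi.smul_apply, Sum.elim_inl, Sum.elim_inr, smul_eq_mul]
        rw [← mul_sum]
        have := Cf_sum h hC b i
        have e : ∑ r, (Cf k m D r b i : ℝ) = 1 := by exact_mod_cast this
        rw [e]
        ring
    rw [hker, finrank_span_singleton hv0]
  rw [h6] at h4
  have c1 : Module.finrank ℝ (Fin D.length × Fin 6 → ℝ) = 6 * D.length := by
    rw [Module.finrank_fintype_fun_eq_card, Fintype.card_prod, Fintype.card_fin, Fintype.card_fin]
    ring
  have c2 : Module.finrank ℝ (Fin D.length ⊕ Fin D.length → ℝ) = 2 * D.length := by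
    rw [Module.finrank_fintype_fun_eq_card, Fintype.card_sum, Fintype.card_fin]
    ring
  rw [c1] at h3
  rw [c2] at h4
  rw [h1, h2]
  omega

end Pool.Agent.H760.TT
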