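import Pool.Graph.R_pool_sql_team_seeded_3997aac3.Q99.FAL.Asm

/-!
# Fully augmented links in the thickened torus, part 11: asymptotics with a quadratic phase

An adaptation of `Q299/FAL/NET.lean`.
-/

set_option autoImplicit false

namespace Pool.Agent.H760.TT

open Finset Filter Topology MeasureTheory
open Pool.Agent.Q191.TW (cs cs_norm)
open Pool.Agent.Q99.FAL
open Pool.Agent.Q299.FAL

variable {c : ℕ}

open Classical in
lemma sum_ZF {d : ℕ} (X : Net c) (E : Fin d → Fin c → Fin 6 → ℤ)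
    (h1 : ∀ t : Fin d → ℤ, (∑ j, t j • E j) ∈ X.L)
    (h2 : ∀ a ∈ X.L, ∃! t : Fin d → ℤ, a = ∑ j, t j • E j) (N : ℕ)
    (F : (Fin c → Fin 6 → ℤ) → ℂ) (hF : ∀ v b i, ¬ (0 ≤ v b i ∧ v b i < (N : ℤ)) → F v = 0) :
    ∑' t : Fin d → ℤ, F (vc X E N t) = ∑ a : Fin c → Fin 6 → Fin N,
      if (fun b => zz (a b)) - ((N : ℤ) - 1) • X.a0 ∈ X.L then F (fun b => zz (a b)) else 0 := by
  have hex : ∀ a : Fin c → Fin 6 → Fin N, ∃ t : Fin d → ℤ,
      (fun b => zz (a b)) - ((N : ℤ) - 1) • X.a0 ∈ X.L →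
        (fun b => zz (a b)) - ((N : ℤ) - 1) • X.a0 = ∑ j, t j • E j := by
    intro a
    by_cases ha : (fun b => zz (a b)) - ((N : ℤ) - 1) • X.a0 ∈ X.L
    · obtain ⟨t, ht, -⟩ := h2 _ ha
      exact ⟨t, fun _ => ht⟩
    · exact ⟨0, fun h => absurd h ha⟩
  choose tf htf using hex
  have hvc : ∀ a : Fin c → Fin 6 → Fin N, (fun b => zz (a b)) - ((N : ℤ) - 1) • X.a0 ∈ X.L →
      vc X E N (tf a) = fun b => zz (a b) := by
    intro a ha
    unfold Pool.Agent.Q299.FAL.vc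
    rw [← htf a ha, add_sub_cancel]
  set S : Finset (Fin d → ℤ) := (univ.filter fun a : Fin c → Fin 6 → Fin N =>
    (fun b => zz (a b)) - ((N : ℤ) - 1) • X.a0 ∈ X.L).image tf with hS
  rw [tsum_eq_sum (s := S)]
  · rw [hS, sum_image]
    · rw [sum_filter]
      refine sum_congr rfl fun a _ => ?_
      split_ifs with h
      · rw [hvc a h]
      · rfl
    · intro a ha a' ha' haa
      rw [coe_filter, Set.mem_setOf_eq] at ha ha'
      have e1 := hvc a ha.2
      have e2 := hvc a' ha'.2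
      rw [haa, e2] at e1
      funext b i
      have := congrFun (congrFun e1 b) i
      simp only [zz] at this
      apply Fin.ext
      exact_mod_cast this.symm
  · intro t ht
    by_contra hne
    apply ht
    have hcube : ∀ b i, 0 ≤ vc X E N t b i ∧ vc X E N t b i < N := by
      intro b i
      by_contra hh
      exact hne (hF _ b i hh)
    have hlt : ∀ b i, (vc X E N t b i).toNat < N := by
      intro b i
      have := hcube b i
      omega
    have hzz : (fun b => zz (fun i => (⟨(vc X E N t b i).toNat, hlt b i⟩ : Fin N))) =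
        vc X E N t := by
      funext b i
      show (((vc X E N t b i).toNat : ℕ) : ℤ) = _
      exact Int.toNat_of_nonneg (hcube b i).1
    have hmem : (fun b => zz (fun i => (⟨(vc X E N t b i).toNat, hlt b i⟩ : Fin N))) -
        ((N : ℤ) - 1) • X.a0 = ∑ j, t j • E j := by
      rw [hzz]
      unfold Pool.Agent.Q299.FAL.vc
      rw [add_sub_cancel_left]
    have hmemL : (fun b => zz (fun i => (⟨(vc X E N t b i).toNat, hlt b i⟩ : Fin N))) -
        ((N : ℤ) - 1) • X.a0 ∈ X.L := by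
      rw [hmem]
      exact h1 t
    rw [hS, mem_image]
    refine ⟨fun b i => ⟨(vc X E N t b i).toNat, hlt b i⟩, ?_, ?_⟩
    · rw [mem_filter]
      exact ⟨mem_univ _, hmemL⟩
    · obtain ⟨t0, -, hu⟩ := h2 _ hmemL
      rw [hu _ (htf _ hmemL), hu t hmem.symm.symm]

lemma gau_neQ (hGI : S_GI) {d : ℕ} {X : Net c} {p a : Fin c → Fin 6 → ℝ} (hp : X.Good p)
    (ha : a ∈ X.Ang) (hz : ∀ b i, a b i = 0 ↔ p b i = 0) (E : Fin d → Fin c → Fin 6 → ℤ)
    (h1 : ∀ t : Fin d → ℤ, (∑ j, t j • E j) ∈ X.L)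
    (h3 : ∀ τ : Fin d → ℝ, (∑ j, τ j • toR (E j)) = 0 → τ = 0) (w : Fin c → ℝ)
    (f g : (Fin c → Fin 6 → ℝ) →ₗ[ℝ] ℝ) :
    ∫ τ : Fin d → ℝ, gau w a (XL E τ) *
      Complex.exp ((2 * Real.pi * (f (XL E τ) * g (XL E τ)) : ℝ) * Complex.I) ≠ 0 := by
  classical
  have hEL : ∀ j, E j ∈ X.L := by
    intro j
    have := h1 (Pi.single j 1)
    rwa [sum_eq_single j (fun i _ hi => by rw [Pi.single_eq_of_ne hi, zero_smul])
      (fun h => absurd (mem_univ _) h), Pi.single_eq_same, one_smul] at this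
  have hXL : ∀ τ, XL E τ ∈ X.LR := by
    intro τ
    rw [XL_apply]
    exact X.LR.sum_mem fun j _ => X.LR.smul_mem _ (Submodule.subset_span ⟨_, hEL j, rfl⟩)
  have hinj : ∀ τ : Fin d → ℝ,
      (∀ j : {q : Fin c × Fin 6 // a q.1 q.2 ≠ 0 ∧ a q.1 q.2 ≠ 1 / 2} ⊕
        {q : Fin c × Fin 6 // a q.1 q.2 ≠ 0 ∧ a q.1 q.2 ≠ 1 / 2},
        (Sum.elim (fun q => fa E q.1.1 q.1.2) (fun q => fb E q.1.1 q.1.2) j :
          (Fin d → ℝ) →ₗ[ℝ] ℝ) τ = 0) → τ = 0 := by
    intro τ hτ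
    apply h3
    rw [← XL_apply]
    obtain ⟨x, hx⟩ : ∃ x, x = XL E τ := ⟨_, rfl⟩
    have hxm : x ∈ X.LR := by rw [hx]; exact hXL τ
    rw [← hx]
    have g1 : ∀ b i, a b i ≠ 0 → a b i ≠ 1 / 2 → x b i = 0 := by
      intro b i h4 h5
      have := hτ (Sum.inl ⟨(b, i), h4, h5⟩)
      rw [hx]
      exact this
    have g2 : ∀ b i, a b i ≠ 0 → a b i ≠ 1 / 2 → dn (x b) i = 0 := by
      intro b i h4 h5
      have h6 : dn (x b) i - x b i = 0 := by
        rw [hx]
        exact hτ (Sum.inr ⟨(b, i), h4, h5⟩)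
      rw [g1 b i h4 h5, sub_zero] at h6
      exact h6
    have g3 : ∀ b i, a b i = 0 → x b i = 0 := fun b i h =>
      MX.LR_zero (fun δ hδ => hp.zero δ hδ b i ((hz b i).1 h)) x hxm
    have g4 : ∀ b, n1 (x b) = 0 ∧ n2 (x b) = 0 := by
      intro b
      have hs := n12 hp x hxm b
      have hex : ∃ i, a b i ≠ 0 ∧ a b i ≠ 1 / 2 := by
        by_contra hcon
        push Not at hcon
        obtain ⟨e1, e2⟩ := ha.2.2 b
        have a0 := ha.2.1 b 0
        have a1 := ha.2.1 b 1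
        have a2 := ha.2.1 b 2
        have a3 := ha.2.1 b 3
        have a4 := ha.2.1 b 4
        have a5 := ha.2.1 b 5
        unfold n1 at e1
        unfold n2 at e2
        by_cases q1 : p b 1 = 0
        · have q2 : p b 2 ≠ 0 := fun h => hp.s3 b ⟨q1, h⟩
          have q5 : p b 5 ≠ 0 := fun h => q2 ((hp.s2 b).2 h)
          have r2 := hcon 2 (fun h => q2 ((hz b 2).1 h))
          have r5 := hcon 5 (fun h => q5 ((hz b 5).1 h))
          have z0 : p b 0 = 0 := (hz b 0).1 (by linarith)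
          have z3 : p b 3 = 0 := (hz b 3).1 (by linarith)
          exact hp.s4 b ⟨z0, z3, Or.inl q1⟩
        · have q4 : p b 4 ≠ 0 := fun h => q1 ((hp.s1 b).2 h)
          have r1 := hcon 1 (fun h => q1 ((hz b 1).1 h))
          have r4 := hcon 4 (fun h => q4 ((hz b 4).1 h))
          have z0 : p b 0 = 0 := (hz b 0).1 (by linarith)
          have z3 : p b 3 = 0 := (hz b 3).1 (by linarith)
          have z2 : p b 2 = 0 := (hz b 2).1 (by linarith)
          exact hp.s4 b ⟨z0, z3, Or.inr z2⟩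
      obtain ⟨i, hi1, hi2⟩ := hex
      have h7 := g2 b i hi1 hi2
      unfold dn at h7
      split_ifs at h7
      · exact ⟨by linarith, h7⟩
      · exact ⟨h7, by linarith⟩
    funext b i
    by_cases hi0 : a b i = 0
    · exact g3 b i hi0
    by_cases hi1 : a b i = 1 / 2
    swap
    · exact g1 b i hi0 hi1
    obtain ⟨e1, e2⟩ := ha.2.2 b
    obtain ⟨k1, k2⟩ := g4 b
    have a0 := ha.2.1 b 0
    have a1 := ha.2.1 b 1
    have a2 := ha.2.1 b 2
    have a3 := ha.2.1 b 3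
    have a4 := ha.2.1 b 4
    have a5 := ha.2.1 b 5
    unfold n1 at e1 k1
    unfold n2 at e2 k2
    rw [Pi.zero_apply, Pi.zero_apply]
    fin_cases i <;> simp only [Fin.zero_eta, Fin.mk_one, Fin.reduceFinMk] at hi1 ⊢
    · have z1 := g3 b 1 (by linarith)
      have z2 := g3 b 2 (by linarith)
      linarith
    · have z1 := g3 b 0 (by linarith)
      have z2 := g3 b 2 (by linarith)
      linarith
    · have z1 := g3 b 0 (by linarith)
      have z2 := g3 b 1 (by linarith)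
      linarith
    · have z1 := g3 b 4 (by linarith)
      have z2 := g3 b 5 (by linarith)
      linarith
    · have z1 := g3 b 3 (by linarith)
      have z2 := g3 b 5 (by linarith)
      linarith
    · have z1 := g3 b 3 (by linarith)
      have z2 := g3 b 4 (by linarith)
      linarith
  have hlt : ∀ q : {q : Fin c × Fin 6 // a q.1 q.2 ≠ 0 ∧ a q.1 q.2 ≠ 1 / 2},
      0 < a q.1.1 q.1.2 ∧ a q.1.1 q.1.2 < 1 / 2 := fun q =>
    ⟨lt_of_le_of_ne (ha.2.1 _ _) (Ne.symm q.2.1), lt_of_le_of_ne (MX.ang_le ha _ _) q.2.2⟩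
  have h := GI_gen hGI
    (fun j : {q : Fin c × Fin 6 // a q.1 q.2 ≠ 0 ∧ a q.1 q.2 ≠ 1 / 2} ⊕
        {q : Fin c × Fin 6 // a q.1 q.2 ≠ 0 ∧ a q.1 q.2 ≠ 1 / 2} =>
      (Sum.elim (fun q => fa E q.1.1 q.1.2) (fun q => fb E q.1.1 q.1.2) j :
          (Fin d → ℝ) →ₗ[ℝ] ℝ)) (Sum.elim (fun b : Fin c => fc E b) (Sum.elim (fun _ : Unit => (f + g) ∘ₗ XL E)
      (fun _ : Unit => (f - g) ∘ₗ XL E)))
    (Sum.elim (fun q => Real.pi / 2 * Real.cot (Real.pi * a q.1.1 q.1.2))
      (fun q => Real.pi / 2 * Real.tan (Real.pi * a q.1.1 q.1.2)))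
    (Sum.elim (fun b => Real.pi * w b / 4) (Sum.elim (fun _ : Unit => Real.pi / 2)
      (fun _ : Unit => -(Real.pi / 2))))
    (by
      rintro (q | q)
      · have := (cot_pos' (hlt q).1 (hlt q).2).1
        have := Real.pi_pos
        simp only [Sum.elim_inl]
        positivity
      · have := (cot_pos' (hlt q).1 (hlt q).2).2
        have := Real.pi_pos
        simp only [Sum.elim_inr]
        positivity) hinj
  intro h0
  apply h
  rw [← h0]
  congr 1
  funext τ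
  unfold gau
  rw [← Complex.exp_add, add_assoc, ← add_mul, ← Complex.ofReal_add]
  congr 1
  congr 1
  swap
  · congr 2
    rw [Fintype.sum_sum_type, Fintype.sum_sum_type]
    simp only [Sum.elim_inl, Sum.elim_inr, univ_unique, sum_singleton, LinearMap.comp_apply,
      LinearMap.add_apply, LinearMap.sub_apply]
    have e : ∑ b, Real.pi * w b / 4 * (fc E b) τ ^ 2 =
      ∑ b, Real.pi * w b / 4 * (n1 (XL E τ b) - n2 (XL E τ b)) ^ 2 := rfl
    rw [e]
    ring
  congr 1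
  rw [Fintype.sum_sum_type]
  simp only [Sum.elim_inl, Sum.elim_inr]
  have hsub : ∀ f : Fin c × Fin 6 → ℝ, (∀ q : Fin c × Fin 6, ¬ (a q.1 q.2 ≠ 0 ∧ a q.1 q.2 ≠ 1 / 2) → f q = 0) →
      ∑ q : {q : Fin c × Fin 6 // a q.1 q.2 ≠ 0 ∧ a q.1 q.2 ≠ 1 / 2}, f q = ∑ b, ∑ i, f (b, i) := by
    intro f hf
    rw [← Fintype.sum_prod_type' fun b i => f (b, i)]
    have h1 : ∑ q : {q : Fin c × Fin 6 // a q.1 q.2 ≠ 0 ∧ a q.1 q.2 ≠ 1 / 2}, f q =
        ∑ q ∈ univ.filter (fun q : Fin c × Fin 6 => a q.1 q.2 ≠ 0 ∧ a q.1 q.2 ≠ 1 / 2), f q :=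
      (Finset.sum_subtype _ (fun q => by simp) f).symm
    rw [h1]
    refine Finset.sum_subset (filter_subset _ _) fun q _ hq => hf q fun hh => hq ?_
    rw [mem_filter]
    exact ⟨mem_univ _, hh⟩
  have hor : ∀ q : Fin c × Fin 6, ¬ (a q.1 q.2 ≠ 0 ∧ a q.1 q.2 ≠ 1 / 2) →
      a q.1 q.2 = 0 ∨ a q.1 q.2 = 1 / 2 := by
    intro q hq
    tauto
  have s1 := hsub (fun q => Real.pi / 2 * Real.cot (Real.pi * a q.1 q.2) * (fa E q.1 q.2 τ) ^ 2)
    (fun q hq => by rw [(cot_zero' (hor q hq)).1]; ring)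
  have s2 := hsub (fun q => Real.pi / 2 * Real.tan (Real.pi * a q.1 q.2) * (fb E q.1 q.2 τ) ^ 2)
    (fun q hq => by rw [(cot_zero' (hor q hq)).2]; ring)
  simp only at s1 s2
  rw [s1, s2, ← sum_add_distrib]
  congr 1
  refine sum_congr rfl fun b _ => ?_
  rw [← sum_add_distrib]
  refine sum_congr rfl fun i _ => ?_
  show Real.pi / 2 * Real.cot (Real.pi * a b i) * (XL E τ b i) ^ 2 +
    Real.pi / 2 * Real.tan (Real.pi * a b i) * (dn (XL E τ b) i - XL E τ b i) ^ 2 = _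
  ring

/-- the argument of the two functionals -/
def dv (N : ℕ) (a : Fin c → Fin 6 → ℝ) (v : Fin c → Fin 6 → ℤ) : Fin c → Fin 6 → ℝ :=
  fun b i => (v b i : ℝ) - ((N : ℝ) - 1) * a b i

open Classical in
/-- **asymptotics of a state sum with an additional quadratic phase** -/
theorem netq (X : Net c) (p a : Fin c → Fin 6 → ℝ) (w : Fin c → ℝ) (hp : X.Good p)
    (hTop : X.Top p a) (f g : (Fin c → Fin 6 → ℝ) →ₗ[ℝ] ℝ) (jj ll : ℝ) : ∃ z : ℂ, z ≠ 0 ∧
    Tendsto (fun N : ℕ => ((√N ^ nV p / √N ^ Module.finrank ℤ X.L *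
      Real.exp (-(N * fV a)) : ℝ) : ℂ) * ∑ v : Fin c → Fin 6 → Fin N,
        if (fun b => zz (v b)) - ((N : ℤ) - 1) • X.a0 ∈ X.L then tN w N (fun b => zz (v b)) *
          cs N (2 * ((f (dv N a fun b => zz (v b)) - jj) * (g (dv N a fun b => zz (v b)) - ll)))
          else 0)
      atTop (𝓝 z) := by
  obtain ⟨ha, hz, hmax⟩ := hTop
  have hT1 := task_T1
  have hT2 := task_T2
  have hGI := task_GI
  have hCR := task_CR
  have hNB := Pool.Agent.Q280.FAL.task_NB
  have hNL := Pool.Agent.Q280.FAL.task_NL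
  obtain ⟨E, h1, h2, h3, h4⟩ := task_LB c X
  obtain ⟨τ, hτ⟩ := h4 _ ha.1
  obtain ⟨C0, κ0, hκ0, hNB'⟩ := hNB hT1 hCR c X p a w hp ⟨ha, hz, hmax⟩
  obtain ⟨c0, hc0, hNL'⟩ := hNL hT2 hCR c X p a w hp ⟨ha, hz, hmax⟩
  obtain ⟨K, hK, hlow⟩ := lower E h3
  obtain ⟨M, hM⟩ : ∃ M : ℝ, M = ∑ b, ∑ i, ((X.a0 b i : ℤ) : ℝ) ^ 2 := ⟨_, rfl⟩
  have hM0 : 0 ≤ M := by
    rw [hM]
    exact sum_nonneg fun b _ => sum_nonneg fun i _ => sq_nonneg _
  have hab : ∀ b i, a b i = X.a0 b i + XL E τ b i := by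
    intro b i
    have h5 := congrFun (congrFun hτ b) i
    rw [← XL_apply] at h5
    have h6 : a b i - X.a0 b i = XL E τ b i := h5
    linarith
  have hvc : ∀ (N : ℕ) (t : Fin (Module.finrank ℤ X.L) → ℤ) (b : Fin c) (i : Fin 6),
      ((vc X E N t b i : ℤ) : ℝ) - N * a b i =
        XL E (fun j => (t j : ℝ) - N * τ j) b i - X.a0 b i := by
    intro N t b i
    rw [hab]
    have e1 : ((vc X E N t b i : ℤ) : ℝ) = ((N : ℝ) - 1) * X.a0 b i + ∑ j, (t j : ℝ) * (E j b i : ℝ) := by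
      unfold Pool.Agent.Q299.FAL.vc
      simp only [Pi.add_apply, Pi.smul_apply, Finset.sum_apply, smul_eq_mul]
      push_cast
      rfl
    have e2 : ∀ y : Fin (Module.finrank ℤ X.L) → ℝ, XL E y b i = ∑ j, y j * (E j b i : ℝ) := by
      intro y
      rw [XL_apply]
      simp only [Finset.sum_apply, Pi.smul_apply, smul_eq_mul, toR]
    rw [e1, e2, e2]
    simp only [sub_mul, sum_sub_distrib]
    rw [mul_add, mul_sum]
    have e3 : ∀ j, (N : ℝ) * (τ j * (E j b i : ℝ)) = N * τ j * (E j b i : ℝ) := fun j => by ring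
    simp only [e3]
    ring
  have hLmem : ∀ (N : ℕ) (t : Fin (Module.finrank ℤ X.L) → ℤ),
      vc X E N t - ((N : ℤ) - 1) • X.a0 ∈ X.L := by
    intro N t
    unfold Pool.Agent.Q299.FAL.vc
    rw [add_sub_cancel_left]
    exact h1 t
  have hriem := Pool.Agent.Q99.FW.riemann (d := Module.finrank ℤ X.L) τ
    (κ := κ0 / (2 * K)) (C := |C0| * Real.exp (κ0 * M)) (by positivity)
    (fun N t => (((√N ^ nV p * Real.exp (-(N * fV a)) : ℝ) : ℂ)) * tN w N (vc X E N t) *
      cs N (2 * ((f (dv N a (vc X E N t)) - jj) * (g (dv N a (vc X E N t)) - ll))))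
    (fun u => c0 * gau w a (XL E u) *
      Complex.exp ((2 * Real.pi * (f (XL E u) * g (XL E u)) : ℝ) * Complex.I)) ?_ ?_
  · refine ⟨_, ?_, (hriem.congr ?_)⟩
    · simp only [mul_assoc]
      rw [integral_const_mul]
      refine mul_ne_zero (by exact_mod_cast hc0.ne') ?_
      have := gau_neQ hGI hp ha hz E h1 h3 w f g
      simpa only [mul_assoc] using this
    · intro N
      have hs := sum_ZF X E h1 h2 N (fun v => (((√N ^ nV p * Real.exp (-(N * fV a)) : ℝ) : ℂ)) *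
        tN w N v * cs N (2 * ((f (dv N a v) - jj) * (g (dv N a v) - ll)))) (fun v b i h => by
          rw [tN_zero h, mul_zero, zero_mul])
      rw [hs, mul_sum, mul_sum]
      refine sum_congr rfl fun v _ => ?_
      split_ifs
      · rw [div_eq_mul_inv]
        push_cast
        ring
      · rw [mul_zero, mul_zero]
  · filter_upwards [eventually_ge_atTop 1] with N hN t
    have hN0 : (0 : ℝ) < N := by exact_mod_cast hN
    have hN1 : (1 : ℝ) ≤ N := by exact_mod_cast hN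
    have h5 := hNB' N hN (vc X E N t) (hLmem N t)
    rw [norm_mul, cs_norm, mul_one]
    refine h5.trans ?_
    have h6 : ∑ j, ((t j : ℝ) - N * τ j) ^ 2 ≤ K * (2 * (∑ b, ∑ i, (((vc X E N t b i : ℤ) : ℝ) - N * a b i) ^ 2 + M)) := by
      refine (hlow _).trans (mul_le_mul_of_nonneg_left ?_ hK.le)
      rw [hM, ← sum_add_distrib, mul_sum]
      refine sum_le_sum fun b _ => ?_
      rw [← sum_add_distrib, mul_sum]
      refine sum_le_sum fun i _ => ?_
      rw [hvc]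
      nlinarith [sq_nonneg (XL E (fun j => (t j : ℝ) - N * τ j) b i - 2 * X.a0 b i)]
    have h7 : -κ0 * ((∑ b, ∑ i, (((vc X E N t b i : ℤ) : ℝ) - N * a b i) ^ 2) / N) ≤
        κ0 * M + -(κ0 / (2 * K)) * ((∑ j, ((t j : ℝ) - N * τ j) ^ 2) / N) := by
      have h8 : (∑ j, ((t j : ℝ) - N * τ j) ^ 2) / (2 * K) - M ≤
          ∑ b, ∑ i, (((vc X E N t b i : ℤ) : ℝ) - N * a b i) ^ 2 := by
        rw [sub_le_iff_le_add, div_le_iff₀ (by positivity)]
        linarith
      have h9 : (∑ j, ((t j : ℝ) - N * τ j) ^ 2) / (2 * K) / N - M ≤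
          (∑ b, ∑ i, (((vc X E N t b i : ℤ) : ℝ) - N * a b i) ^ 2) / N := by
        rw [le_div_iff₀ hN0, sub_mul, div_mul_cancel₀ _ hN0.ne']
        nlinarith
      have h10 := mul_le_mul_of_nonneg_left h9 hκ0.le
      have e : -(κ0 / (2 * K)) * ((∑ j, ((t j : ℝ) - N * τ j) ^ 2) / N) =
          -(κ0 * ((∑ j, ((t j : ℝ) - N * τ j) ^ 2) / (2 * K) / N)) := by
        field_simp
      rw [e]
      linarith
    calc C0 * Real.exp (-κ0 * ((∑ b, ∑ i, (((vc X E N t b i : ℤ) : ℝ) - N * a b i) ^ 2) / N))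
        ≤ |C0| * Real.exp (-κ0 * ((∑ b, ∑ i, (((vc X E N t b i : ℤ) : ℝ) - N * a b i) ^ 2) / N)) :=
          mul_le_mul_of_nonneg_right (le_abs_self _) (Real.exp_pos _).le
      _ ≤ |C0| * Real.exp (κ0 * M + -(κ0 / (2 * K)) * ((∑ j, ((t j : ℝ) - N * τ j) ^ 2) / N)) :=
          mul_le_mul_of_nonneg_left (Real.exp_le_exp.2 h7) (abs_nonneg _)
      _ = _ := by rw [Real.exp_add, mul_assoc]
  · intro u x hx
    have hcoord : ∀ b i, Tendsto (fun N : ℕ => (((vc X E N (x N) b i : ℤ) : ℝ) - N * a b i) / √N)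
        atTop (𝓝 (XL E u b i)) := by
      intro b i
      have e2 : ∀ y : Fin (Module.finrank ℤ X.L) → ℝ, XL E y b i = ∑ j, y j * (E j b i : ℝ) := by
        intro y
        rw [XL_apply]
        simp only [Finset.sum_apply, Pi.smul_apply, smul_eq_mul, toR]
      have h5 : ∀ N : ℕ, (((vc X E N (x N) b i : ℤ) : ℝ) - N * a b i) / √N =
          ∑ j, ((x N j : ℝ) - N * τ j) / √N * (E j b i : ℝ) - (X.a0 b i : ℝ) / √N := by
        intro N
        rw [hvc, e2, sub_div, sum_div]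
        congr 1
        exact sum_congr rfl fun j _ => by ring
      have h6 : Tendsto (fun N : ℕ => ∑ j, ((x N j : ℝ) - N * τ j) / √N * (E j b i : ℝ) -
          (X.a0 b i : ℝ) / √N) atTop (𝓝 (∑ j, u j * (E j b i : ℝ) - 0)) := by
        refine Tendsto.sub (tendsto_finsetSum _ fun j _ => (hx j).mul_const _) ?_
        have hsq : Tendsto (fun N : ℕ => √(N : ℝ)) atTop atTop :=
          Real.tendsto_sqrt_atTop.comp tendsto_natCast_atTop_atTop
        exact hsq.const_div_atTop _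
      rw [sub_zero, ← e2] at h6
      exact h6.congr fun N => (h5 N).symm
    refine Tendsto.mul (hNL' (fun N => vc X E N (x N)) (XL E u) (fun N => hLmem N (x N)) hcoord) ?_
    have hsq : Tendsto (fun N : ℕ => √(N : ℝ)) atTop atTop :=
      Real.tendsto_sqrt_atTop.comp tendsto_natCast_atTop_atTop
    have hdv : Tendsto (fun N : ℕ => (√(N : ℝ))⁻¹ • dv N a (vc X E N (x N))) atTop
        (𝓝 (XL E u)) := by
      rw [tendsto_pi_nhds]
      intro b
      rw [tendsto_pi_nhds]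
      intro i
      have h7 : Tendsto (fun N : ℕ => (((vc X E N (x N) b i : ℤ) : ℝ) - N * a b i) / √N +
          a b i / √N) atTop (𝓝 (XL E u b i + 0)) :=
        (hcoord b i).add (hsq.const_div_atTop _)
      rw [add_zero] at h7
      refine h7.congr fun N => ?_
      rw [Pi.smul_apply, Pi.smul_apply, smul_eq_mul, dv]
      ring
    have hlin : ∀ (q : (Fin c → Fin 6 → ℝ) →ₗ[ℝ] ℝ) (rr : ℝ), Tendsto (fun N : ℕ =>
        (√(N : ℝ))⁻¹ * (q (dv N a (vc X E N (x N))) - rr)) atTop (𝓝 (q (XL E u))) := by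
      intro q rr
      have hc : Continuous q := q.continuous_of_finiteDimensional
      have h8 := ((hc.tendsto _).comp hdv).sub (hsq.const_div_atTop rr)
      rw [sub_zero] at h8
      refine h8.congr fun N => ?_
      rw [Function.comp_apply, map_smul, smul_eq_mul]
      ring
    have hfg := ((hlin f jj).mul (hlin g ll)).const_mul (2 * Real.pi)
    have hexp : Continuous fun s : ℝ => Complex.exp ((s : ℂ) * Complex.I) := by fun_prop
    refine ((hexp.tendsto _).comp hfg).congr' ?_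
    filter_upwards [eventually_ge_atTop 1] with N hN
    have hN0 : (0 : ℝ) < N := by exact_mod_cast hN
    have hsN : √(N : ℝ) ≠ 0 := (Real.sqrt_pos.2 hN0).ne'
    rw [Function.comp_apply, cs]
    congr 3
    have e : (√(N : ℝ))⁻¹ * (√(N : ℝ))⁻¹ = (N : ℝ)⁻¹ := by
      rw [← mul_inv, Real.mul_self_sqrt hN0.le]
    have e2 : ∀ F G : ℝ, 2 * Real.pi * ((√(N : ℝ))⁻¹ * F * ((√(N : ℝ))⁻¹ * G)) =
        Real.pi * (2 * (F * G)) / N := by
      intro F G
      have : 2 * Real.pi * ((√(N : ℝ))⁻¹ * F * ((√(N : ℝ))⁻¹ * G)) =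
        2 * Real.pi * F * G * ((√(N : ℝ))⁻¹ * (√(N : ℝ))⁻¹) := by ring
      rw [this, e]
      ring
    exact e2 _ _

end Pool.Agent.H760.TT
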