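import Pool.Agent.H760.TT.St
import Pool.Agent.H760.TT.NETQ

/-!
# Fully augmented links in the thickened torus, part 12: asymptotics of the trace
-/

set_option autoImplicit false

namespace Pool.Agent.H760.TT

open Finset Filter Topology
open Pool.Agent.Q191.TW (cs cs_add cs_zero cs_ne cs_neg cs_norm dl)
open Pool.Agent.Q191.LB (sg)
open Pool.Agent.Q99.FAL
open Pool.Agent.Q98.FAL (nu_ne nu_add nu_norm)
open Pool.Agent.Q99.FP2 (nu_cs th)

variable {N : ℕ} {D : List Vx} {k m : ℕ}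

/-! ### functionals -/

/-- a linear functional with integer coefficients -/
def lw {c : ℕ} (w : Fin c → Fin 6 → ℤ) : (Fin c → Fin 6 → ℝ) →ₗ[ℝ] ℝ where
  toFun x := ∑ b, ∑ i, (w b i : ℝ) * x b i
  map_add' x y := by simp [mul_add, sum_add_distrib]
  map_smul' r x := by
    simp only [Pi.smul_apply, smul_eq_mul, RingHom.id_apply, mul_sum]
    refine sum_congr rfl fun b _ => sum_congr rfl fun i _ => ?_
    ring

lemma lw_evx {c : ℕ} (w : Fin c → Fin 6 → ℤ) (x : Fin c → Fin 6 → ℝ) : lw w x = evx x w := by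
  rw [evx_apply]
  show ∑ b, ∑ i, (w b i : ℝ) * x b i = _
  simp only [zsmul_eq_mul]

lemma lw_evxZ {c : ℕ} (w : Fin c → Fin 6 → ℤ) (x : Fin c → Fin 6 → ℤ) :
    lw w (fun b i => (x b i : ℝ)) = ((evx x w : ℤ) : ℝ) := by
  rw [evx_apply]
  show ∑ b, ∑ i, (w b i : ℝ) * (x b i : ℝ) = _
  push_cast
  simp only [smul_eq_mul, Int.cast_mul]

section gen
variable {R : Type} [AddCommGroup R] {R' : Type} [AddCommGroup R']

lemma Kf_map (f : R →+ R') (a : Fin D.length → Fin 6 → R) (G : List R) :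
    Kf D (fun b i => f (a b i)) (G.map f) = f (Kf D a G) := by
  have h := fin_map f D a (0, G)
  have e : sm f ((0 : R), G) = (0, G.map f) := by simp [sm]
  rw [e] at h
  unfold Kf
  rw [h]
  unfold sm
  simp only
  rw [headD_map, ← map_sub]

/-- the generic sum of the gaps -/
def gS (k m : ℕ) (D : List Vx) : Fin D.length → Fin 6 → ℤ := (Gof k m D (gA D.length)).sum

/-- the generic shift of the labels -/
def gK (k m : ℕ) (D : List Vx) : Fin D.length → Fin 6 → ℤ :=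
  Kf D (gA D.length) (Gof k m D (gA D.length))

lemma Gof_gen (x : Fin D.length → Fin 6 → R) :
    Gof k m D x = (Gof k m D (gA D.length)).map (evx x) := by
  have h := Gof_map (D := D) (m := m) (evx x) k (gA D.length)
  have e : (fun b i => evx x (gA D.length b i)) = x := by
    funext b i
    exact evx_gA x b i
  rw [e] at h
  exact h

lemma gS_eq (x : Fin D.length → Fin 6 → R) : (Gof k m D x).sum = evx x (gS k m D) := by
  rw [Gof_gen, gS, map_list_sum]

lemma gK_eq (x : Fin D.length → Fin 6 → R) :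
    Kf D x (Gof k m D x) = evx x (gK k m D) := by
  rw [Gof_gen]
  have h := Kf_map (D := D) (evx x) (gA D.length) (Gof k m D (gA D.length))
  have e : (fun b i => evx x (gA D.length b i)) = x := by
    funext b i
    exact evx_gA x b i
  rw [e] at h
  exact h

end gen

lemma TS_mem (a0 : Fin D.length → Fin 6 → ℤ) (h0 : TS k m D a0 1) (a : Fin D.length → Fin 6 → ℤ)
    (u : ℤ) : TS k m D a u ↔ a - u • a0 ∈ LT k m D := by
  have h1 : TS k m D (fun b i => u * a0 b i) u := by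
    have := TS_map (AddMonoidHom.mulLeft u) k a0 1 h0
    have e : AddMonoidHom.mulLeft u 1 = u := mul_one u
    rw [e] at this
    exact this
  rw [mem_LT]
  constructor
  · intro h
    have := TS_sub k _ _ _ _ h h1
    rw [sub_self] at this
    exact this
  · intro h
    have := TS_add k _ _ _ _ h h1
    rw [zero_add] at this
    have e : (fun (b : Fin D.length) (i : Fin 6) => (a - u • a0) b i + u * a0 b i) = a := by
      funext b i
      show a b i - u * a0 b i + u * a0 b i = a b i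
      ring
    rw [e] at this
    exact this

lemma th_norm (hN : 0 < N) (T : Ty) (p n : ℕ) (σ : Bool) (m : ℕ) (h : p + wd T ≤ n) :
    ‖th N T p n σ m‖ = 1 := by
  obtain ⟨β, γ, hb⟩ := Pool.Agent.Q99.FP2.phs_th T p n σ m h
  have h1 : th N T p n σ m = _ := hb N hN
  rw [h1]
  exact cs_norm _ _

lemma rc_norm (b : Bool) (n : ℕ) (S : ℤ) : ‖rc N b n S‖ = 1 := by
  have h : ‖cR N n * nu N S‖ = 1 := by
    rw [norm_mul, nu_norm, cR, cs_norm, mul_one]
  unfold rc
  split_ifs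
  · exact h
  · rw [norm_inv, h, inv_one]

lemma TD_norm (hN : 0 < N) : ∀ (D : List Vx) (n n' : ℕ) (S : ℤ), Val D n n' →
    ‖TD N D n S‖ = 1
  | [], _, _, _, _ => norm_one
  | V :: D, n, n', S, h => by
    rw [TD, norm_mul, norm_mul, norm_pow, rc_norm, one_pow, one_mul,
      th_norm hN _ _ _ _ _ h.1, one_mul, TD_norm hN D _ n' _ h.2]

/-- the half twists -/
noncomputable def wT (D : List Vx) : Fin D.length → ℝ := fun b => sg (D.get b).P.σ * (D.get b).P.m

/-- the holonomies are integral -/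
def Flat (k m : ℕ) (D : List Vx) (a : Fin D.length → Fin 6 → ℝ) (j l : ℤ) : Prop :=
  (Gof k m D a).sum = ((m : ℝ) + 1) / 2 + j ∧ Kf D a (Gof k m D a) = -(wr D : ℝ) / 2 + l

/-- the phase of integral holonomies -/
lemma cs_split (hN : 0 < N) (n w j l S K : ℤ) (F H : ℝ)
    (h1 : (S : ℝ) - n * ((N : ℝ) - 1) / 2 = F + ((N : ℝ) - 1) * j)
    (h2 : (K : ℝ) + w * ((N : ℝ) - 1) / 2 = H + ((N : ℝ) - 1) * l) :
    cs N (2 * ((S : ℝ) - n * ((N : ℝ) - 1) / 2) * ((K : ℝ) + w * ((N : ℝ) - 1) / 2)) =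
      cs N (N * ((N : ℝ) - 1) * (j * w - l * n)) * cs N (2 * ((F - j) * (H - l))) := by
  rw [← cs_add]
  refine Pool.Agent.Q191.TW.cs_period' hN (j * K + l * S - N * (j * l)) ?_
  have e1 : F - j = (S : ℝ) - n * ((N : ℝ) - 1) / 2 - N * j := by linarith
  have e2 : H - l = (K : ℝ) + w * ((N : ℝ) - 1) / 2 - N * l := by linarith
  rw [e1, e2]
  push_cast
  ring

open Classical in
/-- **the trace is a sum over the points of the net** -/
theorem trace_net (hN : 0 < N) (h : Val D (m + 1) (m + 1)) (hC : Cell D m k)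
    (a0 : Fin D.length → Fin 6 → ℤ) (h0 : TS k m D a0 1) (a : Fin D.length → Fin 6 → ℝ)
    (j l : ℤ) (hF : Flat k m D a j l) :
    ∑ t : Fin (m + 1) → Fin N, FD D (dl (List.ofFn t)) (List.ofFn t) =
      (N : ℂ) ^ D.length * (TD N D (m + 1) 0 *
        cs N (((m + 1 : ℕ) : ℝ) * wr D * ((N : ℝ) - 1) ^ 2 / 2) *
        cs N (N * ((N : ℝ) - 1) * (j * wr D - l * ((m + 1 : ℕ) : ℤ)))) *
      ∑ v : Fin D.length → Fin 6 → Fin N,
        if (fun b => zz (v b)) - ((N : ℤ) - 1) • (XT k m D a0).a0 ∈ (XT k m D a0).L then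
          tN (wT D) N (fun b => zz (v b)) *
          cs N (2 * ((lw (gS k m D) (dv N a fun b => zz (v b)) - j) *
            (lw (gK k m D) (dv N a fun b => zz (v b)) - l))) else 0 := by
  have hex : exD D = D.length := by
    have := exD_len D _ _ h
    omega
  rw [trace_state hN D m h, hex, mul_assoc]
  congr 1
  obtain ⟨F, hFd⟩ : ∃ F : (Fin D.length → Fin 6 → Fin N) → List ℤ → ℂ, F = fun v G =>
      TD N D (m + 1) G.sum * (wtD N D (fun b => zz (v b)) *
            (nu N ((m + 1) * Kf D (fun b => zz (v b)) G) *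
              cs N (2 * (Kf D (fun b => zz (v b)) G) * (G.sum + (m + 1))))) := ⟨_, rfl⟩
  have e1 : sL m (fun M : List (Fin N) => ∑ y : Fin N,
        TD N D (m + 1) (Gp M y).sum * ∑ v : Fin D.length → Fin 6 → Fin N,
          if Exa N D (fun b => zz (v b)) (Gp M y) then wtD N D (fun b => zz (v b)) *
            (nu N ((m + 1) * Kf D (fun b => zz (v b)) (Gp M y)) *
              cs N (2 * (Kf D (fun b => zz (v b)) (Gp M y)) * ((Gp M y).sum + (m + 1)))) else 0) =
      sL m (fun M : List (Fin N) => ∑ y : Fin N, ∑ v : Fin D.length → Fin 6 → Fin N,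
          if Exa N D (fun b => zz (v b)) (Gp M y) then F v (Gp M y) else 0) := by
    refine sL_congr _ _ _ fun M _ => ?_
    refine Finset.sum_congr rfl fun y _ => ?_
    rw [Finset.mul_sum]
    refine Finset.sum_congr rfl fun v _ => ?_
    rw [mul_ite, mul_zero, hFd]
  refine Eq.trans e1 ?_
  rw [state_swap hN h hC F, Finset.mul_sum]
  refine Finset.sum_congr rfl fun v _ => ?_
  have hiff : TS k m D (fun b => zz (v b)) ((N : ℤ) - 1) ↔
      (fun b => zz (v b)) - ((N : ℤ) - 1) • (XT k m D a0).a0 ∈ (XT k m D a0).L :=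
    TS_mem (k := k) a0 h0 (fun b => zz (v b)) ((N : ℤ) - 1)
  by_cases hs : TS k m D (fun b => zz (v b)) ((N : ℤ) - 1)
  swap
  · rw [if_neg hs, if_neg fun hh => hs (hiff.2 hh), mul_zero]
  have hs' : (fun b => zz (v b)) - ((N : ℤ) - 1) • (XT k m D a0).a0 ∈ (XT k m D a0).L := hiff.1 hs
  rw [if_pos hs, if_pos hs', hFd]
  dsimp only
  obtain ⟨S, hS⟩ : ∃ S : ℤ, S = (Gof k m D (fun b => zz (v b))).sum := ⟨_, rfl⟩
  obtain ⟨K, hK⟩ : ∃ K : ℤ, K = Kf D (fun b => zz (v b)) (Gof k m D (fun b => zz (v b))) := ⟨_, rfl⟩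
  rw [← hS, ← hK]
  have hph := phase hN D (m + 1) S K
  have q1 : (S : ℝ) - ((m + 1 : ℕ) : ℤ) * ((N : ℝ) - 1) / 2 =
      lw (gS k m D) (dv N a fun b => zz (v b)) + ((N : ℝ) - 1) * j := by
    have e : dv N a (fun b => zz (v b)) = (fun b i => ((zz (v b) i : ℤ) : ℝ)) -
        ((N : ℝ) - 1) • a := by
      funext b i
      rfl
    rw [e, map_sub, map_smul, lw_evxZ (gS k m D) (fun b => zz (v b)), lw_evx, ← gS_eq, ← gS_eq,
      ← hS, hF.1, smul_eq_mul]
    push_cast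
    ring
  have q2 : (K : ℝ) + wr D * ((N : ℝ) - 1) / 2 =
      lw (gK k m D) (dv N a fun b => zz (v b)) + ((N : ℝ) - 1) * l := by
    have e : dv N a (fun b => zz (v b)) = (fun b i => ((zz (v b) i : ℤ) : ℝ)) -
        ((N : ℝ) - 1) • a := by
      funext b i
      rfl
    rw [e, map_sub, map_smul, lw_evxZ (gK k m D) (fun b => zz (v b)), lw_evx, ← gK_eq, ← gK_eq,
      ← hK, hF.2, smul_eq_mul]
    ring
  have hwt : wtD N D (fun b => zz (v b)) = tN (wT D) N (fun b => zz (v b)) := rfl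
  have hsp := cs_split hN ((m + 1 : ℕ) : ℤ) (wr D) j l S K _ _ q1 q2
  rw [hwt]
  have e3 : ((m : ℂ) + 1) = ((m + 1 : ℕ) : ℂ) := by push_cast; ring
  have e4 : TD N D (m + 1) S * (tN (wT D) N (fun b => zz (v b)) *
      (nu N ((m + 1) * K) * cs N (2 * K * (S + (m + 1))))) =
      tN (wT D) N (fun b => zz (v b)) *
      (TD N D (m + 1) S * (nu N (((m + 1 : ℕ) : ℤ) * K) *
        cs N (2 * K * (S + ((m + 1 : ℕ) : ℝ))))) := by
    push_cast
    ring
  rw [e4, hph]
  have e5 : (((m + 1 : ℕ) : ℤ) : ℝ) = ((m + 1 : ℕ) : ℝ) := by norm_cast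
  rw [e5] at hsp
  rw [hsp, e5]
  ring

/-- **asymptotics of the trace** -/
theorem asym (h : Val D (m + 1) (m + 1)) (hC : Cell D m k) (a : Fin D.length → Fin 6 → ℝ)
    (hmem : a ∈ AT k m D) (hpos : ∀ b i, 0 < a b i) (hmax : ∀ a' ∈ AT k m D, fV a' ≤ fV a)
    (j l : ℤ) (hfl : Flat k m D a j l) : ∃ z : ℂ, z ≠ 0 ∧
    Tendsto (fun N : ℕ => ((√N ^ (6 * D.length) / √N ^ Module.finrank ℤ (LT k m D) *
      Real.exp (-(N * fV a)) / N ^ D.length : ℝ) : ℂ) * (TD N D (m + 1) 0 *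
        cs N (((m + 1 : ℕ) : ℝ) * wr D * ((N : ℝ) - 1) ^ 2 / 2) *
        cs N (N * ((N : ℝ) - 1) * (j * wr D - l * ((m + 1 : ℕ) : ℤ))))⁻¹ *
      ∑ t : Fin (m + 1) → Fin N, FD D (dl (List.ofFn t)) (List.ofFn t)) atTop (𝓝 z) := by
  classical
  obtain ⟨a0, -, h0⟩ := exists_a0 h hC a hmem.2.2 hmem.1
  have hgood := good_T a0 h0 a hmem hpos
  have htop : (XT k m D a0).Top a a := by
    refine ⟨by rw [Ang_eq a0 h0]; exact hmem, fun b i => Iff.rfl, ?_⟩
    rw [Ang_eq a0 h0]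
    exact hmax
  obtain ⟨z, hz, hlim⟩ := netq (XT k m D a0) a a (wT D) hgood htop (lw (gS k m D)) (lw (gK k m D))
    j l
  refine ⟨z, hz, hlim.congr' ?_⟩
  filter_upwards [eventually_ge_atTop 1] with N hN
  have hN0 : (N : ℂ) ≠ 0 := by exact_mod_cast (by omega : N ≠ 0)
  rw [trace_net hN h hC a0 h0 a j l hfl, nV_T hmem hpos]
  have hX : TD N D (m + 1) 0 * cs N (((m + 1 : ℕ) : ℝ) * wr D * ((N : ℝ) - 1) ^ 2 / 2) *
      cs N (N * ((N : ℝ) - 1) * (j * wr D - l * ((m + 1 : ℕ) : ℤ))) ≠ 0 :=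
    mul_ne_zero (mul_ne_zero (TD_ne hN D _ _ 0 h) (cs_ne _ _)) (cs_ne _ _)
  have hL : (XT k m D a0).L = LT k m D := rfl
  rw [hL]
  obtain ⟨X, hXd⟩ : ∃ X, X = TD N D (m + 1) 0 *
    cs N (((m + 1 : ℕ) : ℝ) * wr D * ((N : ℝ) - 1) ^ 2 / 2) *
      cs N (N * ((N : ℝ) - 1) * (j * wr D - l * ((m + 1 : ℕ) : ℤ))) := ⟨_, rfl⟩
  rw [← hXd] at hX ⊢
  have hNc : (N : ℂ) ^ D.length ≠ 0 := pow_ne_zero _ hN0
  push_cast
  have gen : ∀ A B C S Q : ℂ, C ≠ 0 → X ≠ 0 → A * B * S = A * B / C * X⁻¹ * (C * X * S) := by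
    intro A B C S Q hC hX
    field_simp
  exact gen _ _ _ _ 0 hNc hX

end Pool.Agent.H760.TT
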