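import Pool.Agent.H760.TT.Asy

/-!
# Fully augmented links in the thickened torus, part 23: the growth of the phase
-/

set_option autoImplicit false

namespace Pool.Agent.H760.TT

open Finset Filter Topology
open Pool.Agent.W715.VC (rt)
open Pool.Agent.Q191.TW (cs cs_add cs_zero cs_ne cs_neg cs_norm dl)
open Pool.Agent.Q191.LB (sg)
open Pool.Agent.Q99.FAL
open Pool.Agent.Q99.FP2 (Phs Fh phs_th nu_cs th)

/-- a rotation, on gaps with the sum `(N - 1) s` -/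
lemma phs_rc (b : Bool) (n : ℕ) (s : ℤ) :
    Phs (fun N => rc N b n (((N : ℤ) - 1) * s)) ((if b then s else -s : ℤ) : ℝ) := by
  have key : ∀ N : ℕ, 0 < N → cR N n * nu N (((N : ℤ) - 1) * s) =
      cs N ((s : ℝ) * (N : ℝ) ^ 2 + ((n : ℝ) + 1 - 2 * s) * N + (s - (n + 1))) := by
    intro N hN
    rw [cR, nu_cs hN, ← cs_add]
    congr 1
    push_cast
    ring
  cases b
  · refine ⟨-((n : ℝ) + 1 - 2 * s), -(s - (n + 1)), fun N hN => ?_⟩
    show rc N false n _ = _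
    unfold rc
    rw [if_neg (by simp), if_neg (by simp), key N hN, ← cs_neg]
    congr 1
    push_cast
    ring
  · refine ⟨(n : ℝ) + 1 - 2 * s, s - (n + 1), fun N hN => ?_⟩
    show rc N true n _ = _
    unfold rc
    rw [if_pos rfl, if_pos rfl, key N hN]

/-- the phase of the rotations -/
def al : List Vx → ℤ → ℤ
  | [], _ => 0
  | V :: D, s => V.r * (if V.b then s else -s) + al D (s + (1 - ncl V.P.ty))

/-- the signed number of crossings -/
noncomputable def wX : List Vx → ℝ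
  | [] => 0
  | V :: D => sg V.P.σ * V.P.m + wX D

lemma phs_TD : ∀ (D : List Vx) (n n' : ℕ) (s : ℤ), Val D n n' →
    Phs (fun N => TD N D n (((N : ℤ) - 1) * s)) (-(wX D) / 4 + (Fh n' - Fh n) + al D s)
  | [], n, n', s, h => by
    have h' : n = n' := h
    subst h'
    have e : -(wX []) / 4 + (Fh n - Fh n) + ((al [] s : ℤ) : ℝ) = 0 := by
      simp [wX, al]
    rw [e]
    exact Phs.one
  | V :: D, n, n', s, h => by
    have h1 := ((phs_rc V.b n s).pow V.r).mul (phs_th V.P.ty V.P.p n V.P.σ V.P.m h.1)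
    have h2 := h1.mul (phs_TD D _ n' (s + (1 - ncl V.P.ty)) h.2)
    have e : -(wX (V :: D)) / 4 + (Fh n' - Fh n) + ((al (V :: D) s : ℤ) : ℝ) =
        (V.r : ℝ) * ((if V.b then s else -s : ℤ) : ℝ) +
        (-(sg V.P.σ * V.P.m : ℝ) / 4 + (Fh (up V.P.ty n) - Fh n)) +
        (-(wX D) / 4 + (Fh n' - Fh (up V.P.ty n)) + ((al D (s + (1 - ncl V.P.ty)) : ℤ) : ℝ)) := by
      rw [wX, al]
      push_cast
      ring
    rw [e]
    have e2 : (fun N : ℕ => TD N (V :: D) n (((N : ℤ) - 1) * s)) = fun N : ℕ =>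
        rc N V.b n (((N : ℤ) - 1) * s) ^ V.r * th N V.P.ty V.P.p n V.P.σ V.P.m *
        TD N D (up V.P.ty n) (((N : ℤ) - 1) * (s + (1 - ncl V.P.ty))) := by
      funext N
      rw [TD, mul_add ((N : ℤ) - 1) s]
    rw [e2]
    exact h2

variable {D : List Vx} {k m : ℕ}

/-- the phase of the trace -/
lemma phs_ph (h : Val D (m + 1) (m + 1)) (j l : ℤ) : ∃ q : ℤ, (2 : ℤ) ∣ q - (m + 1) * wr D ∧
    Phs (fun N => ph D m j l N) (-(wX D) / 4 + q / 2) := by
  have h1 := phs_TD D (m + 1) (m + 1) 0 h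
  have e1 : (fun N : ℕ => TD N D (m + 1) (((N : ℤ) - 1) * 0)) = fun N : ℕ => TD N D (m + 1) 0 := by
    funext N
    rw [mul_zero]
  rw [e1] at h1
  have h2 : Phs (fun N => cs N (((m + 1 : ℕ) : ℝ) * wr D * ((N : ℝ) - 1) ^ 2 / 2))
      (((m + 1 : ℕ) : ℝ) * wr D / 2) := by
    refine ⟨-(((m + 1 : ℕ) : ℝ) * wr D), ((m + 1 : ℕ) : ℝ) * wr D / 2, fun N _ => ?_⟩
    show cs N _ = _
    congr 1
    ring
  have h3 : Phs (fun N => cs N (N * ((N : ℝ) - 1) * (j * wr D - l * ((m + 1 : ℕ) : ℤ))))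
      (j * wr D - l * ((m + 1 : ℕ) : ℤ)) := by
    refine ⟨-(j * wr D - l * ((m + 1 : ℕ) : ℤ)), 0, fun N _ => ?_⟩
    show cs N _ = _
    congr 1
    ring
  refine ⟨2 * al D 0 + (m + 1) * wr D + 2 * (j * wr D - l * (m + 1)), ?_, ?_⟩
  · exact ⟨al D 0 + (j * wr D - l * (m + 1)), by ring⟩
  · have h4 := (h1.mul h2).mul h3
    have e2 : -(wX D) / 4 + (Fh (m + 1) - Fh (m + 1)) + ((al D 0 : ℤ) : ℝ) +
        ((m + 1 : ℕ) : ℝ) * wr D / 2 + (j * wr D - l * ((m + 1 : ℕ) : ℤ)) =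
        -(wX D) / 4 +
        ((2 * al D 0 + (m + 1) * wr D + 2 * (j * wr D - l * (m + 1)) : ℤ) : ℝ) / 2 := by
      push_cast
      ring
    rw [e2] at h4
    exact h4

/-- **the asymptotics of the trace with its phase** -/
theorem asymP (h : Val D (m + 1) (m + 1)) (hC : Cell D m k)
    (hp : ∃ p ∈ AT k m D, ∀ b i, 0 < p b i) : ∃ q : ℤ, (2 : ℤ) ∣ q - (m + 1) * wr D ∧
    ∃ z : ℂ, z ≠ 0 ∧ Tendsto (fun N : ℕ =>
      rt N ^ (-((m + 1 + 1 : ℕ) : ℤ) * ((N : ℤ) - 1)) *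
      (N * ∑ t : Fin (m + 1) → Fin N, FD D (dl (List.ofFn t)) (List.ofFn t)) /
      (N * √N * Complex.exp (N * ((sSup (fV '' AT k m D) : ℝ) +
        Real.pi * (-(wX D) / 4 + q / 2 : ℝ) * Complex.I)))) atTop (𝓝 z) := by
  obtain ⟨j, l, z, hz, hlim⟩ := asymT h hC hp
  obtain ⟨q, hq, hph⟩ := phs_ph h j l
  have h0 : Phs (fun N => rt N ^ (-((m + 1 + 1 : ℕ) : ℤ) * ((N : ℤ) - 1))) 0 := by
    refine ⟨-((m + 1 + 1 : ℕ) : ℝ), ((m + 1 + 1 : ℕ) : ℝ), fun N _ => ?_⟩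
    show rt N ^ _ = _
    rw [Pool.Agent.Q191.TW.rt_cs]
    congr 1
    push_cast
    ring
  have h1 := h0.mul hph
  rw [zero_add] at h1
  obtain ⟨z', hz', hlim'⟩ := h1.lim
  refine ⟨q, hq, z' * z, mul_ne_zero hz' hz, (hlim'.mul hlim).congr' ?_⟩
  filter_upwards [eventually_gt_atTop 0] with N hN
  have hNr : (0 : ℝ) < N := by exact_mod_cast hN
  have hs : (0 : ℝ) < √N := Real.sqrt_pos.mpr hNr
  have hNc : (N : ℂ) ≠ 0 := by exact_mod_cast hN.ne'
  have hsc : ((√N : ℝ) : ℂ) ≠ 0 := by exact_mod_cast hs.ne'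
  have hphn : ph D m j l N ≠ 0 := by
    have := ph_norm hN h j l
    intro hh
    rw [hh, norm_zero] at this
    exact one_ne_zero this.symm
  have e : Complex.exp (N * ((sSup (fV '' AT k m D) : ℝ) +
        Real.pi * (-(wX D) / 4 + q / 2 : ℝ) * Complex.I)) =
      Complex.exp (N * (sSup (fV '' AT k m D) : ℝ)) *
        Complex.exp (N * (Real.pi * (-(wX D) / 4 + q / 2 : ℝ) * Complex.I)) := by
    rw [← Complex.exp_add]
    congr 1
    ring
  rw [e, Complex.exp_neg]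
  have e1 := Complex.exp_ne_zero (N * (Real.pi * (-(wX D) / 4 + q / 2 : ℝ) * Complex.I))
  have e2 := Complex.exp_ne_zero (N * (sSup (fV '' AT k m D) : ℝ))
  push_cast at e1 e2 ⊢
  field_simp

end Pool.Agent.H760.TT
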