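import Pool.Agent.H760.TT.Geo5
import Pool.Agent.H760.TT.VC
import Pool.Graph.R_pool_sql_team_seeded_3997aac3.Q151.FAL.MAX

/-!
# Fully augmented links in the thickened torus, part 22: the asymptotics of the trace
-/

set_option autoImplicit false

namespace Pool.Agent.H760.TT

open Finset Filter Topology
open Pool.Agent.Q191.TW (cs cs_add cs_zero cs_ne cs_neg cs_norm dl)
open Pool.Agent.Q99.FAL

variable {D : List Vx} {k m : ℕ}

/-- the maximum is positive -/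
lemma exists_top (h : Val D (m + 1) (m + 1)) (hC : Cell D m k)
    (hp : ∃ p ∈ AT k m D, ∀ b i, 0 < p b i) :
    ∃ a ∈ AT k m D, (∀ b i, 0 < a b i) ∧ ∀ a' ∈ AT k m D, fV a' ≤ fV a := by
  obtain ⟨p, hpA, hpos⟩ := hp
  obtain ⟨a0, -, h0⟩ := exists_a0 h hC p hpA.2.2 hpA.1
  obtain ⟨a, ha, hz, hmax⟩ := task_MAX D.length (XT k m D a0) p
    (good_T a0 h0 p hpA hpos)
  rw [Ang_eq a0 h0] at ha hmax
  refine ⟨a, ha, fun b i => lt_of_le_of_ne (ha.2.2 b i) fun hh => ?_, hmax⟩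
  exact (hpos b i).ne' ((hz b i).1 hh.symm)

/-- the phase of the trace -/
noncomputable def ph (D : List Vx) (m : ℕ) (j l : ℤ) (N : ℕ) : ℂ :=
  TD N D (m + 1) 0 * cs N (((m + 1 : ℕ) : ℝ) * wr D * ((N : ℝ) - 1) ^ 2 / 2) *
    cs N (N * ((N : ℝ) - 1) * (j * wr D - l * ((m + 1 : ℕ) : ℤ)))

lemma ph_norm {N : ℕ} (hN : 0 < N) (h : Val D (m + 1) (m + 1)) (j l : ℤ) :
    ‖ph D m j l N‖ = 1 := by
  rw [ph, norm_mul, norm_mul, cs_norm, cs_norm, TD_norm hN D _ _ 0 h, one_mul, one_mul]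

/-- **the asymptotics of the trace** -/
theorem asymT (h : Val D (m + 1) (m + 1)) (hC : Cell D m k)
    (hp : ∃ p ∈ AT k m D, ∀ b i, 0 < p b i) : ∃ (j l : ℤ) (z : ℂ), z ≠ 0 ∧
    Tendsto (fun N : ℕ => (ph D m j l N)⁻¹ *
      (∑ t : Fin (m + 1) → Fin N, FD D (dl (List.ofFn t)) (List.ofFn t)) /
      ((√N * Real.exp (N * sSup (fV '' AT k m D)) : ℝ) : ℂ)) atTop (𝓝 z) := by
  obtain ⟨a, ha, hpos, hmax⟩ := exists_top h hC hp
  obtain ⟨j, l, hfl⟩ := flat_of h hC a ha hpos hmax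
  obtain ⟨z, hz, hlim⟩ := asym h hC a ha hpos hmax j l hfl
  refine ⟨j, l, z, hz, hlim.congr' ?_⟩
  have hsup : sSup (fV '' AT k m D) = fV a := by
    refine IsGreatest.csSup_eq ⟨⟨a, ha, rfl⟩, ?_⟩
    rintro _ ⟨a', ha', rfl⟩
    exact hmax a' ha'
  have hD : 1 ≤ D.length := by
    have := D_ne hC
    rcases D with _ | ⟨V, D⟩
    · exact absurd rfl this
    · simp
  filter_upwards [eventually_ge_atTop 1] with N hN
  have hN0 : (0 : ℝ) < N := by exact_mod_cast hN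
  have hs : 0 < √(N : ℝ) := Real.sqrt_pos.2 hN0
  have hsq : (N : ℝ) = √(N : ℝ) ^ 2 := (Real.sq_sqrt hN0.le).symm
  rw [hsup, rank_LT h hC a ha.1]
  have e1 : √(N : ℝ) ^ (6 * D.length) / √(N : ℝ) ^ (4 * D.length + 1) *
      Real.exp (-(N * fV a)) / (N : ℝ) ^ D.length = (√(N : ℝ) * Real.exp (N * fV a))⁻¹ := by
    have e2 : (N : ℝ) ^ D.length = √(N : ℝ) ^ (2 * D.length) := by
      rw [pow_mul, ← hsq]
    rw [e2, Real.exp_neg, mul_inv]
    have e3 : 6 * D.length = 4 * D.length + 2 * D.length := by ring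
    rw [e3, pow_add, pow_succ]
    have hsn := hs.ne'
    field_simp
  rw [e1]
  have e4 : (TD N D (m + 1) 0 * cs N (((m + 1 : ℕ) : ℝ) * wr D * ((N : ℝ) - 1) ^ 2 / 2) *
        cs N (N * ((N : ℝ) - 1) * (j * wr D - l * ((m + 1 : ℕ) : ℤ))))⁻¹ =
      (ph D m j l N)⁻¹ := rfl
  rw [e4, div_eq_mul_inv, Complex.ofReal_inv]
  ring

/-- **the absolute value of the trace** -/
theorem asymN (h : Val D (m + 1) (m + 1)) (hC : Cell D m k)
    (hp : ∃ p ∈ AT k m D, ∀ b i, 0 < p b i) : ∃ c : ℝ, 0 < c ∧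
    Tendsto (fun N : ℕ =>
      ‖∑ t : Fin (m + 1) → Fin N, FD D (dl (List.ofFn t)) (List.ofFn t)‖ /
      (√N * Real.exp (N * sSup (fV '' AT k m D)))) atTop (𝓝 c) := by
  obtain ⟨j, l, z, hz, hlim⟩ := asymT h hC hp
  refine ⟨‖z‖, norm_pos_iff.2 hz, (hlim.norm).congr' ?_⟩
  filter_upwards [eventually_ge_atTop 1] with N hN
  have hN0 : (0 : ℝ) < N := by exact_mod_cast hN
  rw [norm_div, norm_mul, norm_inv, ph_norm hN h, inv_one, one_mul, Complex.norm_real,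
    Real.norm_of_nonneg (by positivity)]

end Pool.Agent.H760.TT
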