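import Pool.Agent.H760.TT.Tr

/-!
# Fully augmented links in the thickened torus, part 7: the gaps of a weighting
-/

set_option autoImplicit false

namespace Pool.Agent.H760.TT

open Finset
open Pool.Agent.Q99.FAL

/-! ### lists -/

section ls
variable {R : Type}

lemma pair_add [Add R] (W : List (R × R)) :
    W.map (fun p => p.1 + p.2) = List.zipWith (· + ·) (W.map Prod.fst) (W.map Prod.snd) := by
  induction W with
  | nil => rfl
  | cons w W ih => rw [List.map_cons, List.map_cons, List.map_cons, List.zipWith_cons_cons, ih]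

lemma zip_fst (G G' : List R) (h : G.length = G'.length) : (G.zip G').map Prod.fst = G :=
  List.map_fst_zip (by omega)

lemma zip_snd (G G' : List R) (h : G.length = G'.length) : (G.zip G').map Prod.snd = G' :=
  List.map_snd_zip (by omega)

lemma zip_add [Add R] (G G' : List R) :
    (G.zip G').map (fun p => p.1 + p.2) = List.zipWith (· + ·) G G' := by
  rw [List.zip, List.map_zipWith]

lemma zip_zero [AddCommGroup R] (n : ℕ) (G : List R) (h : G.length = n) :
    List.zipWith (· + ·) G (List.replicate n 0) = G := by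
  subst h
  induction G with
  | nil => rfl
  | cons x G ih => rw [List.length_cons, List.replicate_succ, List.zipWith_cons_cons, ih, add_zero]

lemma zero_zip [AddCommGroup R] (n : ℕ) (G : List R) (h : G.length = n) :
    List.zipWith (· + ·) (List.replicate n 0) G = G := by
  subst h
  induction G with
  | nil => rfl
  | cons x G ih => rw [List.length_cons, List.replicate_succ, List.zipWith_cons_cons, ih, zero_add]

end ls

/-- natural operations are additive -/
lemma nat_add {c : ℕ} (Φ : ∀ (R : Type) [AddCommGroup R], (Fin c → Fin 6 → R) → List R → List R)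
    (hΦ : ∀ (R R' : Type) [AddCommGroup R] [AddCommGroup R'] (f : R →+ R')
      (a : Fin c → Fin 6 → R) (G : List R), Φ R' (fun k i => f (a k i)) (G.map f) = (Φ R a G).map f)
    {R : Type} [AddCommGroup R] (a a' : Fin c → Fin 6 → R) (G G' : List R)
    (h : G.length = G'.length) : Φ R (fun k i => a k i + a' k i) (List.zipWith (· + ·) G G') =
      List.zipWith (· + ·) (Φ R a G) (Φ R a' G') := by
  have h1 := hΦ (R × R) R (AddMonoidHom.fst R R) (fun k i => (a k i, a' k i)) (G.zip G')
  have h2 := hΦ (R × R) R (AddMonoidHom.snd R R) (fun k i => (a k i, a' k i)) (G.zip G')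
  have h3 := hΦ (R × R) R (AddMonoidHom.fst R R + AddMonoidHom.snd R R)
    (fun k i => (a k i, a' k i)) (G.zip G')
  have e1 : (G.zip G').map (AddMonoidHom.fst R R) = G := zip_fst G G' h
  have e2 : (G.zip G').map (AddMonoidHom.snd R R) = G' := zip_snd G G' h
  have e3 : (G.zip G').map (AddMonoidHom.fst R R + AddMonoidHom.snd R R) =
    List.zipWith (· + ·) G G' := zip_add G G'
  rw [e1] at h1
  rw [e2] at h2
  rw [e3] at h3
  refine h3.trans ?_
  have h4 := pair_add (Φ (R × R) (fun k i => (a k i, a' k i)) (G.zip G'))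
  refine h4.trans ?_
  exact congrArg₂ (List.zipWith (· + ·)) h1.symm h2.symm

/-! ### turns -/

section turns
variable {R : Type} [AddCommGroup R] {R' : Type} [AddCommGroup R']
variable {D : List Vx} {m : ℕ}

lemma turn_len (h : Val D (m + 1) (m + 1)) (a : Fin D.length → Fin 6 → R) (G : List R)
    (hG : G.length = m + 2) : (turn D a G).length = m + 2 :=
  nrm_len _ m (fin_len D (m + 1) (m + 1) h a (0, G) hG)

lemma it_len (h : Val D (m + 1) (m + 1)) (a : Fin D.length → Fin 6 → R) (k : ℕ) (G : List R)
    (hG : G.length = m + 2) : ((turn D a)^[k] G).length = m + 2 := by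
  induction k with
  | zero => exact hG
  | succ k ih => rw [Function.iterate_succ_apply']; exact turn_len h a _ ih

lemma it_map (f : R →+ R') (a : Fin D.length → Fin 6 → R) (k : ℕ) (G : List R) :
    (turn D (fun k i => f (a k i)))^[k] (G.map f) = ((turn D a)^[k] G).map f := by
  induction k with
  | zero => rfl
  | succ k ih => rw [Function.iterate_succ_apply', Function.iterate_succ_apply', ih, turn_map]

lemma it_add (k : ℕ) (a a' : Fin D.length → Fin 6 → R) (G G' : List R)
    (h : G.length = G'.length) :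
    (turn D (fun k i => a k i + a' k i))^[k] (List.zipWith (· + ·) G G') =
      List.zipWith (· + ·) ((turn D a)^[k] G) ((turn D a')^[k] G') :=
  nat_add (fun R _ a G => (turn D a)^[k] G) (fun R R' _ _ f a G => it_map f a k G) a a' G G' h

lemma clo_add (a a' : Fin D.length → Fin 6 → R) (G G' : List R)
    (h : G.length = G'.length) :
    clo D (fun k i => a k i + a' k i) (0, List.zipWith (· + ·) G G') =
      List.zipWith (· + ·) (clo D a (0, G)) (clo D a' (0, G')) :=
  nat_add (fun R _ a G => clo D a (0, G)) (fun R R' _ _ f a G => by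
    have := clo_map f D a (0, G)
    have e : sm f ((0 : R), G) = (0, G.map f) := by simp [sm]
    rw [e] at this
    exact this) a a' G G' h

/-- the gaps at the bottom of a weighting -/
def Gof (k m : ℕ) (D : List Vx) (a : Fin D.length → Fin 6 → R) : List R :=
  (turn D a)^[k] (List.replicate (m + 2) 0)

lemma Gof_len (h : Val D (m + 1) (m + 1)) (k : ℕ) (a : Fin D.length → Fin 6 → R) :
    (Gof k m D a).length = m + 2 := it_len h a k _ (by simp)

lemma Gof_map (f : R →+ R') (k : ℕ) (a : Fin D.length → Fin 6 → R) :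
    Gof k m D (fun k i => f (a k i)) = (Gof k m D a).map f := by
  unfold Gof
  rw [← it_map]
  simp

/-- the regions end after `k` turns -/
def Cell (D : List Vx) (m k : ℕ) : Prop :=
  ∀ G : List ℝ, G.length = m + 2 → (turn D (fun _ _ => 0))^[k] G = List.replicate (m + 2) 0

lemma uniqR (h : Val D (m + 1) (m + 1)) {k : ℕ} (hC : Cell D m k)
    (a : Fin D.length → Fin 6 → ℝ) (G : List ℝ) (hG : G.length = m + 2) (hf : turn D a G = G) :
    G = Gof k m D a := by
  have h1 : (turn D a)^[k] G = G := Function.iterate_fixed hf k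
  have h2 := it_add k a (fun _ _ => 0) (List.replicate (m + 2) 0) G (by simp [hG])
  simp only [add_zero] at h2
  rw [zero_zip _ _ hG, h1, hC G hG, zip_zero _ _ (it_len h a k _ (by simp))] at h2
  exact h2

lemma fixR (h : Val D (m + 1) (m + 1)) {k : ℕ} (hC : Cell D m k)
    (a : Fin D.length → Fin 6 → ℝ) : turn D a (Gof k m D a) = Gof k m D a := by
  have hl := turn_len h a (List.replicate (m + 2) 0) (by simp)
  have h2 := it_add k a (fun _ _ => 0) (List.replicate (m + 2) 0)
    (turn D a (List.replicate (m + 2) 0)) (by rw [hl]; simp)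
  simp only [add_zero] at h2
  rw [zero_zip _ _ hl, hC _ hl, zip_zero _ _ (it_len h a k _ (by simp))] at h2
  unfold Gof
  rw [← Function.iterate_succ_apply' (turn D a), Function.iterate_succ_apply]
  exact h2

lemma map_cast_inj {G G' : List ℤ} (h : G.map (Int.castAddHom ℝ) = G'.map (Int.castAddHom ℝ)) :
    G = G' := List.map_injective_iff.2 (fun x y hxy => Int.cast_injective hxy) h

lemma uniqZ (h : Val D (m + 1) (m + 1)) {k : ℕ} (hC : Cell D m k)
    (a : Fin D.length → Fin 6 → ℤ) (G : List ℤ) (hG : G.length = m + 2) (hf : turn D a G = G) :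
    G = Gof k m D a := by
  apply map_cast_inj
  rw [← Gof_map]
  refine uniqR h hC _ _ (by simp [hG]) ?_
  rw [turn_map, hf]

lemma fixZ (h : Val D (m + 1) (m + 1)) {k : ℕ} (hC : Cell D m k)
    (a : Fin D.length → Fin 6 → ℤ) : turn D a (Gof k m D a) = Gof k m D a := by
  apply map_cast_inj
  rw [← turn_map, ← Gof_map]
  exact fixR h hC _

/-! ### solutions -/

/-- all sums are `u` -/
def TS (k m : ℕ) (D : List Vx) (a : Fin D.length → Fin 6 → R) (u : R) : Prop :=
  (∀ b, n1 (a b) + n2 (a b) = u) ∧ ∀ c ∈ clo D a (0, Gof k m D a), c = u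

lemma n1m (f : R →+ R') (z : Fin 6 → R) : n1 (fun i => f (z i)) = f (n1 z) := by
  simp [n1, map_add]

lemma n2m (f : R →+ R') (z : Fin 6 → R) : n2 (fun i => f (z i)) = f (n2 z) := by
  simp [n2, map_add]

lemma clo_Gof (f : R →+ R') (k : ℕ) (a : Fin D.length → Fin 6 → R) :
    clo D (fun k i => f (a k i)) (0, Gof k m D (fun k i => f (a k i))) =
      (clo D a (0, Gof k m D a)).map f := by
  rw [Gof_map]
  have := clo_map f D a (0, Gof k m D a)
  have e : sm f ((0 : R), Gof k m D a) = (0, (Gof k m D a).map f) := by simp [sm]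
  rw [e] at this
  exact this

lemma TS_map (f : R →+ R') (k : ℕ) (a : Fin D.length → Fin 6 → R) (u : R)
    (h : TS k m D a u) : TS k m D (fun k i => f (a k i)) (f u) := by
  refine ⟨fun b => ?_, fun c hc => ?_⟩
  · rw [n1m, n2m, ← map_add, h.1]
  · rw [clo_Gof] at hc
    obtain ⟨c', hc', rfl⟩ := List.mem_map.1 hc
    rw [h.2 c' hc']

lemma TS_joint {R1 R2 : Type} [AddCommGroup R1] [AddCommGroup R2] (f : R →+ R1)
    (g : R →+ R2) (hfg : ∀ x y, f x = f y → g x = g y → x = y) (k : ℕ)
    (a : Fin D.length → Fin 6 → R) (u : R) (h1 : TS k m D (fun k i => f (a k i)) (f u))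
    (h2 : TS k m D (fun k i => g (a k i)) (g u)) : TS k m D a u := by
  refine ⟨fun b => ?_, fun c hc => ?_⟩
  · have k1 := h1.1 b
    have k2 := h2.1 b
    rw [n1m, n2m, ← map_add] at k1 k2
    exact hfg _ _ k1 k2
  · refine hfg _ _ (h1.2 _ ?_) (h2.2 _ ?_)
    · rw [clo_Gof]; exact List.mem_map_of_mem hc
    · rw [clo_Gof]; exact List.mem_map_of_mem hc

lemma TS_add (k : ℕ) (a a' : Fin D.length → Fin 6 → R) (u u' : R) (h : TS k m D a u)
    (h' : TS k m D a' u') : TS k m D (fun k i => a k i + a' k i) (u + u') := by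
  have h1 : TS k m D (fun k i => ((a k i, a' k i) : R × R)) (u, u') :=
    TS_joint (AddMonoidHom.fst R R) (AddMonoidHom.snd R R)
      (fun x y h1 h2 => Prod.ext h1 h2) k _ _ h h'
  exact TS_map (AddMonoidHom.fst R R + AddMonoidHom.snd R R) k _ _ h1

lemma TS_zero (k : ℕ) : TS k m D (fun _ _ => (0 : R)) 0 := by
  refine ⟨fun b => by simp [n1, n2], fun c hc => ?_⟩
  have h1 := clo_Gof (R := R) (R' := R) (D := D) (m := m) 0 k (fun _ _ => 0)
  simp only [AddMonoidHom.zero_apply] at h1
  rw [h1] at hc
  obtain ⟨c', _, rfl⟩ := List.mem_map.1 hc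
  rfl

lemma TS_neg (k : ℕ) (a : Fin D.length → Fin 6 → R) (u : R) (h : TS k m D a u) :
    TS k m D (fun k i => -a k i) (-u) := TS_map (-AddMonoidHom.id R) k a u h

lemma TS_sub (k : ℕ) (a a' : Fin D.length → Fin 6 → R) (u u' : R) (h : TS k m D a u)
    (h' : TS k m D a' u') : TS k m D (fun k i => a k i - a' k i) (u - u') := by
  have := TS_add k a _ u _ h (TS_neg k a' u' h')
  simpa only [sub_eq_add_neg] using this

lemma TS_castR (k : ℕ) (a : Fin D.length → Fin 6 → ℤ) (u : ℤ) :
    TS k m D (fun k i => ((a k i : ℤ) : ℝ)) (u : ℝ) ↔ TS k m D a u := by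
  constructor
  · intro h
    exact TS_joint (Int.castAddHom ℝ) (Int.castAddHom ℝ)
      (fun x y h1 _ => Int.cast_injective h1) k a u h h
  · intro h
    exact TS_map (Int.castAddHom ℝ) k a u h

end turns

end Pool.Agent.H760.TT
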