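import Pool.Agent.H760.TT.NetT

/-!
# Fully augmented links in the thickened torus, part 13: colourings
-/

set_option autoImplicit false

namespace Pool.Agent.H760.TT

open Finset
open Pool.Agent.Q99.FAL
open Pool.Agent.Q237.FAL (mid ccl dec stp_eq cls_eq mid_len)

/-! ### the pairing -/

/-- the pairing of colours and gaps -/
def dot (c G : List ℝ) : ℝ := (List.zipWith (· * ·) c G).sum

lemma dot_cons (a x : ℝ) (c G : List ℝ) : dot (a :: c) (x :: G) = a * x + dot c G := by
  simp [dot]

lemma dot_nil (G : List ℝ) : dot [] G = 0 := by simp [dot]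

lemma dot_append {A A' : List ℝ} (h : A.length = A'.length) (B B' : List ℝ) :
    dot (A ++ B) (A' ++ B') = dot A A' + dot B B' := by
  unfold dot
  rw [List.zipWith_append h, List.sum_append]

lemma dot_zero (c : List ℝ) (n : ℕ) : dot c (List.replicate n 0) = 0 := by
  induction c generalizing n with
  | nil => exact dot_nil _
  | cons a c ih =>
    cases n with
    | zero => simp [dot]
    | succ n => rw [List.replicate_succ, dot_cons, ih]; ring

lemma dot_repl (φ : ℝ) (G : List ℝ) (n : ℕ) (h : G.length = n) :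
    dot (List.replicate n φ) G = φ * G.sum := by
  subst h
  induction G with
  | nil => simp [dot]
  | cons x G ih => rw [List.length_cons, List.replicate_succ, dot_cons, ih, List.sum_cons]; ring

lemma dot_add (c : List ℝ) : ∀ (G G' : List ℝ), G.length = G'.length →
    dot c (List.zipWith (· + ·) G G') = dot c G + dot c G' := by
  induction c with
  | nil => intro G G' _; simp [dot]
  | cons a c ih =>
    intro G G' h
    rcases G with _ | ⟨x, G⟩ <;> rcases G' with _ | ⟨x', G'⟩
    · simp [dot]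
    · simp at h
    · simp at h
    · rw [List.zipWith_cons_cons, dot_cons, dot_cons, dot_cons, ih _ _ (by simpa using h)]
      ring

lemma dot_ext : ∀ (c c' : List ℝ), c.length = c'.length →
    (∀ G, G.length = c.length → dot c G = dot c' G) → c = c'
  | [], [], _, _ => rfl
  | [], _ :: _, h, _ => by simp at h
  | _ :: _, [], h, _ => by simp at h
  | a :: c, a' :: c', h, h2 => by
    have e1 := h2 (1 :: List.replicate c.length 0) (by simp)
    rw [dot_cons, dot_cons, dot_zero, dot_zero] at e1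
    have e2 : c = c' := dot_ext c c' (by simpa using h) fun G hG => by
      have := h2 (0 :: G) (by simp [hG])
      rw [dot_cons, dot_cons] at this
      linarith
    have e3 : a = a' := by linarith
    rw [e2, e3]

/-! ### rotations of colours -/

/-- a rotation of the colours -/
def rotc (b : Bool) (c : List ℝ) : List ℝ :=
  if b then c.tail ++ [c.tail.headD 0] else (c.dropLast.getLastD 0) :: c.dropLast

/-- the first and the last region are the same -/
def Per (c : List ℝ) : Prop := ∃ x M, c = x :: (M ++ [x])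

lemma rotc_true (x : ℝ) (M : List ℝ) :
    rotc true (x :: (M ++ [x])) = (M ++ [x]) ++ [(M ++ [x]).headD 0] := by simp [rotc]

lemma rotc_false (x : ℝ) (M : List ℝ) :
    rotc false (x :: (M ++ [x])) = ((x :: M).getLastD 0) :: (x :: M) := by
  unfold rotc
  rw [if_neg (by simp), ← List.cons_append, List.dropLast_concat]

lemma rotc_inv (b : Bool) (c : List ℝ) (h : Per c) : rotc b (rotc (!b) c) = c := by
  obtain ⟨x, M, rfl⟩ := h
  cases b
  · rw [Bool.not_false, rotc_true]
    unfold rotc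
    rw [if_neg (by simp), List.dropLast_concat, List.getLastD_concat]
  · rw [Bool.not_true, rotc_false]
    unfold rotc
    rw [if_pos rfl]
    rfl

lemma rotc_per (b : Bool) (c : List ℝ) (h : Per c) : Per (rotc b c) := by
  obtain ⟨x, M, rfl⟩ := h
  cases b
  · rw [rotc_false]
    rcases List.eq_nil_or_concat (x :: M) with h | ⟨K, l, h⟩
    · simp at h
    · rw [List.concat_eq_append] at h
      rw [h, List.getLastD_concat]
      exact ⟨l, K, rfl⟩
  · rw [rotc_true]
    rcases M with _ | ⟨y, M⟩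
    · exact ⟨x, [], by simp⟩
    · exact ⟨y, M ++ [x], by simp⟩

lemma rotc_len (b : Bool) (c : List ℝ) (h : Per c) : (rotc b c).length = c.length := by
  obtain ⟨x, M, rfl⟩ := h
  cases b
  · rw [rotc_false]; simp
  · rw [rotc_true]; simp

lemma rotc_dot (b : Bool) (c : List ℝ) (h : Per c) (z : ℝ × List ℝ) (hz : z.2.length = c.length) :
    dot (rotc b c) (rot b z).2 = dot c z.2 := by
  obtain ⟨x, M, rfl⟩ := h
  obtain ⟨s, G⟩ := z
  obtain ⟨x', M', y', rfl, hM⟩ := exists_ends (n := M.length) (by simpa using hz)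
  cases b
  · rw [rotc_false, rot_false, dot_cons, dot_cons]
    simp only
    rw [dot_cons, dot_append hM.symm, dot_cons, dot_nil]
    ring
  · rw [rotc_true, rot_true]
    have e : M' ++ [y' + x', 0] = (M' ++ [y' + x']) ++ [0] := by simp
    simp only
    rw [e, dot_append (by simp [hM]), dot_append hM.symm, dot_cons, dot_cons, dot_cons,
      dot_append hM.symm, dot_cons, dot_nil]
    ring

lemma rotc_comm (b : Bool) (c : List ℝ) (h : Per c) :
    rotc b (rotc false c) = rotc false (rotc b c) := by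
  cases b
  · rfl
  · have h1 := rotc_inv true c h
    have h2 := rotc_inv false c h
    rw [Bool.not_true] at h1
    rw [Bool.not_false] at h2
    rw [h1, h2]

lemma rotcs_per (b : Bool) (r : ℕ) (c : List ℝ) (h : Per c) : Per ((rotc b)^[r] c) := by
  induction r with
  | zero => exact h
  | succ r ih => rw [Function.iterate_succ_apply']; exact rotc_per b _ ih

lemma rotcs_len (b : Bool) (r : ℕ) (c : List ℝ) (h : Per c) :
    ((rotc b)^[r] c).length = c.length := by
  induction r with
  | zero => rfl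
  | succ r ih => rw [Function.iterate_succ_apply', rotc_len b _ (rotcs_per b r c h), ih]

lemma rotcs_comm (b : Bool) (r : ℕ) (c : List ℝ) (h : Per c) :
    (rotc b)^[r] (rotc false c) = rotc false ((rotc b)^[r] c) := by
  induction r with
  | zero => rfl
  | succ r ih =>
    rw [Function.iterate_succ_apply', ih, rotc_comm b _ (rotcs_per b r c h),
      Function.iterate_succ_apply']

lemma Per.two {c : List ℝ} (h : Per c) : ∃ n, c.length = n + 2 := by
  obtain ⟨x, M, rfl⟩ := h
  exact ⟨M.length, by simp⟩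

lemma rotcs_dot (b : Bool) (r : ℕ) (c : List ℝ) (h : Per c) (z : ℝ × List ℝ)
    (hz : z.2.length = c.length) : dot ((rotc b)^[r] c) ((rot b)^[r] z).2 = dot c z.2 := by
  induction r with
  | zero => rfl
  | succ r ih =>
    obtain ⟨n, hn⟩ := h.two
    rw [Function.iterate_succ_apply', Function.iterate_succ_apply',
      rotc_dot b _ (rotcs_per b r c h) _ ?_, ih]
    rw [rotcs_len b r c h, rots_len b r z n (by rw [hz, hn]), hn]

lemma rotcs_inv (b : Bool) (r : ℕ) (c : List ℝ) (h : Per c) :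
    (rotc b)^[r] ((rotc (!b))^[r] c) = c := by
  induction r with
  | zero => rfl
  | succ r ih =>
    rw [Function.iterate_succ_apply, Function.iterate_succ_apply',
      rotc_inv b _ (rotcs_per _ r c h), ih]

lemma last_app (L B : List ℝ) (y : ℝ) : (L ++ y :: B).getLastD 0 = (y :: B).getLastD 0 := by
  rcases List.eq_nil_or_concat B with rfl | ⟨B', b, rfl⟩
  · rw [List.getLastD_concat]
    rfl
  · have e1 : L ++ y :: (B' ++ [b]) = (L ++ y :: B') ++ [b] := by simp
    have e2 : y :: (B' ++ [b]) = (y :: B') ++ [b] := by simp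
    rw [List.concat_eq_append, e1, e2, List.getLastD_concat, List.getLastD_concat]

lemma per_iff (c : List ℝ) : Per c ↔ 2 ≤ c.length ∧ c.headD 0 = c.getLastD 0 := by
  constructor
  · rintro ⟨x, M, rfl⟩
    refine ⟨by simp, ?_⟩
    have e2 : x :: (M ++ [x]) = (x :: M) ++ [x] := by simp
    rw [e2, List.getLastD_concat]
    rfl
  · rintro ⟨h1, h2⟩
    obtain ⟨x, M, y, rfl, -⟩ := exists_ends (G := c) (n := c.length - 2) (by omega)
    have e2 : x :: (M ++ [y]) = (x :: M) ++ [y] := by simp
    rw [e2, List.getLastD_concat] at h2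
    have h3 : x = y := h2
    exact ⟨x, M, by rw [h3]⟩

lemma per_mid {A M M' B : List ℝ} {x y : ℝ} (h : Per (A ++ x :: (M ++ y :: B))) :
    Per (A ++ x :: (M' ++ y :: B)) := by
  rw [per_iff] at h ⊢
  refine ⟨by simp; omega, ?_⟩
  have h1 := h.2
  have e1 : A ++ x :: (M ++ y :: B) = (A ++ x :: M) ++ y :: B := by simp
  have e2 : A ++ x :: (M' ++ y :: B) = (A ++ x :: M') ++ y :: B := by simp
  have e3 : (A ++ x :: (M ++ y :: B)).headD 0 = (A ++ x :: (M' ++ y :: B)).headD 0 := by
    cases A <;> rfl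
  rw [← e3, h1, e1, e2, last_app, last_app]

/-! ### vertices -/

/-- the number of strands which leave a piece -/
def ud : Ty → ℕ
  | .V => 2
  | .H => 2
  | .YL => 3
  | .YR => 3
  | .LL => 1
  | .LR => 1

lemma ud_pos (T : Ty) : 1 ≤ ud T := by cases T <;> simp [ud]

lemma mid_ud {R : Type} (T : Ty) (q : Fin 4 → R) : (mid T q).length + 1 = ud T := by
  cases T <;> simp [mid, ud]

lemma up_ud (T : Ty) (n : ℕ) (h : wd T ≤ n) : up T n + wd T = n + ud T := by
  cases T <;> simp only [up, wd, ud] at * <;> omega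

lemma mid_zero (T : Ty) : mid T (fun _ => (0 : ℝ)) = List.replicate (ud T - 1) 0 := by
  cases T <;> simp [mid, ud]

lemma ccl_zero (T : Ty) (m : List ℝ) (hm : m.length + 1 = wd T) :
    ccl T (fun _ => (0 : ℝ)) m = m := by
  cases T <;> simp only [wd] at hm <;> rcases m with _ | ⟨a, _ | ⟨b, _ | ⟨c, m⟩⟩⟩ <;>
    simp [ccl] at hm ⊢

lemma cor_zero : cor (fun _ => (0 : ℝ)) = fun _ => 0 := by
  funext j
  fin_cases j <;> simp [cor]

lemma vdot (T : Ty) (A M B γ : List ℝ) (x y : ℝ) (hM : M.length + 1 = ud T)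
    (hγ : γ.length + 1 = wd T) (G : List ℝ) (hG : G.length = A.length + wd T + B.length + 1) :
    dot (A ++ x :: (M ++ y :: B)) (stp T A.length (fun _ => 0) G) +
      dot γ (cls T A.length (fun _ => 0) G) = dot (A ++ x :: (γ ++ y :: B)) G := by
  obtain ⟨A', x', m', y', r', rfl, hA, hm⟩ := dec T A.length G (by omega)
  rw [← hA, stp_eq T _ A' x' m' y' r' hm, cls_eq T _ A' x' m' y' r' hm, ccl_zero T m' hm, mid_zero,
    dot_append hA.symm, dot_append hA.symm, dot_cons, dot_cons, dot_append (by simp; omega),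
    dot_append (by omega), dot_cons, dot_cons, dot_zero, add_zero, add_zero]
  ring

/-- the dual of a vertex -/
lemma dual_vx (V : Vx) (n : ℕ) (h : V.P.p + wd V.P.ty ≤ n) (c1 γ : List ℝ)
    (h1 : c1.length = up V.P.ty n + 1) (hP : Per c1) (hγ : γ.length + 1 = wd V.P.ty) :
    ∃ A x M y B, A.length = V.P.p ∧ M.length + 1 = ud V.P.ty ∧
      A.length + wd V.P.ty + B.length = n ∧ c1 = A ++ x :: (M ++ y :: B) ∧
      ∃ c, c.length = n + 1 ∧ Per c ∧ (rotc V.b)^[V.r] c = A ++ x :: (γ ++ y :: B) ∧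
        ∀ z : ℝ × List ℝ, z.2.length = n + 1 →
          dot c1 (vst V (fun _ => 0) z).2 + dot γ (vcl V (fun _ => 0) z) = dot c z.2 := by
  have h2 := up_ud V.P.ty n (by omega)
  have h3 := ud_pos V.P.ty
  obtain ⟨T, hT⟩ : ∃ T : Ty, T = V.P.ty := ⟨_, rfl⟩
  have hc1 : ∃ A x M y B, c1 = A ++ x :: (M ++ y :: B) ∧ A.length = V.P.p ∧
      M.length + 1 = ud V.P.ty ∧ A.length + wd V.P.ty + B.length = n := by
    obtain ⟨A, C, rfl, hA⟩ : ∃ A C, c1 = A ++ C ∧ A.length = V.P.p :=
      ⟨c1.take V.P.p, c1.drop V.P.p, (List.take_append_drop _ _).symm, by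
        rw [List.length_take]; omega⟩
    rw [List.length_append] at h1
    rcases C with _ | ⟨x, C⟩
    · simp at h1; omega
    rw [List.length_cons] at h1
    obtain ⟨M, E, rfl, hM⟩ : ∃ M E, C = M ++ E ∧ M.length = ud V.P.ty - 1 :=
      ⟨C.take (ud V.P.ty - 1), C.drop (ud V.P.ty - 1), (List.take_append_drop _ _).symm, by
        rw [List.length_take]; omega⟩
    rw [List.length_append] at h1
    rcases E with _ | ⟨y, B⟩
    · simp at h1; omega
    rw [List.length_cons] at h1
    exact ⟨A, x, M, y, B, rfl, hA, by omega, by omega⟩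
  obtain ⟨A, x, M, y, B, rfl, hA, hM, hB⟩ := hc1
  refine ⟨A, x, M, y, B, hA, hM, hB, rfl, ?_⟩
  have hPc : Per (A ++ x :: (γ ++ y :: B)) := per_mid hP
  refine ⟨(rotc (!V.b))^[V.r] (A ++ x :: (γ ++ y :: B)), ?_, rotcs_per _ _ _ hPc,
    rotcs_inv _ _ _ hPc, ?_⟩
  · rw [rotcs_len _ _ _ hPc]
    simp
    omega
  · intro z hz
    have hlc : (A ++ x :: (γ ++ y :: B)).length = n + 1 := by simp; omega
    have e1 := rotcs_dot V.b V.r ((rotc (!V.b))^[V.r] (A ++ x :: (γ ++ y :: B)))
      (rotcs_per _ _ _ hPc) z (by rw [rotcs_len _ _ _ hPc, hlc, hz])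
    rw [rotcs_inv _ _ _ hPc] at e1
    rw [← e1]
    unfold vst vcl
    simp only
    rw [cor_zero, ← hA]
    refine vdot V.P.ty A M B γ x y hM hγ _ ?_
    obtain ⟨j, rfl⟩ : ∃ j, n = j + 1 := ⟨n - 1, by have := wd_pos V.P.ty; omega⟩
    rw [rots_len V.b V.r z j hz]
    omega

/-- the dual of a diagram -/
lemma dual_D : ∀ (D : List Vx) (n n' : ℕ), Val D n n' → ∀ (c' g : List ℝ), c'.length = n' + 1 →
    Per c' → 2 * g.length + n' = 2 * D.length + n → ∃ c, c.length = n + 1 ∧ Per c ∧
      ∀ z : ℝ × List ℝ, z.2.length = n + 1 → dot c' (fin D (fun _ _ => 0) z).2 +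
        dot g (clo D (fun _ _ => 0) z) = dot c z.2
  | [], n, n', h, c', g, hc', hP, hg => by
    have h' : n = n' := h
    subst h'
    have hg0 : g = [] := by
      apply List.length_eq_zero_iff.1
      simp only [List.length_nil] at hg
      omega
    subst hg0
    exact ⟨c', hc', hP, fun z _ => by rw [dot_nil, add_zero]; rfl⟩
  | V :: D, n, n', h, c', g, hc', hP, hg => by
    have hn := Pool.Agent.Q237.FAL.ncl_up V.P.ty n V.P.p h.1
    have hw : ncl V.P.ty + 1 = wd V.P.ty := by cases V.P.ty <;> rfl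
    have hDl : (V :: D).length = D.length + 1 := rfl
    have hcl0 := clo_len D _ n' h.2 (fun _ _ => (0 : ℝ)) (0, List.replicate (up V.P.ty n + 1) 0)
      (by simp)
    obtain ⟨γ, g', rfl, hγ⟩ : ∃ γ g', g = γ ++ g' ∧ γ.length = ncl V.P.ty :=
      ⟨g.take (ncl V.P.ty), g.drop (ncl V.P.ty), (List.take_append_drop _ _).symm, by
        rw [List.length_take]; omega⟩
    rw [List.length_append] at hg
    obtain ⟨c1, hc1, hP1, hd1⟩ := dual_D D _ n' h.2 c' g' hc' hP (by omega)
    obtain ⟨A, x, M, y, B, -, -, -, -, c, hc, hPc, -, hd⟩ := dual_vx V n h.1 c1 γ hc1 hP1 (by omega)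
    refine ⟨c, hc, hPc, fun z hz => ?_⟩
    rw [← hd z hz, ← hd1 (vst V (fun _ => 0) z) (vst_len V _ z n h.1 hz)]
    show dot c' (fin D (fun _ _ => 0) (vst V (fun _ => 0) z)).2 + dot (γ ++ g')
      (vcl V (fun _ => 0) z ++ clo D (fun _ _ => 0) (vst V (fun _ => 0) z)) = _
    rw [dot_append (by rw [hγ, vcl_len V _ z n h.1 hz])]
    ring

/-! ### colourings -/

/-- a colouring: all corners of a vertex have the same colour -/
def Col : (D : List Vx) → (Fin D.length → ℝ) → List ℝ → List ℝ → Prop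
  | [], _, c, c' => c = c'
  | V :: D, φ, c, c' => Per c ∧ ∃ A B, A.length = V.P.p ∧
      (rotc V.b)^[V.r] c = A ++ (List.replicate (wd V.P.ty + 1) (φ 0) ++ B) ∧
      Col D (fun k => φ k.succ) (A ++ (List.replicate (ud V.P.ty + 1) (φ 0) ++ B)) c'

/-- a functional on the gaps: only the regions which end at a vertex have its colour -/
def DC : (D : List Vx) → (Fin D.length → ℝ) → List ℝ → List ℝ → Prop
  | [], _, c, c' => c = c'
  | V :: D, φ, c, c' => Per c ∧ ∃ A x M y B, A.length = V.P.p ∧ M.length + 1 = ud V.P.ty ∧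
      (rotc V.b)^[V.r] c = A ++ x :: (List.replicate (wd V.P.ty - 1) (φ 0) ++ y :: B) ∧
      DC D (fun k => φ k.succ) (A ++ x :: (M ++ y :: B)) c'

/-- the sum of the regions which end, with the colours -/
def Kc : (D : List Vx) → (Fin D.length → ℝ) → ℝ × List ℝ → ℝ
  | [], _, _ => 0
  | V :: D, φ, z => φ 0 * (vcl V (fun _ => 0) z).sum +
      Kc D (fun k => φ k.succ) (vst V (fun _ => 0) z)

lemma DC_dot : ∀ (D : List Vx) (n n' : ℕ), Val D n n' → ∀ (φ : Fin D.length → ℝ) (c c' : List ℝ),
    DC D φ c c' → c.length = n + 1 → ∀ z : ℝ × List ℝ, z.2.length = n + 1 →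
    dot c' (fin D (fun _ _ => 0) z).2 + Kc D φ z = dot c z.2
  | [], n, n', h, φ, c, c', hd, hc, z, hz => by
    have hd' : c = c' := hd
    subst hd'
    show dot c z.2 + 0 = _
    rw [add_zero]
  | V :: D, n, n', h, φ, c, c', hd, hc, z, hz => by
    obtain ⟨hP, A, x, M, y, B, hA, hM, hr, hD⟩ := hd
    have hl := rotcs_len V.b V.r c hP
    rw [hr, hc] at hl
    have hw := wd_pos V.P.ty
    simp only [List.length_append, List.length_cons, List.length_replicate] at hl
    have h1 := h.1
    have hup := up_ud V.P.ty n (by omega)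
    have ih := DC_dot D _ n' h.2 (fun k => φ k.succ) _ c' hD (by simp; omega)
      (vst V (fun _ => 0) z) (vst_len V _ z n h.1 hz)
    have e1 := rotcs_dot V.b V.r c hP z (by rw [hz, hc])
    rw [hr] at e1
    obtain ⟨j, rfl⟩ : ∃ j, n = j + 1 := ⟨n - 1, by omega⟩
    have hrl := rots_len V.b V.r z j hz
    have e2 := vdot V.P.ty A M B (List.replicate (wd V.P.ty - 1) (φ 0)) x y hM (by simp; omega)
      ((rot V.b)^[V.r] z).2 (by rw [hrl]; omega)
    rw [e1, hA] at e2
    have e3 : (vst V (fun _ => (0 : ℝ)) z).2 =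
        stp V.P.ty V.P.p (fun _ => 0) ((rot V.b)^[V.r] z).2 := by
      unfold vst
      rw [cor_zero]
    have e4 : vcl V (fun _ => (0 : ℝ)) z =
        cls V.P.ty V.P.p (fun _ => 0) ((rot V.b)^[V.r] z).2 := by
      unfold vcl
      rw [cor_zero]
    have e5 : (vcl V (fun _ => (0 : ℝ)) z).length = wd V.P.ty - 1 := by
      rw [vcl_len V _ z (j + 1) h.1 hz]
      cases V.P.ty <;> rfl
    rw [← e3, ← e4, dot_repl _ _ _ e5, ← ih] at e2
    show dot c' (fin D (fun _ _ => 0) (vst V (fun _ => 0) z)).2 +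
      (φ 0 * (vcl V (fun _ => 0) z).sum + Kc D (fun k => φ k.succ) (vst V (fun _ => 0) z)) = _
    linarith

lemma prev_rep (A B : List ℝ) (φ : ℝ) (w : ℕ) :
    rotc false (A ++ (List.replicate (w + 2) φ ++ B)) =
      ((φ :: (φ :: B).dropLast).getLastD 0) :: (A ++ (List.replicate (w + 1) φ ++
        (φ :: B).dropLast)) := by
  have e1 : A ++ (List.replicate (w + 2) φ ++ B) =
      (A ++ List.replicate (w + 1) φ) ++ (φ :: B) := by
    rw [List.replicate_succ' (n := w + 1)]
    simp
  have e2 : (A ++ (List.replicate (w + 2) φ ++ B)).dropLast =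
      (A ++ List.replicate (w + 1) φ) ++ (φ :: B).dropLast := by
    rw [e1, List.dropLast_append_of_ne_nil (by simp)]
  have e3 : (A ++ List.replicate (w + 1) φ) ++ (φ :: B).dropLast =
      (A ++ List.replicate w φ) ++ φ :: (φ :: B).dropLast := by
    rw [List.replicate_succ']
    simp
  unfold rotc
  rw [if_neg (by simp), e2]
  congr 1
  · rw [e3, last_app]
  · simp

lemma DC_prev : ∀ (D : List Vx) (φ : Fin D.length → ℝ) (c c' : List ℝ), Col D φ c c' →
    DC D φ (rotc false c) (rotc false c')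
  | [], φ, c, c', h => by
    have h' : c = c' := h
    subst h'
    exact rfl
  | V :: D, φ, c, c', ⟨hP, A, B, hA, hr, hD⟩ => by
    have ih := DC_prev D _ _ c' hD
    refine ⟨rotc_per _ _ hP, ?_⟩
    obtain ⟨w, hw⟩ : ∃ w, wd V.P.ty = w + 1 := ⟨wd V.P.ty - 1, by
      have := wd_pos V.P.ty; omega⟩
    obtain ⟨u, hu⟩ : ∃ u, ud V.P.ty = u + 1 := ⟨ud V.P.ty - 1, by
      have := ud_pos V.P.ty; omega⟩
    rw [hw] at hr
    rw [hu] at ih
    rw [prev_rep] at ih
    obtain ⟨κ, hκ⟩ : ∃ κ, κ = (φ 0 :: (φ 0 :: B).dropLast).getLastD 0 := ⟨_, rfl⟩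
    rw [← hκ] at ih
    obtain ⟨A', x, hAx⟩ : ∃ A' x, κ :: A = A' ++ [x] := by
      rcases List.eq_nil_or_concat (κ :: A) with h | ⟨K, l, h⟩
      · simp at h
      · exact ⟨K, l, by rw [h, List.concat_eq_append]⟩
    have hA' : A'.length = V.P.p := by
      have := congrArg List.length hAx
      simp at this
      omega
    refine ⟨A', x, List.replicate u (φ 0), φ 0, (φ 0 :: B).dropLast, hA', by simp [hu], ?_, ?_⟩
    · rw [rotcs_comm _ _ _ hP, hr, prev_rep, ← hκ, hw, Nat.add_sub_cancel]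
      have e : κ :: (A ++ (List.replicate (w + 1) (φ 0) ++ (φ 0 :: B).dropLast)) =
          (κ :: A) ++ (List.replicate (w + 1) (φ 0) ++ (φ 0 :: B).dropLast) := by simp
      rw [e, hAx, List.replicate_succ']
      simp
    · have e : A' ++ x :: (List.replicate u (φ 0) ++ φ 0 :: (φ 0 :: B).dropLast) =
          κ :: (A ++ (List.replicate (u + 1) (φ 0) ++ (φ 0 :: B).dropLast)) := by
        have e' : κ :: (A ++ (List.replicate (u + 1) (φ 0) ++ (φ 0 :: B).dropLast)) =
          (κ :: A) ++ (List.replicate (u + 1) (φ 0) ++ (φ 0 :: B).dropLast) := by simp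
        rw [e', hAx, List.replicate_succ']
        simp
      rw [e]
      exact ih

lemma Col.DC : ∀ (D : List Vx) (φ : Fin D.length → ℝ) (c c' : List ℝ), Col D φ c c' →
    DC D φ c c'
  | [], φ, c, c', h => h
  | V :: D, φ, c, c', ⟨hP, A, B, hA, hr, hD⟩ => by
    have ih := Col.DC D _ _ c' hD
    obtain ⟨w, hw⟩ : ∃ w, wd V.P.ty = w + 1 := ⟨wd V.P.ty - 1, by
      have := wd_pos V.P.ty; omega⟩
    obtain ⟨u, hu⟩ : ∃ u, ud V.P.ty = u + 1 := ⟨ud V.P.ty - 1, by
      have := ud_pos V.P.ty; omega⟩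
    refine ⟨hP, A, φ 0, List.replicate u (φ 0), φ 0, B, hA, by simp [hu], ?_, ?_⟩
    · rw [hr, hw, List.replicate_succ' (n := w + 1), Nat.add_sub_cancel, List.replicate_succ]
      simp
    · rw [hu, List.replicate_succ' (n := u + 1), List.replicate_succ] at ih
      simpa using ih

end Pool.Agent.H760.TT
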