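import Pool.Agent.H760.TT.Conn
import Pool.Graph.R_pool_sql_team_seeded_3997aac3.Q299.FAL.LB

/-!
# Fully augmented links in the thickened torus, part 14: the rank of the lattice
-/

set_option autoImplicit false

namespace Pool.Agent.H760.TT

open Finset
open Pool.Agent.Q99.FAL
open Pool.Agent.Q237.FAL (mid ccl dec stp_eq cls_eq mid_len)

/-! ### zeros -/

section zero
variable {R : Type} [AddCommGroup R]

lemma map_z (l : List R) : l.map (0 : R →+ R) = List.replicate l.length 0 := by
  induction l with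
  | nil => rfl
  | cons x l ih => rw [List.map_cons, ih, List.length_cons, List.replicate_succ]; rfl

lemma rots_zero (b : Bool) (r n : ℕ) : (rot b)^[r] ((0 : R), List.replicate (n + 2) 0) =
    (0, List.replicate (n + 2) 0) := by
  have h := rots_map (0 : R →+ R) b r (0, List.replicate (n + 2) 0)
  have e : sm (0 : R →+ R) ((0 : R), List.replicate (n + 2) 0) = (0, List.replicate (n + 2) 0) := by
    unfold sm
    simp only
    rw [map_z, List.length_replicate]
    rfl
  rw [e] at h
  rw [h]
  unfold sm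
  rw [map_z, rots_len b r _ n (by simp)]
  rfl

lemma vst_zero (V : Vx) (n : ℕ) (h : V.P.p + wd V.P.ty ≤ n) :
    vst V (fun _ => 0) ((0 : R), List.replicate (n + 1) 0) =
      (0, List.replicate (up V.P.ty n + 1) 0) := by
  have h1 := vst_map (0 : R →+ R) V (fun _ => 0) (0, List.replicate (n + 1) 0)
  have e : sm (0 : R →+ R) ((0 : R), List.replicate (n + 1) 0) = (0, List.replicate (n + 1) 0) := by
    unfold sm
    simp only
    rw [map_z, List.length_replicate]
    rfl
  rw [e] at h1
  have h2 : vst V (fun _ => 0) ((0 : R), List.replicate (n + 1) 0) =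
      vst V (fun i => (0 : R →+ R) ((fun _ => (0 : R)) i)) ((0 : R), List.replicate (n + 1) 0) := rfl
  rw [h2, h1]
  unfold sm
  rw [map_z, vst_len V _ _ n h (by simp)]
  rfl

lemma vcl_zero (V : Vx) (n : ℕ) (h : V.P.p + wd V.P.ty ≤ n) :
    vcl V (fun _ => 0) ((0 : R), List.replicate (n + 1) 0) =
      List.replicate (ncl V.P.ty) 0 := by
  have h1 := vcl_map (0 : R →+ R) V (fun _ => 0) (0, List.replicate (n + 1) 0)
  have e : sm (0 : R →+ R) ((0 : R), List.replicate (n + 1) 0) = (0, List.replicate (n + 1) 0) := by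
    unfold sm
    simp only
    rw [map_z, List.length_replicate]
    rfl
  rw [e] at h1
  have h2 : vcl V (fun _ => 0) ((0 : R), List.replicate (n + 1) 0) =
      vcl V (fun i => (0 : R →+ R) ((fun _ => (0 : R)) i)) ((0 : R), List.replicate (n + 1) 0) := rfl
  rw [h2, h1, map_z, vcl_len V _ _ n h (by simp)]

lemma clo_zero (D : List Vx) (n : ℕ) :
    ∃ j, clo D (fun _ _ => 0) ((0 : R), List.replicate n 0) = List.replicate j 0 := by
  have h1 := clo_map (0 : R →+ R) D (fun _ _ => 0) (0, List.replicate n 0)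
  have e : sm (0 : R →+ R) ((0 : R), List.replicate n 0) = (0, List.replicate n 0) := by
    unfold sm
    simp only
    rw [map_z, List.length_replicate]
    rfl
  rw [e] at h1
  have h2 : clo D (fun _ _ => 0) ((0 : R), List.replicate n 0) =
      clo D (fun b i => (0 : R →+ R) ((fun _ _ => (0 : R)) b i)) ((0 : R), List.replicate n 0) := rfl
  rw [h2, h1, map_z]
  exact ⟨_, rfl⟩

end zero

variable {D : List Vx} {k m : ℕ}

lemma nrm_dot (c G : List ℝ) (h : Per c) (hG : G.length = c.length) :
    dot c (nrm G) = dot c G := by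
  obtain ⟨x, M, rfl⟩ := h
  obtain ⟨x', M', y', rfl, hM⟩ := exists_ends (n := M.length) (by simpa using hG)
  rw [nrm_eq, dot_cons, dot_cons, dot_append hM.symm, dot_append hM.symm, dot_cons, dot_cons,
    dot_nil]
  ring

lemma shift_const : ∀ (L : List ℝ) (a b : ℝ), L ++ [a] = b :: L →
    L ++ [a] = List.replicate (L.length + 1) b
  | [], a, b, h => by
    have : a = b := by simpa using h
    simp [this]
  | x :: L, a, b, h => by
    rw [List.cons_append, List.cons.injEq] at h
    obtain ⟨rfl, h2⟩ := h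
    have := shift_const L a x h2
    rw [List.cons_append, this, List.length_cons, List.replicate_succ (n := L.length + 1)]

/-- a periodic colouring is constant -/
lemma const_of (h : Val D (m + 1) (m + 1)) (hC : Cell D m k) (φ : Fin D.length → ℝ) (c : List ℝ)
    (hl : c.length = m + 2) (hP : Per c) (hc : Col D φ c c) :
    ∃ l, c = List.replicate (m + 2) l := by
  have hP2 := rotc_per false c hP
  have hl2 := rotc_len false c hP
  have h1 := DC_dot D _ _ h φ c c (Col.DC D φ c c hc) hl
  have h2 := DC_dot D _ _ h φ _ _ (DC_prev D φ c c hc) (hl2.trans hl)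
  have h3 : ∀ G : List ℝ, G.length = m + 2 →
      dot c (turn D (fun _ _ => 0) G) - dot (rotc false c) (turn D (fun _ _ => 0) G) =
      dot c G - dot (rotc false c) G := by
    intro G hG
    have hf := fin_len D (m + 1) (m + 1) h (fun _ _ => (0 : ℝ)) (0, G) hG
    have k1 := h1 (0, G) hG
    have k2 := h2 (0, G) hG
    unfold turn
    rw [nrm_dot c _ hP (hf.trans hl.symm), nrm_dot _ _ hP2 (hf.trans (hl2.trans hl).symm)]
    simp only at k1 k2
    linarith
  have h4 : ∀ (i : ℕ) (G : List ℝ), G.length = m + 2 →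
      dot c ((turn D (fun _ _ => 0))^[i] G) - dot (rotc false c) ((turn D (fun _ _ => 0))^[i] G) =
      dot c G - dot (rotc false c) G := by
    intro i
    induction i with
    | zero => intro G _; rfl
    | succ i ih =>
      intro G hG
      rw [Function.iterate_succ_apply, ih _ (turn_len h _ G hG), h3 G hG]
  have h5 : c = rotc false c := by
    refine dot_ext _ _ hl2.symm fun G hG => ?_
    have := h4 k G (hG.trans hl)
    rw [hC G (hG.trans hl), dot_zero, dot_zero] at this
    linarith
  obtain ⟨x, M, rfl⟩ := hP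
  rw [rotc_false] at h5
  have h6 : (x :: M) ++ [x] = ((x :: M).getLastD 0) :: (x :: M) := by
    rw [← h5]
    rfl
  have h7 := shift_const _ _ _ h6
  refine ⟨(x :: M).getLastD 0, ?_⟩
  rw [← List.cons_append, h7]
  congr 1
  simpa using hl

lemma rotcs_const (b : Bool) (r n : ℕ) (l : ℝ) :
    (rotc b)^[r] (List.replicate (n + 2) l) = List.replicate (n + 2) l := by
  induction r with
  | zero => rfl
  | succ r ih =>
    rw [Function.iterate_succ_apply', ih]
    cases b
    · unfold rotc
      have e : n + 2 - 1 = n + 1 := rfl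
      rw [if_neg (by simp), List.dropLast_replicate, e]
      have : (List.replicate (n + 1) l).getLastD 0 = l := by
        rw [List.replicate_succ', List.getLastD_concat]
      rw [this, ← List.replicate_succ]
    · unfold rotc
      have e : n + 2 - 1 = n + 1 := rfl
      rw [if_pos rfl, List.tail_replicate, e]
      have : (List.replicate (n + 1) l).headD 0 = l := rfl
      rw [this, ← List.replicate_succ']

/-- constant colours propagate -/
lemma const_up : ∀ (D : List Vx) (n n' : ℕ), Val D n n' → ∀ (φ : Fin D.length → ℝ) (l : ℝ)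
    (c' : List ℝ), Col D φ (List.replicate (n + 1) l) c' → ∀ b, φ b = l
  | [], _, _, _, _, _, _, _, b => b.elim0
  | V :: D, n, n', h, φ, l, c', ⟨_, A, B, hA, hr, hD⟩, b => by
    have hw := wd_pos V.P.ty
    have h1 := h.1
    obtain ⟨j, rfl⟩ : ∃ j, n = j + 1 := ⟨n - 1, by omega⟩
    rw [rotcs_const] at hr
    have hup := up_ud V.P.ty (j + 1) (by omega)
    have hlen := congrArg List.length hr
    simp only [List.length_append, List.length_replicate] at hlen
    have hall : ∀ y ∈ A ++ (List.replicate (wd V.P.ty + 1) (φ 0) ++ B), y = l := by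
      intro y hy
      rw [← hr] at hy
      exact List.eq_of_mem_replicate hy
    have hφ : φ 0 = l := hall _ (by simp)
    have hc1 : A ++ (List.replicate (ud V.P.ty + 1) (φ 0) ++ B) =
        List.replicate (up V.P.ty (j + 1) + 1) l := by
      rw [List.eq_replicate_iff]
      refine ⟨by simp; omega, fun y hy => ?_⟩
      rw [List.mem_append, List.mem_append] at hy
      rcases hy with hy | hy | hy
      · exact hall y (by simp [hy])
      · rw [List.eq_of_mem_replicate hy, hφ]
      · exact hall y (by simp [hy])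
    rw [hc1] at hD
    have ih := const_up D _ n' h.2 (fun k => φ k.succ) l c' hD
    refine Fin.cases hφ (fun b => ih b) b

/-! ### existence -/

lemma exists_per (h : Val D (m + 1) (m + 1)) (hC : Cell D m k) (g : List ℝ)
    (hg : g.length = D.length) : ∃ c : List ℝ, c.length = m + 2 ∧ Per c ∧
      ∀ z : ℝ × List ℝ, z.2.length = m + 2 →
        dot c (fin D (fun _ _ => 0) z).2 + dot g (clo D (fun _ _ => 0) z) = dot c z.2 := by
  have step : ∀ i : ℕ, ∃ c : List ℝ, c.length = m + 2 ∧ Per c ∧ ∀ G : List ℝ, G.length = m + 2 →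
      dot c G = ∑ j ∈ range i, dot g (clo D (fun _ _ => 0)
        (0, (turn D (fun _ _ => 0))^[j] G)) := by
    intro i
    induction i with
    | zero =>
      refine ⟨List.replicate (m + 2) 0, by simp, ⟨0, List.replicate m 0, ?_⟩, fun G hG => ?_⟩
      · rw [← List.replicate_succ', ← List.replicate_succ]
      · rw [dot_repl 0 G _ hG, zero_mul, sum_range_zero]
    | succ i ih =>
      obtain ⟨c, hc, hP, hd⟩ := ih
      obtain ⟨c', hc', hP', hd'⟩ := dual_D D _ _ h c g hc hP (by omega)
      refine ⟨c', hc', hP', fun G hG => ?_⟩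
      have hf := fin_len D (m + 1) (m + 1) h (fun _ _ => (0 : ℝ)) (0, G) hG
      rw [← hd' (0, G) hG, ← nrm_dot c _ hP (hf.trans hc.symm)]
      have e : nrm (fin D (fun _ _ => (0 : ℝ)) (0, G)).2 = turn D (fun _ _ => 0) G := rfl
      rw [e, hd _ (turn_len h _ G hG), sum_range_succ']
      rfl
  obtain ⟨c, hc, hP, hd⟩ := step k
  obtain ⟨c', hc', hP', hd'⟩ := dual_D D _ _ h c g hc hP (by omega)
  have hcc : c' = c := by
    refine dot_ext _ _ (hc'.trans hc.symm) fun G hG => ?_
    have hG' := hG.trans hc'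
    have hf := fin_len D (m + 1) (m + 1) h (fun _ _ => (0 : ℝ)) (0, G) hG'
    rw [← hd' (0, G) hG', ← nrm_dot c _ hP (hf.trans hc.symm)]
    have e : nrm (fin D (fun _ _ => (0 : ℝ)) (0, G)).2 = turn D (fun _ _ => 0) G := rfl
    rw [e, hd _ (turn_len h _ G hG'), hd G hG']
    have e2 : ∑ j ∈ range k, dot g (clo D (fun _ _ => 0)
        (0, (turn D (fun _ _ => 0))^[j] (turn D (fun _ _ => 0) G))) +
        dot g (clo D (fun _ _ => 0) (0, G)) = ∑ j ∈ range (k + 1), dot g (clo D (fun _ _ => 0)
        (0, (turn D (fun _ _ => 0))^[j] G)) := by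
      rw [sum_range_succ']
      rfl
    refine e2.trans ?_
    obtain ⟨j, hj⟩ := clo_zero (R := ℝ) D (m + 2)
    rw [sum_range_succ, hC G hG', hj, dot_zero, add_zero]
  rw [hcc] at hd'
  exact ⟨c, hc, hP, hd'⟩

/-- the corners of one vertex -/
lemma corner (T : Ty) (M γ : List ℝ) (x y φ : ℝ) (hM : M.length + 1 = ud T)
    (hγ : γ.length + 1 = wd T)
    (h : ∀ z : Fin 6 → ℝ, x * cor z (lc T) + (dot M (mid T (cor z)) + y * cor z (Pool.Agent.Q99.FAL.rc T)) +
      dot γ (ccl T (cor z) (List.replicate (wd T - 1) 0)) = φ * (n1 z + n2 z)) :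
    x = φ ∧ y = φ ∧ M = List.replicate (ud T - 1) φ ∧ γ = List.replicate (wd T - 1) φ := by
  have h0 := h (Pi.single 0 1)
  have h1 := h (Pi.single 1 1)
  have h2 := h (Pi.single 2 1)
  have h3 := h (Pi.single 3 1)
  clear h
  cases T <;> simp only [ud, wd] at hM hγ <;>
    rcases M with _ | ⟨u, _ | ⟨v, _ | ⟨w, M⟩⟩⟩ <;>
    rcases γ with _ | ⟨a, _ | ⟨b, _ | ⟨c, γ⟩⟩⟩ <;>
    simp [lc, Pool.Agent.Q99.FAL.rc, mid, ccl, cor, n1, n2, dot, Pi.single_apply, ud, wd] at * <;>
    simp_all

lemma zeros_split (p w b : ℕ) (hw : 1 ≤ w) : List.replicate (p + w + b + 1) (0 : ℝ) =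
    List.replicate p 0 ++ 0 :: (List.replicate (w - 1) 0 ++ 0 :: List.replicate b 0) := by
  obtain ⟨w, rfl⟩ : ∃ w', w = w' + 1 := ⟨w - 1, by omega⟩
  rw [Nat.add_sub_cancel]
  symm
  rw [List.eq_replicate_iff]
  refine ⟨by simp; omega, fun y hy => ?_⟩
  simp only [List.mem_append, List.mem_cons, List.mem_replicate] at hy
  tauto

lemma stp_zeros (T : Ty) (q : Fin 4 → ℝ) (p b : ℕ) :
    stp T p q (List.replicate p 0 ++ 0 :: (List.replicate (wd T - 1) 0 ++
      0 :: List.replicate b 0)) = List.replicate p 0 ++ (0 + q (lc T)) :: (mid T q ++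
      (0 + q (Pool.Agent.Q99.FAL.rc T)) :: List.replicate b 0) := by
  have hw := wd_pos T
  have h := stp_eq T q (List.replicate p 0) 0 (List.replicate (wd T - 1) 0) 0
    (List.replicate b 0) (by rw [List.length_replicate]; omega)
  rw [List.length_replicate] at h
  exact h

lemma cls_zeros (T : Ty) (q : Fin 4 → ℝ) (p b : ℕ) :
    cls T p q (List.replicate p 0 ++ 0 :: (List.replicate (wd T - 1) 0 ++
      0 :: List.replicate b 0)) = ccl T q (List.replicate (wd T - 1) 0) := by
  have hw := wd_pos T
  have h := cls_eq T q (List.replicate p 0) 0 (List.replicate (wd T - 1) 0) 0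
    (List.replicate b 0) (by rw [List.length_replicate]; omega)
  rw [List.length_replicate] at h
  exact h

/-- the colouring of a functional -/
lemma Col_of : ∀ (D : List Vx) (n n' : ℕ), Val D n n' → ∀ (φ : Fin D.length → ℝ)
    (c c' g : List ℝ), c'.length = n' + 1 → Per c' → c.length = n + 1 →
    2 * g.length + n' = 2 * D.length + n →
    (∀ z : ℝ × List ℝ, z.2.length = n + 1 → dot c' (fin D (fun _ _ => 0) z).2 +
      dot g (clo D (fun _ _ => 0) z) = dot c z.2) →
    (∀ x : Fin D.length → Fin 6 → ℝ, dot c' (fin D x (0, List.replicate (n + 1) 0)).2 +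
      dot g (clo D x (0, List.replicate (n + 1) 0)) = ∑ b, φ b * (n1 (x b) + n2 (x b))) →
    Col D φ c c'
  | [], n, n', h, φ, c, c', g, hc', hP, hc, hg, hd, hx => by
    have h' : n = n' := h
    subst h'
    have hg0 : g = [] := by
      apply List.length_eq_zero_iff.1
      simp only [List.length_nil] at hg
      omega
    subst hg0
    refine dot_ext _ _ (hc.trans hc'.symm) fun G hG => ?_
    have := hd (0, G) (hG.trans hc)
    rw [dot_nil, add_zero] at this
    exact this.symm
  | V :: D, n, n', h, φ, c, c', g, hc', hP, hc, hg, hd, hx => by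
    have hn := Pool.Agent.Q237.FAL.ncl_up V.P.ty n V.P.p h.1
    have hw : ncl V.P.ty + 1 = wd V.P.ty := by cases V.P.ty <;> rfl
    have hDl : (V :: D).length = D.length + 1 := rfl
    have hcl0 := clo_len D _ n' h.2 (fun _ _ => (0 : ℝ)) (0, List.replicate (up V.P.ty n + 1) 0)
      (by simp)
    obtain ⟨γ, g', rfl, hγ⟩ : ∃ γ g', g = γ ++ g' ∧ γ.length = ncl V.P.ty :=
      ⟨g.take (ncl V.P.ty), g.drop (ncl V.P.ty), (List.take_append_drop _ _).symm, by
        rw [List.length_take]; omega⟩
    rw [List.length_append] at hg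
    obtain ⟨c1, hc1, hP1, hd1⟩ := dual_D D _ n' h.2 c' g' hc' hP (by omega)
    obtain ⟨A, x, M, y, B, hA, hM, hB, rfl, c2, hc2, hPc, hr, hd2⟩ :=
      dual_vx V n h.1 c1 γ hc1 hP1 (by omega)
    -- the value of the functional on a vertex
    have hval : ∀ (u : Fin 6 → ℝ) (z : ℝ × List ℝ), z.2.length = n + 1 →
        dot c' (fin D (fun _ _ => 0) (vst V u z)).2 + dot (γ ++ g')
          (vcl V u z ++ clo D (fun _ _ => 0) (vst V u z)) =
        dot (A ++ x :: (M ++ y :: B)) (vst V u z).2 + dot γ (vcl V u z) := by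
      intro u z hz
      rw [dot_append (by rw [hγ, vcl_len V _ z n h.1 hz]),
        ← hd1 (vst V u z) (vst_len V _ z n h.1 hz)]
      ring
    have hcc : c = c2 := by
      refine dot_ext _ _ (hc.trans hc2.symm) fun G hG => ?_
      have hG' := hG.trans hc
      have e1 := hd (0, G) hG'
      have e2 := hval (fun _ => 0) (0, G) hG'
      have e3 := hd2 (0, G) hG'
      rw [e3] at e2
      exact e1.symm.trans e2
    subst hcc
    have hwp := wd_pos V.P.ty
    have hn1 : 1 ≤ n := by have := h.1; omega
    obtain ⟨j, rfl⟩ : ∃ j, n = j + 1 := ⟨n - 1, by omega⟩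
    -- the corners
    have hcor : ∀ u : Fin 6 → ℝ, x * cor u (lc V.P.ty) +
        (dot M (mid V.P.ty (cor u)) + y * cor u (Pool.Agent.Q99.FAL.rc V.P.ty)) +
        dot γ (ccl V.P.ty (cor u) (List.replicate (wd V.P.ty - 1) 0)) =
        φ 0 * (n1 u + n2 u) := by
      intro u
      have e1 := hx (Fin.cons u fun _ _ => 0)
      have e2 : ∑ b : Fin (V :: D).length, φ b * (n1 ((Fin.cons u (fun _ _ => 0) :
          Fin (D.length + 1) → Fin 6 → ℝ) b) + n2 ((Fin.cons u (fun _ _ => 0) :
          Fin (D.length + 1) → Fin 6 → ℝ) b)) = φ 0 * (n1 u + n2 u) := by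
        refine (Fin.sum_univ_succ _).trans ?_
        have e0 : ∀ b : Fin D.length, φ b.succ * (n1 ((Fin.cons u (fun _ _ => 0) :
          Fin (D.length + 1) → Fin 6 → ℝ) b.succ) + n2 ((Fin.cons u (fun _ _ => 0) :
          Fin (D.length + 1) → Fin 6 → ℝ) b.succ)) = 0 := by
          intro b
          rw [Fin.cons_succ]
          simp [n1, n2]
        rw [Finset.sum_eq_zero fun b _ => e0 b, add_zero]
        rfl
      rw [e2] at e1
      have e3 := hval u (0, List.replicate (j + 1 + 1) 0) (by simp)
      have e4 : dot c' (fin (V :: D) (Fin.cons u fun _ _ => 0)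
          (0, List.replicate (j + 1 + 1) 0)).2 + dot (γ ++ g') (clo (V :: D)
          (Fin.cons u fun _ _ => 0) (0, List.replicate (j + 1 + 1) 0)) = _ := e3
      rw [e4] at e1
      rw [← e1]
      have hz := zeros_split A.length (wd V.P.ty) B.length hwp
      rw [hB] at hz
      unfold vst vcl
      simp only
      rw [rots_zero, ← hA]
      simp only
      rw [hz, stp_zeros, cls_zeros, dot_append (by simp), dot_cons, dot_append (by
          have := mid_ud V.P.ty (cor u)
          omega), dot_cons, dot_zero, dot_zero]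
      ring
    obtain ⟨q1, q2, q3, q4⟩ := corner V.P.ty M γ x y (φ 0) hM (by omega) hcor
    refine ⟨hPc, A, B, hA, ?_, ?_⟩
    · rw [hr, q1, q2, q4]
      obtain ⟨w, hw'⟩ : ∃ w, wd V.P.ty = w + 1 := ⟨wd V.P.ty - 1, by omega⟩
      rw [hw', List.replicate_succ' (n := w + 1), Nat.add_sub_cancel, List.replicate_succ]
      simp
    · have hu := ud_pos V.P.ty
      have e5 : A ++ (List.replicate (ud V.P.ty + 1) (φ 0) ++ B) = A ++ x :: (M ++ y :: B) := by
        rw [q1, q2, q3]
        obtain ⟨w, hw'⟩ : ∃ w, ud V.P.ty = w + 1 := ⟨ud V.P.ty - 1, by omega⟩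
        rw [hw', List.replicate_succ' (n := w + 1), Nat.add_sub_cancel, List.replicate_succ]
        simp
      rw [e5]
      refine Col_of D _ n' h.2 (fun k => φ k.succ) _ c' g' hc' hP hc1 (by omega) hd1 ?_
      intro x'
      have e1 := hx (Fin.cons (fun _ => 0) x')
      have e2 : ∑ b : Fin (V :: D).length, φ b * (n1 ((Fin.cons (fun _ => 0) x' :
          Fin (D.length + 1) → Fin 6 → ℝ) b) + n2 ((Fin.cons (fun _ => 0) x' :
          Fin (D.length + 1) → Fin 6 → ℝ) b)) =
          ∑ b : Fin D.length, φ b.succ * (n1 (x' b) + n2 (x' b)) := by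
        refine (Fin.sum_univ_succ _).trans ?_
        have e0 : φ 0 * (n1 ((Fin.cons (fun _ => 0) x' :
          Fin (D.length + 1) → Fin 6 → ℝ) 0) + n2 ((Fin.cons (fun _ => 0) x' :
          Fin (D.length + 1) → Fin 6 → ℝ) 0)) = 0 := by
          rw [Fin.cons_zero]
          simp [n1, n2]
        refine Eq.trans (congrArg₂ (· + ·) e0 rfl) ?_
        rw [zero_add]
        rfl
      rw [e2] at e1
      rw [← e1]
      show _ = dot c' (fin D x' (vst V (fun _ => 0) (0, List.replicate (j + 1 + 1) 0))).2 +
        dot (γ ++ g') (vcl V (fun _ => 0) (0, List.replicate (j + 1 + 1) 0) ++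
        clo D x' (vst V (fun _ => 0) (0, List.replicate (j + 1 + 1) 0)))
      rw [vst_zero V _ h.1, vcl_zero V _ h.1, dot_append (by simp [hγ]), dot_zero]
      ring

end Pool.Agent.H760.TT
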