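import Pool.Agent.H760.TT.Rank
import Pool.Agent.H760.TT.NETQ

/-!
# Fully augmented links in the thickened torus, part 16: the radii of the circles
-/

set_option autoImplicit false

namespace Pool.Agent.H760.TT

open Finset
open Pool.Agent.Q99.FAL
open Pool.Agent.Q237.FAL (mid ccl dec stp_eq cls_eq mid_len)

/-- the values of the corners in the regions below a vertex -/
def low {R : Type} (T : Ty) (q : Fin 4 → R) : List R :=
  match T with
  | .V => [q 0]
  | .H => [q 3]
  | .YL => []
  | .YR => []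
  | .LL => [q 0, q 1]
  | .LR => [q 3, q 0]

/-- a colouring with the colours `κ` of the corners -/
def CK : (D : List Vx) → (Fin D.length → Fin 4 → ℝ) → List ℝ → List ℝ → Prop
  | [], _, c, c' => c = c'
  | V :: D, κ, c, c' => Per c ∧ ∃ A B, A.length = V.P.p ∧
      (rotc V.b)^[V.r] c = A ++ κ 0 (lc V.P.ty) :: (low V.P.ty (κ 0) ++
        κ 0 (Pool.Agent.Q99.FAL.rc V.P.ty) :: B) ∧
      CK D (fun k => κ k.succ) (A ++ κ 0 (lc V.P.ty) :: (mid V.P.ty (κ 0) ++
        κ 0 (Pool.Agent.Q99.FAL.rc V.P.ty) :: B)) c'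

/-- the corners of one vertex -/
lemma corner' (T : Ty) (M γ : List ℝ) (x y : ℝ) (κ : Fin 4 → ℝ) (hM : M.length + 1 = ud T)
    (hγ : γ.length + 1 = wd T)
    (h : ∀ z : Fin 6 → ℝ, x * cor z (lc T) + (dot M (mid T (cor z)) +
      y * cor z (Pool.Agent.Q99.FAL.rc T)) +
      dot γ (ccl T (cor z) (List.replicate (wd T - 1) 0)) = ∑ q, κ q * cor z q) :
    x = κ (lc T) ∧ y = κ (Pool.Agent.Q99.FAL.rc T) ∧ M = mid T κ ∧ γ = low T κ := by
  have h0 := h (Pi.single 0 1)
  have h1 := h (Pi.single 1 1)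
  have h2 := h (Pi.single 2 1)
  have h3 := h (Pi.single 3 1)
  clear h
  cases T <;> simp only [ud, wd] at hM hγ <;>
    rcases M with _ | ⟨u, _ | ⟨v, _ | ⟨w, M⟩⟩⟩ <;>
    rcases γ with _ | ⟨a, _ | ⟨b, _ | ⟨c, γ⟩⟩⟩ <;>
    simp [lc, Pool.Agent.Q99.FAL.rc, mid, ccl, cor, low, dot, Pi.single_apply, wd,
      Fin.sum_univ_four] at * <;>
    simp_all

/-- the colouring of a functional -/
lemma CK_of : ∀ (D : List Vx) (n n' : ℕ), Val D n n' → ∀ (φ : Fin D.length → Fin 4 → ℝ)
    (c c' g : List ℝ), c'.length = n' + 1 → Per c' → c.length = n + 1 →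
    2 * g.length + n' = 2 * D.length + n →
    (∀ z : ℝ × List ℝ, z.2.length = n + 1 → dot c' (fin D (fun _ _ => 0) z).2 +
      dot g (clo D (fun _ _ => 0) z) = dot c z.2) →
    (∀ x : Fin D.length → Fin 6 → ℝ, dot c' (fin D x (0, List.replicate (n + 1) 0)).2 +
      dot g (clo D x (0, List.replicate (n + 1) 0)) = ∑ b, ∑ q, φ b q * cor (x b) q) →
    CK D φ c c'
  | [], n, n', h, φ, c, c', g, hc', hP, hc, hg, hd, hx => by
    have h' : n = n' := h
    subst h'
    have hg0 : g = [] := by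
      apply List.length_eq_zero_iff.1
      simp only [List.length_nil] at hg
      omega
    subst hg0
    refine dot_ext _ _ (hc.trans hc'.symm) fun G hG => ?_
    have := hd (0, G) (hG.trans hc)
    rw [dot_nil, add_zero] at this
    exact this.symm
  | V :: D, n, n', h, φ, c, c', g, hc', hP, hc, hg, hd, hx => by
    have hn := Pool.Agent.Q237.FAL.ncl_up V.P.ty n V.P.p h.1
    have hw : ncl V.P.ty + 1 = wd V.P.ty := by cases V.P.ty <;> rfl
    have hDl : (V :: D).length = D.length + 1 := rfl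
    have hcl0 := clo_len D _ n' h.2 (fun _ _ => (0 : ℝ)) (0, List.replicate (up V.P.ty n + 1) 0)
      (by simp)
    obtain ⟨γ, g', rfl, hγ⟩ : ∃ γ g', g = γ ++ g' ∧ γ.length = ncl V.P.ty :=
      ⟨g.take (ncl V.P.ty), g.drop (ncl V.P.ty), (List.take_append_drop _ _).symm, by
        rw [List.length_take]; omega⟩
    rw [List.length_append] at hg
    obtain ⟨c1, hc1, hP1, hd1⟩ := dual_D D _ n' h.2 c' g' hc' hP (by omega)
    obtain ⟨A, x, M, y, B, hA, hM, hB, rfl, c2, hc2, hPc, hr, hd2⟩ :=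
      dual_vx V n h.1 c1 γ hc1 hP1 (by omega)
    -- the value of the functional on a vertex
    have hval : ∀ (u : Fin 6 → ℝ) (z : ℝ × List ℝ), z.2.length = n + 1 →
        dot c' (fin D (fun _ _ => 0) (vst V u z)).2 + dot (γ ++ g')
          (vcl V u z ++ clo D (fun _ _ => 0) (vst V u z)) =
        dot (A ++ x :: (M ++ y :: B)) (vst V u z).2 + dot γ (vcl V u z) := by
      intro u z hz
      rw [dot_append (by rw [hγ, vcl_len V _ z n h.1 hz]),
        ← hd1 (vst V u z) (vst_len V _ z n h.1 hz)]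
      ring
    have hcc : c = c2 := by
      refine dot_ext _ _ (hc.trans hc2.symm) fun G hG => ?_
      have hG' := hG.trans hc
      have e1 := hd (0, G) hG'
      have e2 := hval (fun _ => 0) (0, G) hG'
      have e3 := hd2 (0, G) hG'
      rw [e3] at e2
      exact e1.symm.trans e2
    subst hcc
    have hwp := wd_pos V.P.ty
    have hn1 : 1 ≤ n := by have := h.1; omega
    obtain ⟨j, rfl⟩ : ∃ j, n = j + 1 := ⟨n - 1, by omega⟩
    -- the corners
    have hcor : ∀ u : Fin 6 → ℝ, x * cor u (lc V.P.ty) +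
        (dot M (mid V.P.ty (cor u)) + y * cor u (Pool.Agent.Q99.FAL.rc V.P.ty)) +
        dot γ (ccl V.P.ty (cor u) (List.replicate (wd V.P.ty - 1) 0)) =
        ∑ q, φ 0 q * cor u q := by
      intro u
      have e1 := hx (Fin.cons u fun _ _ => 0)
      have e2 : ∑ b : Fin (V :: D).length, ∑ q, φ b q * cor ((Fin.cons u (fun _ _ => 0) :
          Fin (D.length + 1) → Fin 6 → ℝ) b) q = ∑ q, φ 0 q * cor u q := by
        refine (Fin.sum_univ_succ _).trans ?_
        have e0 : ∀ b : Fin D.length, ∑ q, φ b.succ q * cor ((Fin.cons u (fun _ _ => 0) :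
          Fin (D.length + 1) → Fin 6 → ℝ) b.succ) q = 0 := by
          intro b
          rw [Fin.cons_succ, cor_zero]
          simp
        rw [Finset.sum_eq_zero fun b _ => e0 b, add_zero]
        rfl
      rw [e2] at e1
      have e3 := hval u (0, List.replicate (j + 1 + 1) 0) (by simp)
      have e4 : dot c' (fin (V :: D) (Fin.cons u fun _ _ => 0)
          (0, List.replicate (j + 1 + 1) 0)).2 + dot (γ ++ g') (clo (V :: D)
          (Fin.cons u fun _ _ => 0) (0, List.replicate (j + 1 + 1) 0)) = _ := e3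
      rw [e4] at e1
      rw [← e1]
      have hz := zeros_split A.length (wd V.P.ty) B.length hwp
      rw [hB] at hz
      unfold vst vcl
      simp only
      rw [rots_zero, ← hA]
      simp only
      rw [hz, stp_zeros, cls_zeros, dot_append (by simp), dot_cons, dot_append (by
          have := mid_ud V.P.ty (cor u)
          omega), dot_cons, dot_zero, dot_zero]
      ring
    obtain ⟨q1, q2, q3, q4⟩ := corner' V.P.ty M γ x y (φ 0) hM (by omega) hcor
    refine ⟨hPc, A, B, hA, ?_, ?_⟩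
    · rw [hr, q1, q2, q4]
    · have e5 : A ++ φ 0 (lc V.P.ty) :: (mid V.P.ty (φ 0) ++
          φ 0 (Pool.Agent.Q99.FAL.rc V.P.ty) :: B) = A ++ x :: (M ++ y :: B) := by
        rw [q1, q2, q3]
      rw [e5]
      refine CK_of D _ n' h.2 (fun k => φ k.succ) _ c' g' hc' hP hc1 (by omega) hd1 ?_
      intro x'
      have e1 := hx (Fin.cons (fun _ => 0) x')
      have e2 : ∑ b : Fin (V :: D).length, ∑ q, φ b q * cor ((Fin.cons (fun _ => 0) x' :
          Fin (D.length + 1) → Fin 6 → ℝ) b) q =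
          ∑ b : Fin D.length, ∑ q, φ b.succ q * cor (x' b) q := by
        refine (Fin.sum_univ_succ _).trans ?_
        have e0 : ∑ q, φ 0 q * cor ((Fin.cons (fun _ => 0) x' :
          Fin (D.length + 1) → Fin 6 → ℝ) 0) q = 0 := by
          rw [Fin.cons_zero, cor_zero]
          simp
        refine Eq.trans (congrArg₂ (· + ·) e0 rfl) ?_
        rw [zero_add]
        rfl
      rw [e2] at e1
      rw [← e1]
      show _ = dot c' (fin D x' (vst V (fun _ => 0) (0, List.replicate (j + 1 + 1) 0))).2 +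
        dot (γ ++ g') (vcl V (fun _ => 0) (0, List.replicate (j + 1 + 1) 0) ++
        clo D x' (vst V (fun _ => 0) (0, List.replicate (j + 1 + 1) 0)))
      rw [vst_zero V _ h.1, vcl_zero V _ h.1, dot_append (by simp [hγ]), dot_zero]
      ring


variable {D : List Vx} {k m : ℕ}

/-- the colour of an angle -/
noncomputable def cg (k m : ℕ) (D : List Vx) (g : Fin D.length → ℝ) (b : Fin D.length)
    (i : Fin 6) : ℝ := ∑ r, g r * (Cf k m D r b i : ℝ)

/-- the colours of the corners -/
noncomputable def kc (k m : ℕ) (D : List Vx) (g : Fin D.length → ℝ) (b : Fin D.length) :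
    Fin 4 → ℝ := ![cg k m D g b 0, cg k m D g b 1, cg k m D g b 3, cg k m D g b 2]

lemma Cf_cor (h : Val D (m + 1) (m + 1)) (r b : Fin D.length) :
    Cf k m D r b 1 = Cf k m D r b 4 ∧ Cf k m D r b 2 = Cf k m D r b 5 := by
  have key : ∀ i j : Fin 6, ((i = 1 ∧ j = 4) ∨ (i = 2 ∧ j = 5)) →
      Cf k m D r b i = Cf k m D r b j := by
    intro i j hij
    have h1 := eij_mem (k := k) (m := m) b i j hij
    rw [mem_LT, TS_iff h] at h1
    have h2 := h1.2 r
    rw [evx_apply, sum_eq_single b] at h2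
    · rcases hij with ⟨rfl, rfl⟩ | ⟨rfl, rfl⟩ <;>
      · simp [eij, Fin.sum_univ_six] at h2
        omega
    · intro b' _ hb
      simp [eij, hb]
    · intro hb
      exact absurd (mem_univ _) hb
  exact ⟨key 1 4 (Or.inl ⟨rfl, rfl⟩), key 2 5 (Or.inr ⟨rfl, rfl⟩)⟩

lemma kc_val (h : Val D (m + 1) (m + 1)) (g : Fin D.length → ℝ) (b : Fin D.length) (i : Fin 6) :
    kc k m D g b (c6 i) = cg k m D g b i := by
  have h1 : cg k m D g b 1 = cg k m D g b 4 := by
    unfold cg
    exact sum_congr rfl fun r _ => by rw [(Cf_cor h r b).1]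
  have h2 : cg k m D g b 2 = cg k m D g b 5 := by
    unfold cg
    exact sum_congr rfl fun r _ => by rw [(Cf_cor h r b).2]
  fin_cases i <;> simp [kc, c6, h1, h2]

/-- **the periodic colouring of a function on the regions** -/
theorem exists_CK (h : Val D (m + 1) (m + 1)) (hC : Cell D m k) (g : Fin D.length → ℝ) :
    ∃ c : List ℝ, c.length = m + 2 ∧ Per c ∧ CK D (kc k m D g) c c := by
  obtain ⟨c, hc, hP, hd⟩ := exists_per h hC (List.ofFn g) (by simp)
  have hdot : ∀ x : Fin D.length → Fin 6 → ℝ, dot (List.ofFn g) (clo D x (0, Gof k m D x)) =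
      ∑ b, ∑ q, kc k m D g b q * cor (x b) q := by
    intro x
    have e1 : clo D x (0, Gof k m D x) = List.ofFn fun r => evx x (Cf k m D r) := by
      rw [clo_gen, ← Cl_eq h, List.map_ofFn]
      rfl
    have e2 : ∀ (n : ℕ) (f f' : Fin n → ℝ), dot (List.ofFn f) (List.ofFn f') = ∑ r, f r * f' r := by
      intro n
      induction n with
      | zero => intro f f'; simp [dot]
      | succ n ih =>
        intro f f'
        rw [List.ofFn_succ, List.ofFn_succ, dot_cons, ih, Fin.sum_univ_succ]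
    rw [e1, e2]
    have e3 : ∀ r, g r * evx x (Cf k m D r) = ∑ b, ∑ i, (g r * (Cf k m D r b i : ℝ)) * x b i := by
      intro r
      rw [evx_apply, mul_sum]
      refine sum_congr rfl fun b _ => ?_
      rw [mul_sum]
      refine sum_congr rfl fun i _ => ?_
      rw [zsmul_eq_mul]
      ring
    simp only [e3]
    rw [sum_comm]
    refine sum_congr rfl fun b _ => ?_
    rw [sum_comm]
    have e4 : ∀ i, ∑ r, (g r * (Cf k m D r b i : ℝ)) * x b i = kc k m D g b (c6 i) * x b i := by
      intro i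
      rw [← sum_mul, kc_val h]
      rfl
    simp only [e4]
    rw [Fin.sum_univ_six, Fin.sum_univ_four]
    have c0 : c6 0 = 0 := rfl
    have c1 : c6 1 = 1 := rfl
    have c2 : c6 2 = 3 := rfl
    have c3 : c6 3 = 2 := rfl
    have c4 : c6 4 = 1 := rfl
    have c5 : c6 5 = 3 := rfl
    rw [c0, c1, c2, c3, c4, c5]
    have d0 : cor (x b) 0 = x b 0 := rfl
    have d1 : cor (x b) 1 = x b 1 + x b 4 := rfl
    have d2 : cor (x b) 2 = x b 3 := rfl
    have d3 : cor (x b) 3 = x b 2 + x b 5 := rfl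
    rw [d0, d1, d2, d3]
    ring
  have hx : ∀ x : Fin D.length → Fin 6 → ℝ,
      dot c (fin D x (0, List.replicate (m + 1 + 1) 0)).2 +
      dot (List.ofFn g) (clo D x (0, List.replicate (m + 1 + 1) 0)) =
      ∑ b, ∑ q, kc k m D g b q * cor (x b) q := by
    intro x
    obtain ⟨G, hG⟩ : ∃ G, G = Gof k m D x := ⟨_, rfl⟩
    have hGl : G.length = m + 2 := by rw [hG]; exact Gof_len h k x
    have hfix : turn D x G = G := by rw [hG]; exact fixR h hC x
    have e1 := hdot x
    rw [← hG] at e1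
    have e2 := clo_add x (fun _ _ => 0) (List.replicate (m + 1 + 1) 0) G (by simp [hGl])
    have e3 := fin_add x (fun _ _ => 0) (List.replicate (m + 1 + 1) 0) G (by simp [hGl])
    simp only [add_zero] at e2 e3
    rw [zero_zip _ _ hGl] at e2 e3
    have l1 := fin_len D _ _ h x (0, List.replicate (m + 1 + 1) 0) (by simp)
    have l2 := fin_len D _ _ h (fun _ _ => (0 : ℝ)) (0, G) hGl
    have l3 := clo_len D _ _ h x (0, List.replicate (m + 1 + 1) 0) (by simp)
    have l4 := clo_len D _ _ h (fun _ _ => (0 : ℝ)) (0, G) hGl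
    have e4 : dot (List.ofFn g) (clo D x (0, G)) =
        dot (List.ofFn g) (clo D x (0, List.replicate (m + 1 + 1) 0)) +
        dot (List.ofFn g) (clo D (fun _ _ => 0) (0, G)) := by
      rw [e2, dot_add _ _ _ (by omega)]
    have e5 : dot c (fin D x (0, G)).2 = dot c (fin D x (0, List.replicate (m + 1 + 1) 0)).2 +
        dot c (fin D (fun _ _ => 0) (0, G)).2 := by
      rw [e3, dot_add _ _ _ (l1.trans l2.symm)]
    have e6 : dot c (fin D x (0, G)).2 = dot c G := by
      rw [← nrm_dot c _ hP ((fin_len D _ _ h x (0, G) hGl).trans hc.symm)]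
      unfold turn at hfix
      rw [hfix]
    have e7 := hd (0, G) hGl
    simp only at e7
    linarith
  exact ⟨c, hc, hP, CK_of D _ _ h _ c c (List.ofFn g) hc hP hc (by simp) hd hx⟩

/-! ### the circles -/

/-- the triangle of an angle -/
def t6 (i : Fin 6) : Fin 2 := ![0, 0, 0, 1, 1, 1] i

/-- **the radii at the maximum** -/
theorem exists_radii (h : Val D (m + 1) (m + 1)) (hC : Cell D m k)
    (a : Fin D.length → Fin 6 → ℝ) (ha : a ∈ AT k m D) (hpos : ∀ b i, 0 < a b i)
    (hmax : ∀ a' ∈ AT k m D, fV a' ≤ fV a) :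
    ∃ (F : Fin D.length → Fin 2 → ℝ) (g : Fin D.length → ℝ), ∀ b i,
      Real.log (Real.tan (Real.pi * a b i)) = F b (t6 i) + cg k m D g b i := by
  classical
  obtain ⟨a0, -, h0⟩ := exists_a0 h hC a ha.2.2 ha.1
  have hgood := good_T a0 h0 a ha hpos
  have hcr := Pool.Agent.Q299.FAL.task_CR D.length (XT k m D a0) a hgood a
    (by rw [Ang_eq a0 h0]; exact ha) (fun _ _ => Iff.rfl) (by rw [Ang_eq a0 h0]; exact hmax)
  obtain ⟨ℓ, hℓ⟩ : ∃ ℓ : (Fin D.length → Fin 6 → ℝ) →ₗ[ℝ] ℝ, ∀ x, ℓ x =
      ∑ b, ∑ i, Real.log (Real.tan (Real.pi * a b i)) * x b i :=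
    ⟨{ toFun := fun x => ∑ b, ∑ i, Real.log (Real.tan (Real.pi * a b i)) * x b i
       map_add' := fun x y => by simp [mul_add, sum_add_distrib]
       map_smul' := fun r x => by
        simp only [Pi.smul_apply, smul_eq_mul, RingHom.id_apply, mul_sum]
        refine sum_congr rfl fun b _ => sum_congr rfl fun i _ => ?_
        ring }, fun x => rfl⟩
  let n1L : Fin D.length → (Fin D.length → Fin 6 → ℝ) →ₗ[ℝ] ℝ := fun b =>
    { toFun := fun x => n1 (x b)
      map_add' := fun x y => by simp only [n1, Pi.add_apply]; ring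
      map_smul' := fun r x => by simp only [n1, Pi.smul_apply, smul_eq_mul, RingHom.id_apply]; ring }
  let n2L : Fin D.length → (Fin D.length → Fin 6 → ℝ) →ₗ[ℝ] ℝ := fun b =>
    { toFun := fun x => n2 (x b)
      map_add' := fun x y => by simp only [n2, Pi.add_apply]; ring
      map_smul' := fun r x => by simp only [n2, Pi.smul_apply, smul_eq_mul, RingHom.id_apply]; ring }
  let rgL : Fin D.length → (Fin D.length → Fin 6 → ℝ) →ₗ[ℝ] ℝ := fun r =>
    { toFun := fun x => ∑ b, ∑ i, (Cf k m D r b i : ℝ) * x b i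
      map_add' := fun x y => by simp [mul_add, sum_add_distrib]
      map_smul' := fun s x => by
        simp only [Pi.smul_apply, smul_eq_mul, RingHom.id_apply, mul_sum]
        refine sum_congr rfl fun b _ => sum_congr rfl fun i _ => ?_
        ring }
  have hmem := mem_span_of_iInf_ker_le_ker
    (L := fun s : (Fin D.length ⊕ Fin D.length) ⊕ Fin D.length =>
      Sum.elim (Sum.elim n1L n2L) rgL s) (K := ℓ) (by
    intro x hx
    rw [Submodule.mem_iInf] at hx
    have g1 : ∀ b, n1 (x b) = 0 := fun b => hx (Sum.inl (Sum.inl b))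
    have g2 : ∀ b, n2 (x b) = 0 := fun b => hx (Sum.inl (Sum.inr b))
    have g3 : ∀ r, ∑ b, ∑ i, (Cf k m D r b i : ℝ) * x b i = 0 := fun r => hx (Sum.inr r)
    have hTS : TS k m D x 0 := by
      rw [TS_iff h]
      refine ⟨fun b => by rw [g1, g2, add_zero], fun r => ?_⟩
      rw [evx_apply]
      simpa only [zsmul_eq_mul] using g3 r
    have h1 := hcr x ((LR_TS a0 x).2 hTS)
    rw [LinearMap.mem_ker, hℓ, ← h1]
    refine sum_congr rfl fun b _ => sum_congr rfl fun i _ => ?_
    have h2 : dn (x b) i = 0 := by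
      unfold dn
      split_ifs
      · exact g2 b
      · exact g1 b
    rw [h2, mul_zero, add_zero])
  rw [Submodule.mem_span_range_iff_exists_fun] at hmem
  obtain ⟨co, hco⟩ := hmem
  refine ⟨fun b j => if j = 0 then co (Sum.inl (Sum.inl b)) else co (Sum.inl (Sum.inr b)),
    fun r => co (Sum.inr r), fun b i => ?_⟩
  obtain ⟨e, he⟩ : ∃ e : Fin D.length → Fin 6 → ℝ,
    e = fun b' i' => if b' = b ∧ i' = i then 1 else 0 := ⟨_, rfl⟩
  have h1 := congrArg (fun L : (Fin D.length → Fin 6 → ℝ) →ₗ[ℝ] ℝ => L e) hco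
  simp only [LinearMap.sum_apply, LinearMap.smul_apply, smul_eq_mul] at h1
  rw [hℓ, Fintype.sum_sum_type, Fintype.sum_sum_type] at h1
  simp only [Sum.elim_inl, Sum.elim_inr] at h1
  have s1 : ∀ f : Fin D.length → Fin 6 → ℝ, ∑ b', ∑ i', f b' i' * e b' i' = f b i := by
    intro f
    rw [he, sum_eq_single b, sum_eq_single i]
    · simp
    · intro i' _ hi; simp [hi]
    · intro hh; exact absurd (mem_univ _) hh
    · intro b' _ hb; simp [hb]
    · intro hh; exact absurd (mem_univ _) hh
  have s2 : ∑ b', co (Sum.inl (Sum.inl b')) * n1L b' e =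
      co (Sum.inl (Sum.inl b)) * n1 (e b) := by
    rw [sum_eq_single b]
    · rfl
    · intro b' _ hb
      have : n1L b' e = 0 := by
        show n1 (e b') = 0
        rw [he]
        simp [n1, hb]
      rw [this, mul_zero]
    · intro hh; exact absurd (mem_univ _) hh
  have s3 : ∑ b', co (Sum.inl (Sum.inr b')) * n2L b' e =
      co (Sum.inl (Sum.inr b)) * n2 (e b) := by
    rw [sum_eq_single b]
    · rfl
    · intro b' _ hb
      have : n2L b' e = 0 := by
        show n2 (e b') = 0
        rw [he]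
        simp [n2, hb]
      rw [this, mul_zero]
    · intro hh; exact absurd (mem_univ _) hh
  have s4 : ∀ r, rgL r e = (Cf k m D r b i : ℝ) := by
    intro r
    show ∑ b', ∑ i', (Cf k m D r b' i' : ℝ) * e b' i' = _
    exact s1 fun b' i' => (Cf k m D r b' i' : ℝ)
  rw [s1, s2, s3] at h1
  simp only [s4] at h1
  rw [← h1]
  unfold cg
  congr 1
  rw [he]
  fin_cases i <;> simp [n1, n2, t6]

end Pool.Agent.H760.TT
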