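import Pool.Graph.R_pool_sql_team_seeded_3997aac3.Q99.FP2.Al
import Pool.Graph.R_pool_sql_team_seeded_3997aac3.Q191.TB.Tor
import Pool.Graph.R_pool_sql_team_seeded_3997aac3.Q237.FAL.SO

/-!
# Fully augmented links in the thickened torus, part 1: the recursion

A state is a pair `(s, G)`: `s` is the label on the left of the diagram, `G` the list of the gaps; the
first and the last gap are the two parts of the region which contains the cutting arc.
-/

set_option autoImplicit false

namespace Pool.Agent.H760.TT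

open Pool.Agent.Q99.FAL

/-- a vertex of a toroidal diagram: `r` rotations in the direction `b`, then the piece `P` -/
structure Vx where
  b : Bool
  r : ℕ
  P : Pc

section rec
variable {R : Type} [AddCommGroup R]

/-- one rotation -/
def rot (b : Bool) (z : R × List R) : R × List R :=
  if b then (z.1 - z.2.headD 0, z.2.tail.dropLast ++ [z.2.getLastD 0 + z.2.headD 0, 0])
  else (z.1 + z.2.getLastD 0, 0 :: (z.2.getLastD 0 + z.2.headD 0) :: z.2.tail.dropLast)

/-- one vertex -/
def vst (V : Vx) (x : Fin 6 → R) (z : R × List R) : R × List R :=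
  (((rot V.b)^[V.r] z).1, stp V.P.ty V.P.p (cor x) ((rot V.b)^[V.r] z).2)

/-- the regions which end at a vertex -/
def vcl (V : Vx) (x : Fin 6 → R) (z : R × List R) : List R :=
  cls V.P.ty V.P.p (cor x) ((rot V.b)^[V.r] z).2

/-- the final state -/
def fin : (D : List Vx) → (Fin D.length → Fin 6 → R) → R × List R → R × List R
  | [], _, z => z
  | V :: D, a, z => fin D (fun k => a k.succ) (vst V (a 0) z)

/-- the sums of the regions which end -/
def clo : (D : List Vx) → (Fin D.length → Fin 6 → R) → R × List R → List R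
  | [], _, _ => []
  | V :: D, a, z => vcl V (a 0) z ++ clo D (fun k => a k.succ) (vst V (a 0) z)

/-- the two parts of the region of the arc are joined -/
def nrm (G : List R) : List R := 0 :: (G.tail.dropLast ++ [G.getLastD 0 + G.headD 0])

/-- one turn around the torus -/
def turn (D : List Vx) (a : Fin D.length → Fin 6 → R) (G : List R) : List R :=
  nrm (fin D a (0, G)).2

end rec

/-- `D` is a diagram with `n` strands below and `n'` strands above -/
def Val : List Vx → ℕ → ℕ → Prop
  | [], n, n' => n = n'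
  | V :: D, n, n' => V.P.p + wd V.P.ty ≤ n ∧ Val D (up V.P.ty n) n'

lemma wd_pos (T : Ty) : 1 ≤ wd T := by cases T <;> simp [wd]

/-! ### rotations -/

section rec
variable {R : Type} [AddCommGroup R]

omit [AddCommGroup R] in
lemma exists_ends {G : List R} {n : ℕ} (h : G.length = n + 2) :
    ∃ x M y, G = x :: (M ++ [y]) ∧ M.length = n := by
  rcases G with _ | ⟨x, G⟩
  · simp at h
  · rcases List.eq_nil_or_concat G with rfl | ⟨M, y, rfl⟩
    · simp at h
    · refine ⟨x, M, y, by simp, ?_⟩
      simpa using h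

lemma last_end (x y : R) (M : List R) : (x :: (M ++ [y])).getLastD 0 = y := by
  rw [← List.cons_append, List.getLastD_concat]

lemma rot_true (s x y : R) (M : List R) :
    rot true (s, x :: (M ++ [y])) = (s - x, M ++ [y + x, 0]) := by
  unfold rot
  rw [if_pos rfl, last_end]
  simp

lemma rot_false (s x y : R) (M : List R) :
    rot false (s, x :: (M ++ [y])) = (s + y, 0 :: (y + x) :: M) := by
  unfold rot
  rw [if_neg (by simp), last_end]
  simp

lemma nrm_eq (x y : R) (M : List R) : nrm (x :: (M ++ [y])) = 0 :: (M ++ [y + x]) := by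
  unfold nrm
  rw [last_end]
  simp

lemma rot_len (b : Bool) (z : R × List R) (n : ℕ) (h : z.2.length = n + 2) :
    (rot b z).2.length = n + 2 := by
  obtain ⟨s, G⟩ := z
  obtain ⟨x, M, y, rfl, hM⟩ := exists_ends h
  cases b
  · rw [rot_false]; simp [hM]
  · rw [rot_true]; simp [hM]

lemma rots_len (b : Bool) (r : ℕ) (z : R × List R) (n : ℕ) (h : z.2.length = n + 2) :
    ((rot b)^[r] z).2.length = n + 2 := by
  induction r with
  | zero => exact h
  | succ r ih => rw [Function.iterate_succ_apply']; exact rot_len b _ n ih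

lemma nrm_len (G : List R) (n : ℕ) (h : G.length = n + 2) : (nrm G).length = n + 2 := by
  obtain ⟨x, M, y, rfl, hM⟩ := exists_ends h
  rw [nrm_eq]; simp [hM]

lemma rot_sum (b : Bool) (z : R × List R) (n : ℕ) (h : z.2.length = n + 2) :
    (rot b z).2.sum = z.2.sum := by
  obtain ⟨s, G⟩ := z
  obtain ⟨x, M, y, rfl, hM⟩ := exists_ends h
  cases b
  · rw [rot_false]; simp; abel
  · rw [rot_true]; simp; abel

lemma rots_sum (b : Bool) (r : ℕ) (z : R × List R) (n : ℕ) (h : z.2.length = n + 2) :
    ((rot b)^[r] z).2.sum = z.2.sum := by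
  induction r with
  | zero => rfl
  | succ r ih =>
    rw [Function.iterate_succ_apply', rot_sum b _ n (rots_len b r z n h), ih]

lemma nrm_sum (G : List R) (n : ℕ) (h : G.length = n + 2) : (nrm G).sum = G.sum := by
  obtain ⟨x, M, y, rfl, hM⟩ := exists_ends h
  rw [nrm_eq]; simp; abel

/-! ### functoriality -/

variable {R' : Type} [AddCommGroup R']

lemma headD_map (f : R →+ R') (G : List R) : (G.map f).headD 0 = f (G.headD 0) := by
  cases G <;> simp

lemma getLastD_map (f : R →+ R') (G : List R) : (G.map f).getLastD 0 = f (G.getLastD 0) := by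
  rcases List.eq_nil_or_concat G with rfl | ⟨G, x, rfl⟩ <;> simp

lemma nrm_map (f : R →+ R') (G : List R) : nrm (G.map f) = (nrm G).map f := by
  unfold nrm
  rw [headD_map, getLastD_map, ← List.map_tail, ← List.map_dropLast]
  simp

/-- a state under a homomorphism -/
def sm (f : R →+ R') (z : R × List R) : R' × List R' := (f z.1, z.2.map f)

lemma rot_map (f : R →+ R') (b : Bool) (z : R × List R) : rot b (sm f z) = sm f (rot b z) := by
  unfold rot sm
  cases b
  · simp only [Bool.false_eq_true, if_false]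
    rw [headD_map, getLastD_map, ← List.map_tail, ← List.map_dropLast]
    simp
  · simp only [if_true]
    rw [headD_map, getLastD_map, ← List.map_tail, ← List.map_dropLast]
    simp

lemma rots_map (f : R →+ R') (b : Bool) (r : ℕ) (z : R × List R) :
    (rot b)^[r] (sm f z) = sm f ((rot b)^[r] z) := by
  induction r with
  | zero => rfl
  | succ r ih => rw [Function.iterate_succ_apply', ih, rot_map, Function.iterate_succ_apply']

lemma cor_map' (f : R →+ R') (x : Fin 6 → R) : cor (fun i => f (x i)) = fun j => f (cor x j) := by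
  funext j
  fin_cases j <;> simp [cor, map_add]

lemma vst_map (f : R →+ R') (V : Vx) (x : Fin 6 → R) (z : R × List R) :
    vst V (fun i => f (x i)) (sm f z) = sm f (vst V x z) := by
  unfold vst
  rw [rots_map, cor_map']
  unfold sm
  simp only
  rw [Pool.Agent.Q237.FAL.stp_map f (fun a b => map_add f a b)]

lemma vcl_map (f : R →+ R') (V : Vx) (x : Fin 6 → R) (z : R × List R) :
    vcl V (fun i => f (x i)) (sm f z) = (vcl V x z).map f := by
  unfold vcl
  rw [rots_map, cor_map']
  unfold sm
  simp only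
  rw [Pool.Agent.Q237.FAL.cls_map f (fun a b => map_add f a b)]

lemma fin_map (f : R →+ R') : ∀ (D : List Vx) (a : Fin D.length → Fin 6 → R) (z : R × List R),
    fin D (fun k i => f (a k i)) (sm f z) = sm f (fin D a z)
  | [], _, _ => rfl
  | V :: D, a, z => by
    show fin D (fun k i => f (a k.succ i)) (vst V (fun i => f (a 0 i)) (sm f z)) = _
    rw [vst_map]
    exact fin_map f D (fun k => a k.succ) (vst V (a 0) z)

lemma clo_map (f : R →+ R') : ∀ (D : List Vx) (a : Fin D.length → Fin 6 → R) (z : R × List R),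
    clo D (fun k i => f (a k i)) (sm f z) = (clo D a z).map f
  | [], _, _ => rfl
  | V :: D, a, z => by
    show vcl V (fun i => f (a 0 i)) (sm f z) ++ clo D (fun k i => f (a k.succ i))
      (vst V (fun i => f (a 0 i)) (sm f z)) = (vcl V (a 0) z ++ _).map f
    rw [vst_map, vcl_map, List.map_append]
    congr 1
    exact clo_map f D (fun k => a k.succ) (vst V (a 0) z)

lemma turn_map (f : R →+ R') (D : List Vx) (a : Fin D.length → Fin 6 → R) (G : List R) :
    turn D (fun k i => f (a k i)) (G.map f) = (turn D a G).map f := by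
  unfold turn
  have h := fin_map f D a (0, G)
  have e : sm f ((0 : R), G) = (0, G.map f) := by simp [sm]
  rw [e] at h
  rw [h]
  exact nrm_map f _

/-! ### lengths and sums -/

lemma vst_len (V : Vx) (x : Fin 6 → R) (z : R × List R) (n : ℕ) (hV : V.P.p + wd V.P.ty ≤ n)
    (h : z.2.length = n + 1) : (vst V x z).2.length = up V.P.ty n + 1 := by
  have := wd_pos V.P.ty
  obtain ⟨k, rfl⟩ : ∃ k, n = k + 1 := ⟨n - 1, by omega⟩
  exact Pool.Agent.Q237.FAL.stp_len V.P.ty _ (k + 1) V.P.p _ hV (rots_len V.b V.r z k h)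

lemma vcl_len (V : Vx) (x : Fin 6 → R) (z : R × List R) (n : ℕ) (hV : V.P.p + wd V.P.ty ≤ n)
    (h : z.2.length = n + 1) : (vcl V x z).length = ncl V.P.ty := by
  have := wd_pos V.P.ty
  obtain ⟨k, rfl⟩ : ∃ k, n = k + 1 := ⟨n - 1, by omega⟩
  exact Pool.Agent.Q237.FAL.cls_len V.P.ty _ (k + 1) V.P.p _ hV (rots_len V.b V.r z k h)

lemma cons_law' (T : Ty) (x : Fin 6 → R) (n p : ℕ) (G : List R)
    (h : p + wd T ≤ n) (hG : G.length = n + 1) :
    (stp T p (cor x) G).sum + (cls T p (cor x) G).sum = G.sum + (n1 x + n2 x) := by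
  obtain ⟨A, x', m, y, r, rfl, rfl, hm⟩ := Pool.Agent.Q237.FAL.dec T p G (by omega)
  rw [Pool.Agent.Q237.FAL.cls_eq T _ A x' m y r hm, Pool.Agent.Q237.FAL.stp_eq T _ A x' m y r hm]
  cases T <;> simp only [wd] at hm <;> rcases m with _ | ⟨a, _ | ⟨b, _ | ⟨c, m⟩⟩⟩ <;>
    simp [Pool.Agent.Q237.FAL.ccl, Pool.Agent.Q237.FAL.mid, lc, rc, cor, n1, n2] at hm ⊢ <;> abel

lemma vst_sum (V : Vx) (x : Fin 6 → R) (z : R × List R) (n : ℕ) (hV : V.P.p + wd V.P.ty ≤ n)
    (h : z.2.length = n + 1) :
    (vst V x z).2.sum + (vcl V x z).sum = z.2.sum + (n1 x + n2 x) := by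
  have := wd_pos V.P.ty
  obtain ⟨k, rfl⟩ : ∃ k, n = k + 1 := ⟨n - 1, by omega⟩
  have h1 := rots_sum V.b V.r z k h
  have h2 := cons_law' V.P.ty x (k + 1) V.P.p _ hV (rots_len V.b V.r z k h)
  rw [h1] at h2
  exact h2

lemma fin_len : ∀ (D : List Vx) (n n' : ℕ), Val D n n' → ∀ (a : Fin D.length → Fin 6 → R)
    (z : R × List R), z.2.length = n + 1 → (fin D a z).2.length = n' + 1
  | [], n, n', h, _, z, hz => by
    have h' : n = n' := h
    rw [← h']
    exact hz
  | V :: D, n, n', h, a, z, hz =>
    fin_len D _ n' h.2 (fun k => a k.succ) _ (vst_len V (a 0) z n h.1 hz)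

lemma clo_len : ∀ (D : List Vx) (n n' : ℕ), Val D n n' → ∀ (a : Fin D.length → Fin 6 → R)
    (z : R × List R), z.2.length = n + 1 → 2 * (clo D a z).length + n' = 2 * D.length + n
  | [], n, n', h, _, z, hz => by
    have h' : n = n' := h
    rw [← h']
    simp [clo]
  | V :: D, n, n', h, a, z, hz => by
    have ih := clo_len D _ n' h.2 (fun k => a k.succ) _ (vst_len V (a 0) z n h.1 hz)
    have h1 := vcl_len V (a 0) z n h.1 hz
    have h2 := Pool.Agent.Q237.FAL.ncl_up V.P.ty n V.P.p h.1
    have h3 : (clo (V :: D) a z).length = (vcl V (a 0) z).length +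
        (clo D (fun k => a k.succ) (vst V (a 0) z)).length := List.length_append
    have h4 : (V :: D).length = D.length + 1 := rfl
    rw [h3, h1]
    omega

lemma fin_sum : ∀ (D : List Vx) (n n' : ℕ), Val D n n' → ∀ (a : Fin D.length → Fin 6 → R)
    (z : R × List R), z.2.length = n + 1 →
    (fin D a z).2.sum + (clo D a z).sum = z.2.sum + ∑ k, (n1 (a k) + n2 (a k))
  | [], n, n', h, _, z, hz => by simp [clo, fin]
  | V :: D, n, n', h, a, z, hz => by
    have ih := fin_sum D _ n' h.2 (fun k => a k.succ) _ (vst_len V (a 0) z n h.1 hz)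
    have h1 := vst_sum V (a 0) z n h.1 hz
    have e : ∑ k : Fin (V :: D).length, (n1 (a k) + n2 (a k)) =
        (n1 (a 0) + n2 (a 0)) + ∑ k : Fin D.length, (n1 (a k.succ) + n2 (a k.succ)) :=
      Fin.sum_univ_succ _
    rw [e]
    show (fin D (fun k => a k.succ) (vst V (a 0) z)).2.sum + (vcl V (a 0) z ++ _).sum = _
    rw [List.sum_append]
    have e2 : (fin D (fun k => a k.succ) (vst V (a 0) z)).2.sum + ((vcl V (a 0) z).sum +
        (clo D (fun k => a k.succ) (vst V (a 0) z)).sum) = ((fin D (fun k => a k.succ)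
        (vst V (a 0) z)).2.sum + (clo D (fun k => a k.succ) (vst V (a 0) z)).sum) +
        (vcl V (a 0) z).sum := by abel
    rw [e2, ih]
    have e3 : (vst V (a 0) z).2.sum + ∑ k : Fin D.length, (n1 (a k.succ) + n2 (a k.succ)) +
        (vcl V (a 0) z).sum = ((vst V (a 0) z).2.sum + (vcl V (a 0) z).sum) +
        ∑ k : Fin D.length, (n1 (a k.succ) + n2 (a k.succ)) := by abel
    rw [e3, h1]
    abel

end rec

end Pool.Agent.H760.TT
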