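import Pool.Agent.H760.TT.Raw

/-!
# Fully augmented links in the thickened torus, part 5: Fourier sums
-/

set_option autoImplicit false

namespace Pool.Agent.H760.TT

open Matrix Finset
open Pool.Agent.W715.VC (rt rt_ne)
open Pool.Agent.W709.QAT (Piece run)
open Pool.Agent.Q191.TW (cs cs_add cs_zero cs_ne cs_neg cs_norm cs_period cs_period' rt_cs
  kl kx wl dl)
open Pool.Agent.Q191.LB (sg)
open Pool.Agent.Q191.TB (Gd)
open Pool.Agent.Q224.FAL (lab lab_length str_append)
open Pool.Agent.Q98.FAL (uu_app nu_ne nu_add nu_norm sum_cs)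
open Pool.Agent.Q99.FAL

variable {N : ℕ}

/-- sums over lists -/
noncomputable def sL : ℕ → (List (Fin N) → ℂ) → ℂ
  | 0, f => f []
  | p + 1, f => ∑ a : Fin N, sL p (fun l => f (a :: l))

lemma sL_eq : ∀ (p : ℕ) (f : List (Fin N) → ℂ), ∑ t : Fin p → Fin N, f (List.ofFn t) = sL p f
  | 0, f => by simp [sL]
  | p + 1, f => by
    rw [sL]
    refine Eq.trans ((Fin.consEquiv (fun _ : Fin (p + 1) => Fin N)).sum_comp
      (fun t : Fin (p + 1) → Fin N => f (List.ofFn t))).symm ?_
    rw [Fintype.sum_prod_type]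
    refine Finset.sum_congr rfl fun a _ => ?_
    rw [← sL_eq p]
    refine Finset.sum_congr rfl fun t _ => ?_
    simp [Fin.consEquiv]

lemma sL_congr : ∀ (p : ℕ) (f g : List (Fin N) → ℂ), (∀ l, l.length = p → f l = g l) →
    sL p f = sL p g
  | 0, f, g, h => h [] rfl
  | p + 1, f, g, h => Finset.sum_congr rfl fun a _ =>
      sL_congr p _ _ fun l hl => h (a :: l) (by simp [hl])

lemma sL_mul (c : ℂ) : ∀ (p : ℕ) (f : List (Fin N) → ℂ), sL p (fun l => c * f l) = c * sL p f
  | 0, f => rfl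
  | p + 1, f => by
    rw [sL, sL, Finset.mul_sum]
    exact Finset.sum_congr rfl fun a _ => sL_mul c p _

lemma sL_add : ∀ (p : ℕ) (f g : List (Fin N) → ℂ),
    sL p (fun l => f l + g l) = sL p f + sL p g
  | 0, f, g => rfl
  | p + 1, f, g => by
    rw [sL, sL, sL, ← Finset.sum_add_distrib]
    exact Finset.sum_congr rfl fun a _ => sL_add p _ _

lemma sL_zero (p : ℕ) : sL (N := N) p (fun _ => 0) = 0 := by
  have := sL_mul (N := N) 0 p (fun _ => 0)
  simpa using this

lemma sL_sum {ι : Type} (s : Finset ι) (p : ℕ) (f : ι → List (Fin N) → ℂ) :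
    sL p (fun l => ∑ i ∈ s, f i l) = ∑ i ∈ s, sL p (f i) := by
  classical
  induction s using Finset.induction_on with
  | empty => simp only [Finset.sum_empty]; exact sL_zero p
  | insert i s hi ih => simp only [Finset.sum_insert hi]; rw [sL_add, ih]

lemma sL_comm (p q : ℕ) (f : List (Fin N) → List (Fin N) → ℂ) :
    sL p (fun l => sL q (fun t => f l t)) = sL q (fun t => sL p (fun l => f l t)) := by
  rw [← sL_eq p, ← sL_eq q]
  simp only [← sL_eq]
  exact Finset.sum_comm

/-- natural numbers below `N` as integers -/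
def io (l : List (Fin N)) : List ℤ := l.map fun x => ((x : ℕ) : ℤ)

lemma uu_len : ∀ (S : List ℤ) (l : List (Fin N)) (k : ℤ), S.length = l.length → uu N k S l ≠ 0
  | [], [], k, _ => by simp [uu]
  | [], _ :: _, _, h => by simp at h
  | _ :: _, [], _, h => by simp at h
  | s :: S, x :: l, k, h => by
    rw [uu]
    exact mul_ne_zero (cs_ne _ _) (uu_len S l (k + 1) (by simpa using h))

/-- the product of the phases -/
noncomputable def pd : List ℤ → List (Fin N) → ℂ
  | [], [] => 1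
  | d :: D, x :: l => cs N (-(2 * (d : ℝ) * (x : ℕ))) * pd D l
  | _, _ => 0

lemma uu_div : ∀ (S' S : List ℤ) (l : List (Fin N)) (k : ℤ), S'.length = l.length →
    S.length = l.length → uu N k S' l * (uu N k S l)⁻¹ = pd (List.zipWith (· - ·) S' S) l
  | [], [], [], k, _, _ => by simp [uu, pd]
  | _ :: _, _, [], _, h, _ => by simp at h
  | [], _ :: _, [], _, _, h => by simp at h
  | [], _, _ :: _, _, h, _ => by simp at h
  | _ :: _, [], _ :: _, _, _, h => by simp at h
  | s' :: S', s :: S, x :: l, k, h', h => by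
    have ih := uu_div S' S l (k + 1) (by simpa using h') (by simpa using h)
    have e : ph N k s' (x : ℕ) * (ph N k s (x : ℕ))⁻¹ = cs N (-(2 * ((s' - s : ℤ) : ℝ) * (x : ℕ))) := by
      unfold ph
      rw [← cs_neg, ← cs_add]
      congr 1
      push_cast
      ring
    rw [List.zipWith_cons_cons, pd, ← ih, ← e, uu, uu, mul_inv]
    ring

lemma uu_addc (c : ℤ) : ∀ (S : List ℤ) (l : List (Fin N)) (k : ℤ),
    uu N k (S.map (· + c)) l = cs N (-(2 * (c : ℝ) * (wl l : ℕ))) * uu N k S l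
  | [], [], k => by simp [uu, wl, cs_zero]
  | [], _ :: _, k => by simp [uu]
  | _ :: _, [], k => by simp [uu]
  | s :: S, x :: l, k => by
    rw [List.map_cons, uu, uu, uu_addc c S l (k + 1)]
    have e : ph N k (s + c) (x : ℕ) = cs N (-(2 * (c : ℝ) * (x : ℕ))) * ph N k s (x : ℕ) := by
      unfold ph
      rw [← cs_add]
      congr 1
      push_cast
      ring
    have e2 : cs N (-(2 * (c : ℝ) * (wl (x :: l) : ℕ))) =
        cs N (-(2 * (c : ℝ) * (x : ℕ))) * cs N (-(2 * (c : ℝ) * (wl l : ℕ))) := by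
      rw [← cs_add]
      congr 1
      simp only [wl]
      push_cast
      ring
    rw [e, e2]
    ring

lemma lab_add (c : ℤ) : ∀ (M : List ℤ) (s : ℤ), lab (s + c) M = (lab s M).map (· + c)
  | [], _ => rfl
  | g :: M, s => by
    rw [lab, lab, List.map_cons]
    have e : s + c - g = s - g + c := by ring
    rw [e, lab_add c M (s - g)]

/-- sums over one residue -/
lemma sum_res1 (hN : 0 < N) (τ : ℤ) (f : ℤ → ℂ) (hf : ∀ t k : ℤ, f (t + N * k) = f t) :
    ∑ a : Fin N, (if (N : ℤ) ∣ ((a : ℕ) : ℤ) - τ then f ((a : ℕ) : ℤ) else 0) = f τ := by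
  have hN' : (0 : ℤ) < N := by exact_mod_cast hN
  have h0 := Int.emod_nonneg τ hN'.ne'
  have h1 := Int.emod_lt_of_pos τ hN'
  set a0 : Fin N := ⟨(τ % N).toNat, by omega⟩ with ha0
  have e0 : ((a0 : ℕ) : ℤ) = τ % N := by
    rw [ha0]
    show (((τ % N).toNat : ℕ) : ℤ) = _
    exact Int.toNat_of_nonneg h0
  rw [Finset.sum_eq_single a0]
  · have h2 : (N : ℤ) ∣ ((a0 : ℕ) : ℤ) - τ := by
      rw [e0]
      exact Int.modEq_iff_dvd.1 (Int.mod_modEq τ N).symm
    rw [if_pos h2]
    obtain ⟨k, hk⟩ := h2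
    have : ((a0 : ℕ) : ℤ) = τ + N * k := by linarith
    rw [this, hf]
  · intro a _ ha
    rw [if_neg]
    intro h
    apply ha
    apply Fin.ext
    have h3 : (N : ℤ) ∣ ((a : ℕ) : ℤ) - ((a0 : ℕ) : ℤ) := by
      have h2 : (N : ℤ) ∣ ((a0 : ℕ) : ℤ) - τ := by
        rw [e0]
        exact Int.modEq_iff_dvd.1 (Int.mod_modEq τ N).symm
      have := dvd_sub h h2
      rwa [show ((a : ℕ) : ℤ) - τ - (((a0 : ℕ) : ℤ) - τ) = ((a : ℕ) : ℤ) - ((a0 : ℕ) : ℤ) by ring]
        at this
    have ha1 := a.2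
    have ha2 := a0.2
    by_contra hne
    have h4 := Int.le_of_dvd (a := (N : ℤ)) (b := |((a : ℕ) : ℤ) - ((a0 : ℕ) : ℤ)|) (by
      rw [abs_pos]; omega) ((dvd_abs _ _).2 h3)
    have h5 : |((a : ℕ) : ℤ) - ((a0 : ℕ) : ℤ)| < N := by
      rw [abs_lt]; constructor <;> omega
    omega
  · intro h; exact absurd (mem_univ _) h

lemma sum_fin_cs (hN : 0 < N) (c : ℤ) : ∑ t : Fin N, cs N (-(2 * ((t : ℕ) : ℝ) * c)) =
    if (N : ℤ) ∣ c then (N : ℂ) else 0 := by
  rw [← sum_cs hN c, Finset.sum_range]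

lemma cs_periodic (hN : 0 < N) (d : ℤ) (t k : ℤ) :
    cs N (-(2 * (d : ℝ) * ((t + N * k : ℤ) : ℝ))) = cs N (-(2 * (d : ℝ) * (t : ℝ))) := by
  refine cs_period' hN (-(d * k)) ?_
  push_cast
  ring

open Classical in
/-- a Fourier sum over a sector -/
lemma B_val (hN : 0 < N) : ∀ (D : List ℤ) (d τ : ℤ),
    sL (D.length + 1) (fun t : List (Fin N) => if (N : ℤ) ∣ (wl t : ℤ) - τ then
      pd (d :: D) t else 0) = if ∀ e ∈ D, (N : ℤ) ∣ e - d then (N : ℂ) ^ D.length * cs N (-(2 * (d : ℝ) * (τ : ℝ))) else 0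
  | [], d, τ => by
    rw [if_pos (by simp)]
    have h := sum_res1 hN τ (fun t => cs N (-(2 * (d : ℝ) * (t : ℝ)))) fun t k => cs_periodic hN d t k
    simp only [List.length_nil, pow_zero, one_mul]
    rw [← h]
    show ∑ a : Fin N, sL 0 _ = _
    refine Finset.sum_congr rfl fun a _ => ?_
    simp [sL, wl, pd]
  | d' :: D, d, τ => by
    have IH := fun a : ℤ => B_val hN D d' (τ - a)
    have h1 : sL ((d' :: D).length + 1) (fun t : List (Fin N) => if (N : ℤ) ∣ (wl t : ℤ) - τ then
        pd (d :: d' :: D) t else 0) = ∑ a : Fin N, cs N (-(2 * (d : ℝ) * ((a : ℕ) : ℝ))) *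
          (if ∀ e ∈ D, (N : ℤ) ∣ e - d' then (N : ℂ) ^ D.length *
            cs N (-(2 * (d' : ℝ) * ((τ - ((a : ℕ) : ℤ) : ℤ) : ℝ))) else 0) := by
      show ∑ a : Fin N, sL (D.length + 1) _ = _
      refine Finset.sum_congr rfl fun a _ => ?_
      rw [← IH, ← sL_mul]
      refine sL_congr _ _ _ fun l hl => ?_
      have e : ((wl (a :: l) : ℕ) : ℤ) - τ = (wl l : ℤ) - (τ - ((a : ℕ) : ℤ)) := by
        simp only [wl]
        push_cast
        ring
      show (if (N : ℤ) ∣ ((wl (a :: l) : ℕ) : ℤ) - τ then pd (d :: d' :: D) (a :: l) else 0) = _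
      rw [e, pd]
      split_ifs
      · rfl
      · rw [mul_zero]
    rw [h1]
    by_cases hD : ∀ e ∈ D, (N : ℤ) ∣ e - d'
    · simp only [if_pos hD]
      have h2 : ∀ a : Fin N, cs N (-(2 * (d : ℝ) * ((a : ℕ) : ℝ))) * ((N : ℂ) ^ D.length *
          cs N (-(2 * (d' : ℝ) * ((τ - ((a : ℕ) : ℤ) : ℤ) : ℝ)))) =
          (N : ℂ) ^ D.length * cs N (-(2 * (d' : ℝ) * (τ : ℝ))) *
            cs N (-(2 * ((a : ℕ) : ℝ) * ((d - d' : ℤ) : ℝ))) := by
        intro a
        have e : cs N (-(2 * (d : ℝ) * ((a : ℕ) : ℝ))) *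
            cs N (-(2 * (d' : ℝ) * ((τ - ((a : ℕ) : ℤ) : ℤ) : ℝ))) =
            cs N (-(2 * (d' : ℝ) * (τ : ℝ))) * cs N (-(2 * ((a : ℕ) : ℝ) * ((d - d' : ℤ) : ℝ))) := by
          rw [← cs_add, ← cs_add]
          congr 1
          push_cast
          ring
        linear_combination ((N : ℂ) ^ D.length) * e
      rw [Finset.sum_congr rfl fun a _ => h2 a, ← Finset.mul_sum, sum_fin_cs hN]
      by_cases hdd : (N : ℤ) ∣ d - d'
      · rw [if_pos hdd, if_pos]
        · obtain ⟨k, hk⟩ := hdd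
          have hk' : d' = d + N * (-k) := by linarith
          have : cs N (-(2 * (d' : ℝ) * (τ : ℝ))) = cs N (-(2 * (d : ℝ) * (τ : ℝ))) := by
            refine cs_period' hN (k * τ) ?_
            rw [hk']
            push_cast
            ring
          rw [this, List.length_cons, pow_succ]
          ring
        · intro e he
          rcases List.mem_cons.1 he with rfl | he
          · exact (dvd_neg.2 hdd).trans (by rw [neg_sub])
          · have := dvd_sub (hD e he) hdd
            have e2 : e - d' - (d - d') = e - d := by ring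
            rwa [e2] at this
      · rw [if_neg hdd, if_neg, mul_zero]
        intro h
        apply hdd
        have := h d' (by simp)
        rw [← dvd_neg, neg_sub] at this
        exact this
    · simp only [if_neg hD, mul_zero]
      rw [Finset.sum_const_zero, if_neg]
      intro h
      apply hD
      intro e he
      have h1 := h e (by simp [he])
      have h2 := h d' (by simp)
      have := dvd_sub h1 h2
      have e2 : e - d - (d' - d) = e - d' := by ring
      rwa [e2] at this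

/-- the inversion -/
lemma inv_core (hN : 0 < N) : ∀ (m : ℕ) (k s : ℤ) (l t : List (Fin N)), l.length = m + 1 →
    t.length = m + 1 → (N : ℤ) ∣ (wl l : ℤ) - wl t →
    sL m (fun M : List (Fin N) => uu N k (s :: lab s (io M)) l *
      (uu N k (s :: lab s (io M)) t)⁻¹) = if l = t then (N : ℂ) ^ m else 0
  | 0, k, s, l, t, hl, ht, h => by
    obtain ⟨a, rfl⟩ := List.length_eq_one_iff.1 hl
    obtain ⟨b, rfl⟩ := List.length_eq_one_iff.1 ht
    have hab : a = b := by
      have h1 : (N : ℤ) ∣ ((a : ℕ) : ℤ) - ((b : ℕ) : ℤ) := by simpa [wl] using h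
      apply Fin.ext
      have ha1 := a.2
      have ha2 := b.2
      by_contra hne
      have h4 := Int.le_of_dvd (a := (N : ℤ)) (b := |((a : ℕ) : ℤ) - ((b : ℕ) : ℤ)|) (by
        rw [abs_pos]; omega) ((dvd_abs _ _).2 h1)
      have h5 : |((a : ℕ) : ℤ) - ((b : ℕ) : ℤ)| < N := by
        rw [abs_lt]; constructor <;> omega
      omega
    subst hab
    rw [if_pos rfl]
    simp only [sL, pow_zero]
    exact mul_inv_cancel₀ (uu_len _ _ _ (by simp [io, lab]))
  | m + 1, k, s, l, t, hl, ht, h => by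
    obtain ⟨a, l, rfl⟩ := List.exists_cons_of_length_eq_add_one hl
    obtain ⟨b, t, rfl⟩ := List.exists_cons_of_length_eq_add_one ht
    have hl' : l.length = m + 1 := by simpa using hl
    have ht' : t.length = m + 1 := by simpa using ht
    have h1 : ∀ g : Fin N, sL m (fun M : List (Fin N) => uu N k (s :: lab s (io (g :: M))) (a :: l) *
        (uu N k (s :: lab s (io (g :: M))) (b :: t))⁻¹) =
        ph N k s (a : ℕ) * (ph N k s (b : ℕ))⁻¹ * (cs N (-(2 * ((g : ℕ) : ℝ) *
          ((wl t : ℤ) - (wl l : ℤ) : ℤ))) * sL m (fun M : List (Fin N) => uu N (k + 1) (s :: lab s (io M)) l *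
            (uu N (k + 1) (s :: lab s (io M)) t)⁻¹)) := by
      intro g
      rw [← sL_mul, ← sL_mul]
      refine sL_congr _ _ _ fun M _ => ?_
      have e1 : lab s (io (g :: M)) = (s :: lab s (io M)).map (· + (-((g : ℕ) : ℤ))) := by
        show (s - ((g : ℕ) : ℤ)) :: lab (s - ((g : ℕ) : ℤ)) (io M) = _
        rw [List.map_cons, ← lab_add, sub_eq_add_neg]
      rw [e1, uu, uu, uu_addc, uu_addc, mul_inv, mul_inv]
      have e2 : cs N (-(2 * ((-((g : ℕ) : ℤ) : ℤ) : ℝ) * (wl l : ℕ))) *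
          (cs N (-(2 * ((-((g : ℕ) : ℤ) : ℤ) : ℝ) * (wl t : ℕ))))⁻¹ =
          cs N (-(2 * ((g : ℕ) : ℝ) * ((wl t : ℤ) - (wl l : ℤ) : ℤ))) := by
        rw [← cs_neg, ← cs_add]
        congr 1
        push_cast
        ring
      linear_combination (ph N k s (a : ℕ) * (ph N k s (b : ℕ))⁻¹ *
        uu N (k + 1) (s :: lab s (io M)) l * (uu N (k + 1) (s :: lab s (io M)) t)⁻¹) * e2
    show ∑ g : Fin N, sL m _ = _
    rw [Finset.sum_congr rfl fun g _ => h1 g, ← Finset.mul_sum, ← Finset.sum_mul, sum_fin_cs hN]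
    by_cases hw : (N : ℤ) ∣ (wl t : ℤ) - (wl l : ℤ)
    · rw [if_pos hw]
      have hw' : (N : ℤ) ∣ (wl l : ℤ) - (wl t : ℤ) := by rw [← dvd_neg, neg_sub]; exact hw
      have hab : a = b := by
        have h1 : (N : ℤ) ∣ ((a : ℕ) : ℤ) - ((b : ℕ) : ℤ) := by
          have h2 := dvd_sub h hw'
          have e : ((wl (a :: l) : ℕ) : ℤ) - (wl (b :: t) : ℕ) - ((wl l : ℤ) - (wl t : ℤ)) =
              ((a : ℕ) : ℤ) - ((b : ℕ) : ℤ) := by
            simp only [wl]; push_cast; ring
          rwa [e] at h2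
        apply Fin.ext
        have ha1 := a.2
        have ha2 := b.2
        by_contra hne
        have h4 := Int.le_of_dvd (a := (N : ℤ)) (b := |((a : ℕ) : ℤ) - ((b : ℕ) : ℤ)|) (by
          rw [abs_pos]; omega) ((dvd_abs _ _).2 h1)
        have h5 : |((a : ℕ) : ℤ) - ((b : ℕ) : ℤ)| < N := by
          rw [abs_lt]; constructor <;> omega
        omega
      subst hab
      rw [inv_core hN m (k + 1) s l t hl' ht' hw', mul_inv_cancel₀
        (show ph N k s (a : ℕ) ≠ 0 from cs_ne _ _), one_mul]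
      by_cases hlt : l = t
      · rw [if_pos hlt, if_pos (by rw [hlt]), pow_succ]; ring
      · rw [if_neg hlt, if_neg (by simpa using hlt), mul_zero]
    · rw [if_neg hw, zero_mul, mul_zero, if_neg]
      intro h'
      apply hw
      have := (List.cons.inj h').2
      rw [this, sub_self]
      exact dvd_zero _

/-- the gaps of a state at the bottom -/
def Gp (M : List (Fin N)) (y : Fin N) : List ℤ := 0 :: (io M ++ [((y : ℕ) : ℤ)])

lemma Gp_len (M : List (Fin N)) (y : Fin N) : (Gp M y).length = M.length + 2 := by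
  simp [Gp, io]

lemma Gp_nn (M : List (Fin N)) (y : Fin N) : ∀ g ∈ Gp M y, 0 ≤ g := by
  intro g hg
  simp only [Gp, io, List.mem_cons, List.mem_append, List.mem_map, List.not_mem_nil,
    or_false] at hg
  rcases hg with rfl | ⟨x, _, rfl⟩ | rfl
  · exact le_rfl
  · positivity
  · positivity

lemma str_Gp (M : List (Fin N)) (y : Fin N) : str 0 (Gp M y) = 0 :: lab 0 (io M) := by
  unfold Gp
  rw [str_ends, sub_zero]

open Classical in
/-- the sum over the last gap -/
lemma sum_y (hN : 0 < N) (M : List (Fin N)) (t : List (Fin N)) (h : t.length = M.length + 1) :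
    ∑ y : Fin N, (if kl t = kG N (Gp M y) then (1 : ℂ) else 0) = 1 := by
  have h1 : ∀ y : Fin N, (kl t = kG N (Gp M y) ↔ (N : ℤ) ∣ ((y : ℕ) : ℤ) -
      (-((io M).sum + wl t + t.length))) := by
    intro y
    rw [kl_kG hN _ _ (by rw [Gp_len, h])]
    have : (Gp M y).sum = (io M).sum + ((y : ℕ) : ℤ) := by simp [Gp]
    rw [this]
    have e : (io M).sum + ((y : ℕ) : ℤ) + wl t + t.length =
      ((y : ℕ) : ℤ) - (-((io M).sum + wl t + t.length)) := by ring
    rw [e]
  simp only [h1]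
  exact sum_res1 hN _ (fun _ => 1) fun _ _ => rfl

open Classical in
/-- **the trace of an operator in the Fourier basis.** -/
theorem trace_four (hN : 0 < N) (m : ℕ) {F : (List (Fin N) → ℂ) → List (Fin N) → ℂ}
    (hF : Lc (m + 1) (m + 1) F) :
    ∑ t : Fin (m + 1) → Fin N, F (dl (List.ofFn t)) (List.ofFn t) =
      ((N : ℂ) ^ m)⁻¹ * sL m (fun M => ∑ y : Fin N, sL (m + 1) (fun t =>
        if kl t = kG N (Gp M y) then (UU N (str 0 (Gp M y)) t)⁻¹ * F (US N 0 (Gp M y)) t else 0)) := by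
  have hNm : (N : ℂ) ^ m ≠ 0 := pow_ne_zero _ (by exact_mod_cast hN.ne')
  have hone : ∀ t : List (Fin N), t.length = m + 1 → F (dl t) t = ((N : ℂ) ^ m)⁻¹ *
      sL m (fun M => ∑ y : Fin N, (if kl t = kG N (Gp M y) then
        (UU N (str 0 (Gp M y)) t)⁻¹ * F (US N 0 (Gp M y)) t else 0)) := by
    intro t ht
    have h1 : ∀ l : List (Fin N), l.length = m + 1 → kl l = kl t → dl t l = ((N : ℂ) ^ m)⁻¹ *
        (∑ M : Fin m → Fin N, ∑ y : Fin N, (if kl t = kG N (Gp (List.ofFn M) y) then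
          (UU N (str 0 (Gp (List.ofFn M) y)) t)⁻¹ else 0) * US N 0 (Gp (List.ofFn M) y) l) := by
      intro l hl hk
      have hw : (N : ℤ) ∣ (wl l : ℤ) - wl t := by
        rw [Pool.Agent.Q191.TW.kl_eq, Pool.Agent.Q191.TW.kl_eq, rt_eq_iff hN, hl, ht] at hk
        obtain ⟨k, hk⟩ := hk
        refine ⟨-k, ?_⟩
        have h2 : 2 * ((wl l : ℤ) - wl t) = 2 * (N * -k) := by linear_combination -hk
        linarith
      have h2 := inv_core hN m 0 0 l t hl ht hw
      have h3 : ∀ M : Fin m → Fin N, ∑ y : Fin N, (if kl t = kG N (Gp (List.ofFn M) y) then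
          (UU N (str 0 (Gp (List.ofFn M) y)) t)⁻¹ else 0) * US N 0 (Gp (List.ofFn M) y) l =
          uu N 0 (0 :: lab 0 (io (List.ofFn M))) l * (uu N 0 (0 :: lab 0 (io (List.ofFn M))) t)⁻¹ := by
        intro M
        have h4 := sum_y hN (List.ofFn M) t (by simp [ht])
        have h5 : ∀ y : Fin N, (if kl t = kG N (Gp (List.ofFn M) y) then
            (UU N (str 0 (Gp (List.ofFn M) y)) t)⁻¹ else 0) * US N 0 (Gp (List.ofFn M) y) l =
            (if kl t = kG N (Gp (List.ofFn M) y) then (1 : ℂ) else 0) *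
            (uu N 0 (0 :: lab 0 (io (List.ofFn M))) l *
              (uu N 0 (0 :: lab 0 (io (List.ofFn M))) t)⁻¹) := by
          intro y
          by_cases hy : kl t = kG N (Gp (List.ofFn M) y)
          · rw [if_pos hy, if_pos hy, US, if_pos (hk.trans hy), str_Gp, UU, UU, mul_inv]
            have := nu_ne (N := N) (0 :: lab 0 (io (List.ofFn M))).sum
            field_simp
          · rw [if_neg hy, if_neg hy, zero_mul, zero_mul]
        rw [Finset.sum_congr rfl fun y _ => h5 y, ← Finset.sum_mul, h4, one_mul]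
      rw [Finset.sum_congr rfl fun M _ => h3 M,
        sL_eq m (fun M => uu N 0 (0 :: lab 0 (io M)) l * (uu N 0 (0 :: lab 0 (io M)) t)⁻¹), h2, dl]
      by_cases hlt : l = t
      · rw [if_pos hlt, if_pos hlt, inv_mul_cancel₀ hNm]
      · rw [if_neg hlt, if_neg hlt, mul_zero]
    rw [hF.loc _ _ t ht fun l hl hk => h1 l hl hk, hF.smul _ _ t ht, hF.sum _ _ t ht]
    congr 1
    rw [← sL_eq]
    refine Finset.sum_congr rfl fun M _ => ?_
    rw [hF.sum _ _ t ht]
    refine Finset.sum_congr rfl fun y _ => ?_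
    rw [hF.smul _ _ t ht]
    split_ifs
    · rfl
    · rw [zero_mul]
  have h6 := sL_eq (m + 1) (fun t => F (dl t) t)
  rw [h6, sL_congr (m + 1) _ _ hone, sL_mul]
  congr 1
  rw [sL_comm]
  refine sL_congr _ _ _ fun M _ => ?_
  rw [sL_sum]

end Pool.Agent.H760.TT
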