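import Pool.Agent.H760.TT.Comb

/-!
# Fully augmented links in the thickened torus, part 8: the generic weighting and integer solutions
-/

set_option autoImplicit false

namespace Pool.Agent.H760.TT

open Finset
open Pool.Agent.Q99.FAL

/-- a matrix with row and column sums `1` has a positive generalised diagonal -/
lemma birk {n : ℕ} (M : Fin n → Fin n → ℝ) (h0 : ∀ i j, 0 ≤ M i j) (h1 : ∀ i, ∑ j, M i j = 1)
    (h2 : ∀ j, ∑ i, M i j = 1) : ∃ σ : Fin n → Fin n, Function.Injective σ ∧ ∀ i, 0 < M i (σ i) := by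
  classical
  let f (i : Fin n) : Finset (Fin n) := univ.filter fun j => M i j ≠ 0
  have hf (A : Finset (Fin n)) : A.card ≤ (A.biUnion f).card := by
    have k1 : ∀ i, ∑ j ∈ f i, M i j = 1 := by
      intro i
      rw [← h1 i]
      refine sum_subset (filter_subset _ _) fun j _ hj => ?_
      by_contra h
      exact hj (mem_filter.2 ⟨mem_univ _, h⟩)
    have k2 : (A.card : ℝ) = ∑ i ∈ A, ∑ j ∈ f i, M i j := by simp [k1]
    have k3 : ((A.biUnion f).card : ℝ) = ∑ i, ∑ j ∈ A.biUnion f, M i j := by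
      rw [sum_comm]
      simp [h2]
    have k4 : (A.card : ℝ) ≤ (A.biUnion f).card := by
      rw [k2, k3]
      refine le_trans ?_ (sum_le_sum_of_subset_of_nonneg (subset_univ A) fun _ _ _ =>
        sum_nonneg fun j _ => h0 _ _)
      exact sum_le_sum fun i hi => sum_le_sum_of_subset_of_nonneg (subset_biUnion_of_mem f hi)
        fun _ _ _ => h0 _ _
    exact_mod_cast k4
  obtain ⟨g, hg, hg'⟩ := (all_card_le_biUnion_card_iff_exists_injective f).1 hf
  refine ⟨g, hg, fun i => lt_of_le_of_ne (h0 _ _) (Ne.symm ?_)⟩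
  exact (mem_filter.1 (hg' i)).2

/-! ### the generic weighting -/

/-- the generic weighting -/
def gA (c : ℕ) : Fin c → Fin 6 → (Fin c → Fin 6 → ℤ) :=
  fun b i b' i' => if b = b' ∧ i = i' then 1 else 0

section gen
variable {R : Type} [AddCommGroup R] {c : ℕ}

/-- evaluation at a weighting -/
def evx (x : Fin c → Fin 6 → R) : (Fin c → Fin 6 → ℤ) →+ R where
  toFun w := ∑ b, ∑ i, w b i • x b i
  map_zero' := by simp
  map_add' w w' := by simp [add_smul, sum_add_distrib]

lemma evx_apply (x : Fin c → Fin 6 → R) (w : Fin c → Fin 6 → ℤ) :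
    evx x w = ∑ b, ∑ i, w b i • x b i := rfl

lemma evx_gA (x : Fin c → Fin 6 → R) (b : Fin c) (i : Fin 6) : evx x (gA c b i) = x b i := by
  rw [evx_apply, sum_eq_single b, sum_eq_single i]
  · simp [gA]
  · intro i' _ hi; simp [gA, Ne.symm hi]
  · intro h; exact absurd (mem_univ _) h
  · intro b' _ hb; simp [gA, Ne.symm hb]
  · intro h; exact absurd (mem_univ _) h

/-- one coordinate -/
def evc (b : Fin c) (i : Fin 6) : (Fin c → Fin 6 → ℤ) →+ ℤ where
  toFun w := w b i
  map_zero' := rfl
  map_add' _ _ := rfl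

end gen

variable {D : List Vx} {k m : ℕ}

/-- the sums of the regions at the generic weighting -/
def Cl (k m : ℕ) (D : List Vx) : List (Fin D.length → Fin 6 → ℤ) :=
  clo D (gA D.length) (0, Gof k m D (gA D.length))

/-- the corners of a region -/
def Cf (k m : ℕ) (D : List Vx) (r : Fin D.length) : Fin D.length → Fin 6 → ℤ :=
  (Cl k m D).getD r 0

lemma ofFn_getD {α : Type} (l : List α) (d : α) (n : ℕ) (h : l.length = n) :
    List.ofFn (fun r : Fin n => l.getD r d) = l := by
  subst h
  apply List.ext_getElem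
  · simp
  · intro i h1 h2
    simp [List.getD_eq_getElem?_getD, h2]

lemma Cl_len (h : Val D (m + 1) (m + 1)) : (Cl k m D).length = D.length := by
  have := clo_len D (m + 1) (m + 1) h (gA D.length) (0, Gof k m D (gA D.length))
    (Gof_len h k (gA D.length))
  unfold Cl
  omega

lemma Cl_eq (h : Val D (m + 1) (m + 1)) : List.ofFn (Cf k m D) = Cl k m D :=
  ofFn_getD _ _ _ (Cl_len h)

section gen
variable {R : Type} [AddCommGroup R]

lemma clo_gen (x : Fin D.length → Fin 6 → R) :
    clo D x (0, Gof k m D x) = (Cl k m D).map (evx x) := by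
  have h := clo_Gof (D := D) (m := m) (evx x) k (gA D.length)
  have e : (fun b i => evx x (gA D.length b i)) = x := by
    funext b i
    exact evx_gA x b i
  rw [e] at h
  exact h

lemma TS_iff (h : Val D (m + 1) (m + 1)) (x : Fin D.length → Fin 6 → R) (u : R) :
    TS k m D x u ↔ (∀ b, n1 (x b) + n2 (x b) = u) ∧ ∀ r, evx x (Cf k m D r) = u := by
  unfold TS
  rw [clo_gen, ← Cl_eq h]
  simp [List.mem_ofFn]

end gen

lemma Gof_nn (h : Val D (m + 1) (m + 1)) (a : Fin D.length → Fin 6 → ℤ) (ha : ∀ b i, 0 ≤ a b i) :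
    ∀ g ∈ Gof k m D a, 0 ≤ g := by
  unfold Gof
  induction k with
  | zero =>
    intro g hg
    rw [Function.iterate_zero, id] at hg
    rw [List.eq_of_mem_replicate hg]
  | succ k ih =>
    rw [Function.iterate_succ_apply']
    unfold turn
    have hl := it_len h a k (List.replicate (m + 2) 0) (by simp)
    exact nrm_nn _ m (fin_len D (m + 1) (m + 1) h a (0, _) hl)
      (fin_nn D (m + 1) (m + 1) h a (0, _) ha hl ih).1

lemma Cf_nn (h : Val D (m + 1) (m + 1)) (r : Fin D.length) (b : Fin D.length) (i : Fin 6) :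
    0 ≤ Cf k m D r b i := by
  have h1 : Cf k m D r ∈ Cl k m D := by
    rw [← Cl_eq h]
    exact (List.mem_ofFn' _ _).2 ⟨r, rfl⟩
  have h2 : evc b i (Cf k m D r) ∈ clo D (fun b' i' => evc b i (gA D.length b' i'))
      (0, Gof k m D (fun b' i' => evc b i (gA D.length b' i'))) := by
    rw [clo_Gof (evc b i) k]
    exact List.mem_map_of_mem h1
  have h3 : ∀ b' i', 0 ≤ evc b i (gA D.length b' i') := by
    intro b' i'
    show 0 ≤ gA D.length b' i' b i
    unfold gA
    split_ifs <;> norm_num
  exact (fin_nn D (m + 1) (m + 1) h _ (0, _) h3 (Gof_len h k _) (Gof_nn h _ h3)).2 _ h2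

/-- the sum of the closed regions -/
lemma clo_tot {R : Type} [AddCommGroup R] (h : Val D (m + 1) (m + 1))
    (a : Fin D.length → Fin 6 → R) (G : List R) (hG : G.length = m + 2) (hf : turn D a G = G) :
    (clo D a (0, G)).sum = ∑ b, (n1 (a b) + n2 (a b)) := by
  have h1 := fin_sum D (m + 1) (m + 1) h a (0, G) hG
  have h2 : (nrm (fin D a (0, G)).2).sum = (fin D a (0, G)).2.sum :=
    nrm_sum _ m (fin_len D (m + 1) (m + 1) h a (0, G) hG)
  unfold turn at hf
  rw [hf] at h2
  rw [← h2] at h1
  exact add_left_cancel h1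

lemma Cf_sum (h : Val D (m + 1) (m + 1)) (hC : Cell D m k) (b : Fin D.length) (i : Fin 6) :
    ∑ r, Cf k m D r b i = 1 := by
  have h1 := clo_tot h (fun b' i' => evc b i (gA D.length b' i')) _
    (Gof_len h k (fun b' i' => evc b i (gA D.length b' i'))) (fixZ h hC _)
  rw [clo_Gof (evc b i) k] at h1
  have h2 : (clo D (gA D.length) (0, Gof k m D (gA D.length))) = List.ofFn (Cf k m D) :=
    (Cl_eq h).symm
  rw [h2, List.map_ofFn, List.sum_ofFn] at h1
  have h3 : ∀ b' : Fin D.length, n1 (fun i' => evc b i (gA D.length b' i')) +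
      n2 (fun i' => evc b i (gA D.length b' i')) = if b' = b then 1 else 0 := by
    intro b'
    by_cases hb : b' = b
    · rw [if_pos hb]
      unfold n1 n2
      show gA _ b' 0 b i + gA _ b' 1 b i + gA _ b' 2 b i +
        (gA _ b' 3 b i + gA _ b' 4 b i + gA _ b' 5 b i) = 1
      unfold gA
      fin_cases i <;> simp [hb]
    · rw [if_neg hb]
      unfold n1 n2
      show gA _ b' 0 b i + gA _ b' 1 b i + gA _ b' 2 b i +
        (gA _ b' 3 b i + gA _ b' 4 b i + gA _ b' 5 b i) = 0
      unfold gA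
      simp [hb]
  simp only [h3, Finset.sum_ite_eq', Finset.mem_univ, if_true] at h1
  exact h1

/-- **there is an integer solution** -/
theorem exists_a0 (h : Val D (m + 1) (m + 1)) (hC : Cell D m k) (a : Fin D.length → Fin 6 → ℝ)
    (ha : ∀ b i, 0 ≤ a b i) (hs : TS k m D a 1) :
    ∃ a0 : Fin D.length → Fin 6 → ℤ, (∀ b i, 0 ≤ a0 b i) ∧ TS k m D a0 1 := by
  rw [TS_iff h] at hs
  have hCR : ∀ b i, ∑ r, ((Cf k m D r b i : ℤ) : ℝ) = 1 := by
    intro b i
    rw [← Int.cast_sum, Cf_sum h hC b i]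
    simp
  obtain ⟨σ, hσ, hpos⟩ := birk (fun b r => ∑ i, ((Cf k m D r b i : ℤ) : ℝ) * a b i)
    (fun b r => sum_nonneg fun i _ => mul_nonneg (by exact_mod_cast Cf_nn h r b i) (ha b i))
    (fun b => by
      rw [sum_comm]
      simp only [← sum_mul, hCR, one_mul]
      have := hs.1 b
      unfold n1 n2 at this
      rw [← this, Fin.sum_univ_six]
      ring)
    (fun r => by
      have := hs.2 r
      rw [evx_apply] at this
      simpa only [zsmul_eq_mul] using this)
  have hex : ∀ b, ∃ i, Cf k m D (σ b) b i = 1 := by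
    intro b
    obtain ⟨i, -, hi⟩ := exists_ne_zero_of_sum_ne_zero (hpos b).ne'
    have h1 : Cf k m D (σ b) b i ≠ 0 := by
      intro h0
      apply hi
      simp [h0]
    have h2 := Cf_nn (k := k) h (σ b) b i
    have h3 : Cf k m D (σ b) b i ≤ ∑ r, Cf k m D r b i :=
      single_le_sum (f := fun r => Cf k m D r b i) (fun r _ => Cf_nn h r b i) (mem_univ _)
    rw [Cf_sum h hC] at h3
    exact ⟨i, by omega⟩
  choose ι hι using hex
  have hz : ∀ b r, r ≠ σ b → Cf k m D r b (ι b) = 0 := by
    intro b r hr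
    have h3 : Cf k m D r b (ι b) + Cf k m D (σ b) b (ι b) ≤ ∑ r, Cf k m D r b (ι b) := by
      rw [← sum_pair (f := fun r => Cf k m D r b (ι b)) hr]
      exact sum_le_sum_of_subset_of_nonneg (subset_univ _) fun r _ _ => Cf_nn h r b _
    rw [Cf_sum h hC, hι] at h3
    have := Cf_nn (k := k) h r b (ι b)
    omega
  refine ⟨fun b i => if i = ι b then 1 else 0, fun b i => by dsimp only; split_ifs <;> norm_num, ?_⟩
  rw [TS_iff h]
  refine ⟨fun b => ?_, fun r => ?_⟩
  · unfold n1 n2
    have := ι b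
    generalize ι b = j
    fin_cases j <;> simp
  · rw [evx_apply]
    have hbij : Function.Bijective σ := Finite.injective_iff_bijective.1 hσ
    obtain ⟨b, rfl⟩ := hbij.2 r
    rw [sum_eq_single b]
    · simp [hι]
    · intro b' _ hb
      have : σ b ≠ σ b' := fun h => hb (hσ h).symm
      simp [hz b' (σ b) this]
    · intro h; exact absurd (mem_univ _) h

end Pool.Agent.H760.TT
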