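import Pool.Agent.H760.TT.Geo

/-!
# Fully augmented links in the thickened torus, part 18: the developing map at a vertex
-/

set_option autoImplicit false

namespace Pool.Agent.H760.TT

open Finset
open Pool.Agent.Q99.FAL
open Pool.Agent.Q237.FAL (mid ccl dec stp_eq cls_eq mid_len)

/-- geometric angles at a vertex: the radii of the circles fit together -/
def G4 (x : Fin 6 → ℝ) (κ : Fin 4 → ℝ) : Prop :=
  (∀ i, 0 < x i) ∧ n1 x = 1 / 2 ∧ n2 x = 1 / 2 ∧
    ∃ F : Fin 2 → ℝ, ∀ i, Real.log (Real.tan (Real.pi * x i)) = F (t6 i) + κ (c6 i)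

lemma sc_pos {x : ℝ} (h0 : 0 < x) (h1 : x < 1 / 2) :
    0 < Real.sin (Real.pi * x) ∧ 0 < Real.cos (Real.pi * x) := by
  have hpi := Real.pi_pos
  exact ⟨Real.sin_pos_of_pos_of_lt_pi (by positivity) (by nlinarith),
    Real.cos_pos_of_mem_Ioo ⟨by nlinarith, by nlinarith⟩⟩

lemma rd_of {x F κ : ℝ} (h0 : 0 < x) (h1 : x < 1 / 2)
    (h : Real.log (Real.tan (Real.pi * x)) = F + κ) :
    rd κ = Real.exp F * Real.cos (Real.pi * x) / Real.sin (Real.pi * x) := by
  obtain ⟨hs, hc⟩ := sc_pos h0 h1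
  have ht : 0 < Real.tan (Real.pi * x) := by
    rw [Real.tan_eq_sin_div_cos]
    positivity
  have h2 : Real.tan (Real.pi * x) = Real.exp F * Real.exp κ := by
    rw [← Real.exp_add, ← h, Real.exp_log ht]
  rw [Real.tan_eq_sin_div_cos, div_eq_iff hc.ne'] at h2
  unfold rd
  rw [Real.exp_neg, eq_div_iff hs.ne', h2]
  have := Real.exp_ne_zero κ
  field_simp

/-- a triangle of mutually tangent circles -/
lemma tri {a b c f : ℝ} (ha : 0 < a) (hb : 0 < b) (hc : 0 < c) (hs : a + b + c = 1 / 2)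
    {A B C : ℝ} (hA : A = f * Real.cos (Real.pi * a) / Real.sin (Real.pi * a))
    (hB : B = f * Real.cos (Real.pi * b) / Real.sin (Real.pi * b))
    (hC : C = f * Real.cos (Real.pi * c) / Real.sin (Real.pi * c)) :
    ((A + B : ℝ) : ℂ) - ((B + C : ℝ) : ℂ) * ev b = ((A + C : ℝ) : ℂ) * ev (-a) := by
  obtain ⟨sa, -⟩ := sc_pos ha (by linarith)
  obtain ⟨sb, -⟩ := sc_pos hb (by linarith)
  obtain ⟨sc, -⟩ := sc_pos hc (by linarith)
  have e1 : Real.sin (Real.pi * c) = Real.cos (Real.pi * a) * Real.cos (Real.pi * b) -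
      Real.sin (Real.pi * a) * Real.sin (Real.pi * b) := by
    have : Real.pi * c = Real.pi / 2 - (Real.pi * a + Real.pi * b) := by
      have : c = 1 / 2 - a - b := by linarith
      rw [this]
      ring
    rw [this, Real.sin_pi_div_two_sub, Real.cos_add]
  have e2 : Real.cos (Real.pi * c) = Real.sin (Real.pi * a) * Real.cos (Real.pi * b) +
      Real.cos (Real.pi * a) * Real.sin (Real.pi * b) := by
    have : Real.pi * c = Real.pi / 2 - (Real.pi * a + Real.pi * b) := by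
      have : c = 1 / 2 - a - b := by linarith
      rw [this]
      ring
    rw [this, Real.cos_pi_div_two_sub, Real.sin_add]
  have pa := Real.sin_sq_add_cos_sq (Real.pi * a)
  have pb := Real.sin_sq_add_cos_sq (Real.pi * b)
  have d1 : Real.cos (2 * Real.pi * b) = Real.cos (Real.pi * b) ^ 2 - Real.sin (Real.pi * b) ^ 2 := by
    rw [show 2 * Real.pi * b = 2 * (Real.pi * b) by ring, Real.cos_two_mul]
    linarith
  have d2 : Real.sin (2 * Real.pi * b) = 2 * Real.sin (Real.pi * b) * Real.cos (Real.pi * b) := by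
    rw [show 2 * Real.pi * b = 2 * (Real.pi * b) by ring, Real.sin_two_mul]
  have d3 : Real.cos (2 * Real.pi * -a) = Real.cos (Real.pi * a) ^ 2 - Real.sin (Real.pi * a) ^ 2 := by
    rw [show 2 * Real.pi * -a = -(2 * (Real.pi * a)) by ring, Real.cos_neg, Real.cos_two_mul]
    linarith
  have d4 : Real.sin (2 * Real.pi * -a) =
      -(2 * Real.sin (Real.pi * a) * Real.cos (Real.pi * a)) := by
    rw [show 2 * Real.pi * -a = -(2 * (Real.pi * a)) by ring, Real.sin_neg, Real.sin_two_mul]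
  rw [e2] at hC
  generalize Real.sin (Real.pi * a) = p at *
  generalize Real.cos (Real.pi * a) = q at *
  generalize Real.sin (Real.pi * b) = r at *
  generalize Real.cos (Real.pi * b) = t at *
  generalize Real.sin (Real.pi * c) = u at *
  have hAB : A + B = f * (p * t + q * r) / (p * r) := by
    rw [hA, hB]
    field_simp
    ring
  have hBC : B + C = f * q / (r * u) := by
    rw [hB, hC]
    have : t * u + (p * t + q * r) * r = q := by
      rw [e1]
      linear_combination q * pb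
    rw [div_add_div _ _ sb.ne' sc.ne', div_eq_div_iff (by positivity) (by positivity)]
    linear_combination (f * (r * u)) * this
  have hAC : A + C = f * t / (p * u) := by
    rw [hA, hC]
    have : q * u + (p * t + q * r) * p = t := by
      rw [e1]
      linear_combination t * pa
    rw [div_add_div _ _ sa.ne' sc.ne', div_eq_div_iff (by positivity) (by positivity)]
    linear_combination (f * (p * u)) * this
  apply Complex.ext
  · rw [Complex.sub_re, Complex.re_ofReal_mul, Complex.re_ofReal_mul, ev_re, ev_re,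
      Complex.ofReal_re, d1, d3, hAB, hBC, hAC]
    field_simp
    rw [e1]
    ring
  · rw [Complex.sub_im, Complex.im_ofReal_mul, Complex.im_ofReal_mul, ev_im, ev_im,
      Complex.ofReal_im, d2, d4, hBC, hAC]
    field_simp
    ring

/-- the edges of the quadrilateral of a vertex -/
noncomputable def qd (x : Fin 6 → ℝ) (κ : Fin 4 → ℝ) (e : ℂ) : Fin 4 → ℂ :=
  ![-(((rd (κ 0) + rd (κ 1) : ℝ) : ℂ) * (e * ev (x 0))),
    ((rd (κ 1) + rd (κ 2) : ℝ) : ℂ) * (e * ev (x 0 + (x 1 + x 4))),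
    -(((rd (κ 2) + rd (κ 3) : ℝ) : ℂ) * (e * ev (x 0 + (x 1 + x 4) + x 3))),
    ((rd (κ 3) + rd (κ 0) : ℝ) : ℂ) * e]

lemma qd_sum {x : Fin 6 → ℝ} {κ : Fin 4 → ℝ} (h : G4 x κ) (e : ℂ) :
    qd x κ e 3 = -(qd x κ e 0 + qd x κ e 1 + qd x κ e 2) := by
  obtain ⟨hp, h1, h2, F, hF⟩ := h
  unfold n1 at h1
  unfold n2 at h2
  have p0 := hp 0
  have p1 := hp 1
  have p2 := hp 2
  have p3 := hp 3
  have p4 := hp 4
  have p5 := hp 5
  have r0 : rd (κ 0) = _ := rd_of p0 (by linarith) (hF 0)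
  have r1 : rd (κ 1) = _ := rd_of p1 (by linarith) (hF 1)
  have r2 : rd (κ 3) = _ := rd_of p2 (by linarith) (hF 2)
  have r3 : rd (κ 2) = _ := rd_of p3 (by linarith) (hF 3)
  have r4 : rd (κ 1) = _ := rd_of p4 (by linarith) (hF 4)
  have r5 : rd (κ 3) = _ := rd_of p5 (by linarith) (hF 5)
  have t1 := tri p2 p0 p1 (by linarith) r2 r0 r1
  have t2 := tri p4 p3 p5 (by linarith) r4 r3 r5
  have e1 : ev (x 0 + (x 1 + x 4)) * ev (-x 4) = -ev (-x 2) := by
    have : x 0 + (x 1 + x 4) + -x 4 = 1 / 2 + -x 2 := by linarith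
    rw [← ev_add, this, ev_add, ev_half]
    ring
  have e2 : ev (x 0 + (x 1 + x 4) + x 3) = ev (x 0 + (x 1 + x 4)) * ev (x 3) := ev_add _ _
  show ((rd (κ 3) + rd (κ 0) : ℝ) : ℂ) * e = -(-(((rd (κ 0) + rd (κ 1) : ℝ) : ℂ) *
    (e * ev (x 0))) + ((rd (κ 1) + rd (κ 2) : ℝ) : ℂ) * (e * ev (x 0 + (x 1 + x 4))) +
    -(((rd (κ 2) + rd (κ 3) : ℝ) : ℂ) * (e * ev (x 0 + (x 1 + x 4) + x 3))))
  rw [e2]
  have e3 : ((rd (κ 3) + rd (κ 1) : ℝ) : ℂ) = ((rd (κ 1) + rd (κ 3) : ℝ) : ℂ) := by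
    rw [add_comm]
  rw [e3] at t1
  linear_combination e * t1 + e * ev (x 0 + (x 1 + x 4)) * t2 +
    ((rd (κ 1) + rd (κ 3) : ℝ) : ℂ) * e * e1

lemma qd_area {x : Fin 6 → ℝ} {κ : Fin 4 → ℝ} (h : G4 x κ) (e : ℂ) (he : ‖e‖ = 1) :
    ((starRingEnd ℂ) (qd x κ e 3) * qd x κ e 0).im +
      ((starRingEnd ℂ) (qd x κ e 1) * qd x κ e 2).im < 0 := by
  obtain ⟨hp, h1, h2, -⟩ := h
  unfold n1 at h1
  unfold n2 at h2
  have p0 := hp 0
  have p1 := hp 1
  have p2 := hp 2
  have p3 := hp 3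
  have p4 := hp 4
  have p5 := hp 5
  have hee : (starRingEnd ℂ) e * e = 1 := by
    rw [← Complex.normSq_eq_conj_mul_self, Complex.normSq_eq_norm_sq, he]
    norm_num
  have hvv : ∀ s, (starRingEnd ℂ) (ev s) * ev s = 1 := by
    intro s
    rw [← Complex.normSq_eq_conj_mul_self, Complex.normSq_eq_norm_sq, ev_norm]
    norm_num
  have key : ∀ (u v s : ℝ) (E : ℂ), (starRingEnd ℂ) E * E = 1 →
      ((starRingEnd ℂ) ((u : ℂ) * E) * (-((v : ℂ) * (E * ev s)))).im =
      -(u * v * Real.sin (2 * Real.pi * s)) := by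
    intro u v s E hE
    have : (starRingEnd ℂ) ((u : ℂ) * E) * (-((v : ℂ) * (E * ev s))) =
        -(((u * v : ℝ) : ℂ) * (((starRingEnd ℂ) E * E) * ev s)) := by
      rw [map_mul, Complex.conj_ofReal]
      push_cast
      ring
    rw [this, hE, one_mul, Complex.neg_im, Complex.im_ofReal_mul, ev_im]
  have e2 : e * ev (x 0 + (x 1 + x 4) + x 3) = (e * ev (x 0 + (x 1 + x 4))) * ev (x 3) := by
    rw [ev_add _ (x 3), mul_assoc]
  have g1 : ((starRingEnd ℂ) (qd x κ e 3) * qd x κ e 0).im =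
      -((rd (κ 3) + rd (κ 0)) * (rd (κ 0) + rd (κ 1)) * Real.sin (2 * Real.pi * x 0)) :=
    key _ _ _ e hee
  have g2 : ((starRingEnd ℂ) (qd x κ e 1) * qd x κ e 2).im =
      -((rd (κ 1) + rd (κ 2)) * (rd (κ 2) + rd (κ 3)) * Real.sin (2 * Real.pi * x 3)) := by
    show ((starRingEnd ℂ) (((rd (κ 1) + rd (κ 2) : ℝ) : ℂ) * (e * ev (x 0 + (x 1 + x 4)))) *
      (-(((rd (κ 2) + rd (κ 3) : ℝ) : ℂ) * (e * ev (x 0 + (x 1 + x 4) + x 3))))).im = _
    rw [e2]
    refine key _ _ _ _ ?_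
    rw [map_mul]
    linear_combination (starRingEnd ℂ) e * e * hvv (x 0 + (x 1 + x 4)) + hee
  rw [g1, g2]
  have hpi := Real.pi_pos
  have s0 : 0 < Real.sin (2 * Real.pi * x 0) :=
    Real.sin_pos_of_pos_of_lt_pi (by positivity) (by nlinarith)
  have s3 : 0 < Real.sin (2 * Real.pi * x 3) :=
    Real.sin_pos_of_pos_of_lt_pi (by positivity) (by nlinarith)
  have q0 := rd_pos (κ 0)
  have q1 := rd_pos (κ 1)
  have q2 := rd_pos (κ 2)
  have q3 := rd_pos (κ 3)
  have := mul_pos (mul_pos (add_pos q3 q0) (add_pos q0 q1)) s0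
  have := mul_pos (mul_pos (add_pos q1 q2) (add_pos q2 q3)) s3
  linarith

end Pool.Agent.H760.TT
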