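import Pool.Agent.H760.TT.Geo4

/-!
# Fully augmented links in the thickened torus, part 21: the holonomies of the maximum are integral
-/

set_option autoImplicit false

namespace Pool.Agent.H760.TT

open Finset
open Pool.Agent.Q99.FAL
open Pool.Agent.Q237.FAL (mid ccl dec stp_eq cls_eq mid_len)

variable {D : List Vx} {k m : ℕ}

lemma ev_eq_one {s : ℝ} (h : ev s = 1) : ∃ j : ℤ, s = j := by
  unfold ev at h
  rw [Complex.exp_eq_one_iff] at h
  obtain ⟨n, hn⟩ := h
  refine ⟨n, ?_⟩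
  have hpi := Real.pi_pos.ne'
  have h1 := congrArg Complex.im hn
  simp at h1
  have h2 : Real.pi * (s - n) = 0 := by linarith
  rcases mul_eq_zero.1 h2 with h3 | h3
  · exact absurd h3 hpi
  · linarith

/-- the path above is a rotation of the path below -/
lemma top_eq (K x y c0 : ℝ) (M C : List ℝ) (h : C.length = M.length) :
    vp (K, x :: (M ++ [y])) (c0 :: (C ++ [c0])) =
      (vp (0, 0 :: (M ++ [y + x])) (c0 :: (C ++ [c0]))).map (ev (K - x) * ·) := by
  unfold vp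
  simp only
  rw [← vl_smul]
  have e1 : vl (-ev K) (c0 :: (C ++ [c0])) (x :: (M ++ [y])) =
      vl (ev (K - x) * -ev 0) (c0 :: (C ++ [c0])) (0 :: (M ++ [y])) := by
    apply vl_head
    rw [neg_zero, ev_zero, sub_eq_add_neg, ev_add]
    ring
  have e2 := vl_last (0 :: M) (c0 :: (C ++ [c0])) (by simp [h]) (ev (K - x) * -ev 0) y (y + x)
  rw [List.cons_append, List.cons_append] at e2
  rw [e1, e2]

/-- **the holonomies of the maximum are integral** -/
theorem flat_of (h : Val D (m + 1) (m + 1)) (hC : Cell D m k)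
    (a : Fin D.length → Fin 6 → ℝ) (ha : a ∈ AT k m D) (hpos : ∀ b i, 0 < a b i)
    (hmax : ∀ a' ∈ AT k m D, fV a' ≤ fV a) :
    ∃ j l : ℤ, (Gof k m D a).sum = ((m : ℝ) + 1) / 2 + j ∧
      Kf D a (Gof k m D a) = -(wr D : ℝ) / 2 + l := by
  obtain ⟨F, g, hr⟩ := exists_radii h hC a ha hpos hmax
  obtain ⟨c, hcl, hP, hCK⟩ := exists_CK h hC g
  have hG4 : ∀ b, G4 (a b) (kc k m D g b) := by
    intro b
    refine ⟨hpos b, ha.2.1 b, ?_, F b, fun i => ?_⟩
    · have h1 := ha.1.1 b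
      have h2 := ha.2.1 b
      linarith
    · rw [kc_val h, hr]
  have hfix := fixR h hC a
  have hGl : (Gof k m D a).length = m + 2 := Gof_len h k a
  have hone : ∀ v ∈ clo D a (0, Gof k m D a), v = 1 := ha.1.2
  obtain ⟨G, hG⟩ : ∃ G, G = Gof k m D a := ⟨_, rfl⟩
  rw [← hG] at hfix hGl hone ⊢
  obtain ⟨p1, p2⟩ := chain D (m + 1) (m + 1) h a _ c c hCK hcl hG4 (0, G) hGl hone
  have hfl := fin_len D _ _ h a (0, G) hGl
  obtain ⟨c0, C, rfl⟩ := hP
  obtain ⟨x, M, y, hf2, hM⟩ := exists_ends (n := m) hfl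
  obtain ⟨K, hK⟩ : ∃ K, K = (fin D a (0, G)).1 := ⟨_, rfl⟩
  have hfin : fin D a (0, G) = (K, x :: (M ++ [y])) := by
    rw [hK, ← hf2]
  have hG0 : G = 0 :: (M ++ [y + x]) := by
    unfold turn at hfix
    rw [hf2, nrm_eq] at hfix
    exact hfix.symm
  have hCM : C.length = M.length := by
    simp at hcl
    omega
  have hKf : Kf D a G = K - x := by
    unfold Kf
    rw [hfin]
    rfl
  have htop := top_eq K x y c0 M C hCM
  rw [← hG0, ← hfin] at htop
  obtain ⟨u, hu⟩ : ∃ u, u = ev (K - x) := ⟨_, rfl⟩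
  have hun : ‖u‖ = 1 := by rw [hu, ev_norm]
  have hu0 : u ≠ 0 := by rw [hu]; exact ev_ne _
  rw [← hu] at htop
  have hsum : ∀ v : List ℂ, (v.map (u * ·)).sum = u * v.sum := by
    intro v
    induction v with
    | nil => simp
    | cons a v ih => rw [List.map_cons, List.sum_cons, List.sum_cons, ih]; ring
  rw [htop] at p1 p2
  rw [hsum] at p1 p2
  obtain ⟨bot, hbot⟩ : ∃ bot, bot = vp (0, G) (c0 :: (C ++ [c0])) := ⟨_, rfl⟩
  rw [← hbot] at p1 p2
  obtain ⟨H, hH⟩ : ∃ H, H = hh' G := ⟨_, rfl⟩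
  simp only at p1 p2
  rw [← hH] at p1 p2
  have hDne := D_ne hC
  -- the horizontal holonomy
  have hH1 : H = 1 := by
    by_contra hne
    have hH0 : H - 1 ≠ 0 := sub_ne_zero.2 hne
    obtain ⟨Z', hZ', -, hO⟩ := p1 (bot.sum / (H - 1)) (by field_simp; ring)
    have e : Z' = u * (bot.sum / (H - 1)) := by
      rw [mul_div_assoc', eq_div_iff hH0]
      linear_combination -hZ'
    have := hO hDne
    rw [e, Om_smul u hun] at this
    exact lt_irrefl _ this
  have hW : bot.sum ≠ 0 := by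
    intro hW
    obtain ⟨Z', -, -, hO⟩ := p1 0 (by rw [hW]; ring)
    have h1 := hO hDne
    have e : Z' = u * (0 + u⁻¹ * Z') := by
      rw [zero_add, ← mul_assoc, mul_inv_cancel₀ hu0, one_mul]
    rw [e, Om_smul u hun, Om_shift, hW, mul_zero, Complex.zero_im, add_zero] at h1
    exact lt_irrefl _ h1
  have hv := mul_right_cancel₀ hW (p2 hH1)
  rw [hu] at hv
  -- conclusion
  obtain ⟨l, hl⟩ := ev_eq_one (s := (K - x) - (wr D : ℝ) / 2) (by
    have h1 := ev_neg ((wr D : ℝ) / 2)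
    rw [sub_eq_add_neg, ev_add, hv, mul_comm]
    exact h1)
  obtain ⟨j, hj⟩ := ev_eq_one (s := ((m : ℝ) + 1) / 2 - G.sum) (by
    have h1 := neg_one_ev true (m + 1)
    rw [if_pos rfl] at h1
    have h2 : (((((m + 1 : ℕ) : ℤ)) : ℝ)) / 2 = ((m : ℝ) + 1) / 2 := by push_cast; ring
    rw [h2] at h1
    have h3 : H = (-1) ^ (m + 2 + 1) * ev (-G.sum) := by
      rw [hH]
      unfold hh'
      rw [hGl]
    rw [hH1] at h3
    rw [sub_eq_add_neg, ev_add, ← h1]
    linear_combination -h3)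
  refine ⟨-j, l + wr D, ?_, ?_⟩
  · push_cast
    linarith
  · rw [hKf]
    push_cast
    linarith

end Pool.Agent.H760.TT
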