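import Pool.Agent.H760.TT.Gen
import Pool.Graph.R_pool_sql_team_seeded_3997aac3.Q299.FAL.SP
import Pool.Graph.R_pool_sql_team_seeded_3997aac3.Q99.FAL.Stm4

/-!
# Fully augmented links in the thickened torus, part 9: the net
-/

set_option autoImplicit false

namespace Pool.Agent.H760.TT

open Finset
open Pool.Agent.Q99.FAL

variable {D : List Vx} {k m : ℕ}

/-- the homogeneous integer solutions -/
def LT (k m : ℕ) (D : List Vx) : Submodule ℤ (Fin D.length → Fin 6 → ℤ) where
  carrier := {δ | TS k m D δ 0}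
  add_mem' := by
    intro a b ha hb
    have := TS_add k a b 0 0 ha hb
    rw [add_zero] at this
    exact this
  zero_mem' := TS_zero k
  smul_mem' := by
    intro n δ h
    have := TS_map (AddMonoidHom.mulLeft n) k δ 0 h
    rw [map_zero] at this
    exact this

lemma mem_LT (δ : Fin D.length → Fin 6 → ℤ) : δ ∈ LT k m D ↔ TS k m D δ 0 := Iff.rfl

/-- the net of a diagram -/
def XT (k m : ℕ) (D : List Vx) (a0 : Fin D.length → Fin 6 → ℤ) : Net D.length := ⟨LT k m D, a0⟩

lemma TS_smulR (x : Fin D.length → Fin 6 → ℝ) (u r : ℝ) (h : TS k m D x u) :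
    TS k m D (r • x) (r * u) := TS_map (AddMonoidHom.mulLeft r) k x u h

/-- real solutions are in the span of the integer ones -/
theorem span_LT (x : Fin D.length → Fin 6 → ℝ) (hx : TS k m D x 0) :
    x ∈ Submodule.span ℝ (toR '' (LT k m D : Set (Fin D.length → Fin 6 → ℤ))) := by
  classical
  let B := Module.Basis.ofVectorSpace ℚ ℝ
  obtain ⟨s, hs⟩ : ∃ s : Finset (Module.Basis.ofVectorSpaceIndex ℚ ℝ),
      s = univ.biUnion fun q : Fin D.length × Fin 6 => (B.repr (x q.1 q.2)).support := ⟨_, rfl⟩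
  have hrepr : ∀ k i, x k i = ∑ j ∈ s, ((B.repr (x k i) j : ℚ) : ℝ) * B j := by
    intro k i
    have h1 := B.linearCombination_repr (x k i)
    rw [Finsupp.linearCombination_apply,
      Finsupp.sum_of_support_subset (s := s) _ (by
        rw [hs]
        exact subset_biUnion_of_mem (fun q : Fin D.length × Fin 6 => (B.repr (x q.1 q.2)).support)
          (mem_univ (k, i))) _ (fun j _ => by rw [zero_smul])] at h1
    rw [← h1]
    refine Finset.sum_congr rfl fun j _ => ?_
    rw [h1, Rat.smul_def]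
  have hden : ∀ j, ∃ (n : ℕ) (z : Fin D.length → Fin 6 → ℤ), n ≠ 0 ∧
      ∀ k i, (n : ℚ) * B.repr (x k i) j = z k i := by
    intro j
    obtain ⟨n, z, hn, hz⟩ := Pool.Agent.Q299.FAL.exists_den'
      fun q : Fin D.length × Fin 6 => B.repr (x q.1 q.2) j
    exact ⟨n, fun k i => z (k, i), hn, fun k i => hz (k, i)⟩
  choose n z hn hz using hden
  have hmem : ∀ j, z j ∈ LT k m D := by
    intro j
    rw [mem_LT]
    have h1 := TS_map (B.coord j).toAddMonoidHom k x 0 hx
    have h2 := TS_map (AddMonoidHom.mulLeft (n j : ℚ)) k _ _ h1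
    have h3 := TS_map (Rat.castHom ℝ).toAddMonoidHom k _ _ h2
    rw [map_zero, map_zero, map_zero] at h3
    rw [← TS_castR, Int.cast_zero]
    have e : (fun (b : Fin D.length) (i : Fin 6) => ((z j b i : ℤ) : ℝ)) =
        fun b i => (Rat.castHom ℝ).toAddMonoidHom (AddMonoidHom.mulLeft (n j : ℚ)
          ((B.coord j).toAddMonoidHom (x b i))) := by
      funext b i
      show _ = (((n j : ℚ) * B.repr (x b i) j : ℚ) : ℝ)
      rw [hz]
      exact (Rat.cast_intCast _).symm
    rw [e]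
    exact h3
  have hxe : x = ∑ j ∈ s, ((n j : ℝ)⁻¹ * B j) • toR (z j) := by
    funext k i
    rw [Finset.sum_apply, Finset.sum_apply, hrepr k i]
    refine Finset.sum_congr rfl fun j _ => ?_
    simp only [Pi.smul_apply, smul_eq_mul, toR]
    have h1 : ((z j k i : ℤ) : ℝ) = (n j : ℝ) * ((B.repr (x k i) j : ℚ) : ℝ) := by
      have := congrArg (fun q : ℚ => (q : ℝ)) (hz j k i)
      simp only [Rat.cast_mul, Rat.cast_natCast, Rat.cast_intCast] at this
      exact this.symm
    rw [h1]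
    have h2 : (n j : ℝ) ≠ 0 := by exact_mod_cast hn j
    field_simp
  rw [hxe]
  exact Submodule.sum_mem _ fun j _ => Submodule.smul_mem _ _
    (Submodule.subset_span ⟨z j, hmem j, rfl⟩)

lemma LR_TS (a0 : Fin D.length → Fin 6 → ℤ) (x : Fin D.length → Fin 6 → ℝ) :
    x ∈ (XT k m D a0).LR ↔ TS k m D x 0 := by
  constructor
  · intro hx
    unfold Net.LR at hx
    refine Submodule.span_induction (p := fun x _ => TS k m D x 0) ?_ ?_ ?_ ?_ hx
    · rintro _ ⟨δ, hδ, rfl⟩
      have := (TS_castR k δ 0).2 hδ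
      rw [Int.cast_zero] at this
      exact this
    · exact TS_zero k
    · intro a b _ _ ha hb
      have := TS_add k a b 0 0 ha hb
      rw [add_zero] at this
      exact this
    · intro r a _ ha
      have := TS_smulR a 0 r ha
      rw [mul_zero] at this
      exact this
  · exact span_LT x

/-- the angle structures -/
def AT (k m : ℕ) (D : List Vx) : Set (Fin D.length → Fin 6 → ℝ) :=
  {a | TS k m D a 1 ∧ (∀ b, n1 (a b) = 1 / 2) ∧ ∀ b i, 0 ≤ a b i}

lemma Ang_eq (a0 : Fin D.length → Fin 6 → ℤ) (h0 : TS k m D a0 1) :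
    (XT k m D a0).Ang = AT k m D := by
  have h0' : TS k m D (toR a0) 1 := by
    have := (TS_castR k a0 1).2 h0
    rw [Int.cast_one] at this
    exact this
  ext a
  constructor
  · rintro ⟨h1, h2, h3⟩
    rw [LR_TS] at h1
    have h4 := TS_add k _ _ _ _ h1 h0'
    rw [zero_add] at h4
    have e : (fun (b : Fin D.length) (i : Fin 6) => (a - toR (XT k m D a0).a0) b i + toR a0 b i) = a := by
      funext b i
      show a b i - toR a0 b i + toR a0 b i = a b i
      ring
    rw [e] at h4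
    exact ⟨h4, fun b => (h3 b).1, h2⟩
  · rintro ⟨h1, h2, h3⟩
    refine ⟨?_, h3, fun b => ⟨h2 b, ?_⟩⟩
    · rw [LR_TS]
      have := TS_sub k _ _ _ _ h1 h0'
      rw [sub_self] at this
      exact this
    · have := h1.1 b
      rw [h2 b] at this
      linarith

/-! ### the corners determine the sums -/

section cor
variable {R : Type} [AddCommGroup R]

lemma fin_cor : ∀ (D : List Vx) (a a' : Fin D.length → Fin 6 → R) (z : R × List R),
    (∀ b, cor (a b) = cor (a' b)) → fin D a z = fin D a' z ∧ clo D a z = clo D a' z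
  | [], _, _, _, _ => ⟨rfl, rfl⟩
  | V :: D, a, a', z, h => by
    have h0 : vst V (a 0) z = vst V (a' 0) z := by
      unfold vst
      rw [h 0]
    have h1 : vcl V (a 0) z = vcl V (a' 0) z := by
      unfold vcl
      rw [h 0]
    obtain ⟨i1, i2⟩ := fin_cor D (fun k => a k.succ) (fun k => a' k.succ) (vst V (a 0) z)
      (fun b => h b.succ)
    constructor
    · show fin D (fun k => a k.succ) (vst V (a 0) z) = fin D (fun k => a' k.succ) (vst V (a' 0) z)
      rw [← h0, i1]
    · show vcl V (a 0) z ++ clo D (fun k => a k.succ) (vst V (a 0) z) =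
        vcl V (a' 0) z ++ clo D (fun k => a' k.succ) (vst V (a' 0) z)
      rw [← h0, ← h1, i2]

lemma turn_cor (a a' : Fin D.length → Fin 6 → R) (G : List R)
    (h : ∀ b, cor (a b) = cor (a' b)) : turn D a G = turn D a' G := by
  unfold turn
  rw [(fin_cor D a a' (0, G) h).1]

lemma Gof_cor (a a' : Fin D.length → Fin 6 → R) (h : ∀ b, cor (a b) = cor (a' b)) :
    Gof k m D a = Gof k m D a' := by
  unfold Gof
  have : turn D a = turn D a' := by
    funext G
    exact turn_cor a a' G h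
  rw [this]

lemma TS_cor (a a' : Fin D.length → Fin 6 → R) (u : R) (h : ∀ b, cor (a b) = cor (a' b))
    (h2 : ∀ b, n1 (a b) + n2 (a b) = n1 (a' b) + n2 (a' b)) (ht : TS k m D a u) :
    TS k m D a' u := by
  refine ⟨fun b => by rw [← h2, ht.1], fun c hc => ?_⟩
  rw [← Gof_cor a a' h, ← (fin_cor D a a' (0, Gof k m D a) h).2] at hc
  exact ht.2 c hc

end cor

lemma eij_cor {c : ℕ} (b b' : Fin c) (i j : Fin 6) (h : (i = 1 ∧ j = 4) ∨ (i = 2 ∧ j = 5)) :
    cor (eij b i j b') = cor (fun _ => (0 : ℤ)) ∧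
      n1 (eij b i j b') + n2 (eij b i j b') = 0 := by
  constructor
  · funext q
    rcases h with ⟨rfl, rfl⟩ | ⟨rfl, rfl⟩ <;> by_cases hb : b' = b <;>
      fin_cases q <;> simp [cor, eij, hb]
  · rcases h with ⟨rfl, rfl⟩ | ⟨rfl, rfl⟩ <;> by_cases hb : b' = b <;>
      simp [n1, n2, eij, hb]

lemma eij_mem (b : Fin D.length) (i j : Fin 6) (h : (i = 1 ∧ j = 4) ∨ (i = 2 ∧ j = 5)) :
    eij b i j ∈ LT k m D := by
  rw [mem_LT]
  refine TS_cor (fun _ _ => 0) _ 0 (fun b' => ((eij_cor b b' i j h).1).symm) (fun b' => ?_)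
    (TS_zero k)
  rw [(eij_cor b b' i j h).2]
  simp [n1, n2]

/-- a positive angle structure is good -/
lemma good_T (a0 : Fin D.length → Fin 6 → ℤ) (h0 : TS k m D a0 1)
    (p : Fin D.length → Fin 6 → ℝ) (hp : p ∈ AT k m D) (hpos : ∀ b i, 0 < p b i) :
    (XT k m D a0).Good p where
  ang := by rw [Ang_eq a0 h0]; exact hp
  zero := fun δ _ b i h => absurd h (hpos b i).ne'
  zero0 := fun b i h => absurd h (hpos b i).ne'
  sum := fun δ hδ b => hδ.1 b
  sum0 := fun b => h0.1 b
  s1 := fun b => ⟨fun h => absurd h (hpos b _).ne', fun h => absurd h (hpos b _).ne'⟩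
  s2 := fun b => ⟨fun h => absurd h (hpos b _).ne', fun h => absurd h (hpos b _).ne'⟩
  s3 := fun b h => (hpos b _).ne' h.1
  s4 := fun b h => (hpos b _).ne' h.1
  z1 := fun b _ => eij_mem b 1 4 (Or.inl ⟨rfl, rfl⟩)
  z2 := fun b _ => eij_mem b 2 5 (Or.inr ⟨rfl, rfl⟩)

lemma lt_half {a : Fin D.length → Fin 6 → ℝ} (h : a ∈ AT k m D) (hpos : ∀ b i, 0 < a b i)
    (b : Fin D.length) (i : Fin 6) : a b i < 1 / 2 := by
  have h1 := h.2.1 b
  have h2 := h.1.1 b
  rw [h1] at h2
  unfold n1 at h1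
  unfold n2 at h2
  have p0 := hpos b 0
  have p1 := hpos b 1
  have p2 := hpos b 2
  have p3 := hpos b 3
  have p4 := hpos b 4
  have p5 := hpos b 5
  fin_cases i <;> simp only [Fin.zero_eta, Fin.mk_one, Fin.reduceFinMk] <;> linarith

lemma nV_T {a : Fin D.length → Fin 6 → ℝ} (h : a ∈ AT k m D) (hpos : ∀ b i, 0 < a b i) :
    nV a = 6 * D.length := by
  unfold nV
  have h1 : ∀ q : Fin D.length × Fin 6, a q.1 q.2 ≠ 0 ∧ a q.1 q.2 ≠ 1 / 2 := fun q =>
    ⟨(hpos _ _).ne', (lt_half h hpos _ _).ne⟩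
  rw [Nat.card_congr (Equiv.subtypeUnivEquiv h1), Nat.card_prod]
  simp
  ring

end Pool.Agent.H760.TT
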