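import Pool.Agent.H760.TT.Def

/-!
# Fully augmented links in the thickened torus, part 2: operators and the trace
-/

set_option autoImplicit false

namespace Pool.Agent.H760.TT

open Matrix Finset
open Pool.Agent.W715.VC (rt rt_ne)
open Pool.Agent.W709.QAT (Piece run)
open Pool.Agent.Q191.TW (kl kx wl EL Phi Phi_ne rotW winv dl ofFn_inj wl_append kl_append kl_eq
  Rot_main run_rotW run_winv EL_run_zero exists_ofFn kl_single)
open Pool.Agent.Q191.TB (Gd Gd_id Gd_wp sh1 wp mg HatG trace_hatG rotW_mem winv_mem run_wp expand)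
open Pool.Agent.Q99.FW (shQ shQ_run Gd_shQ Gd_app)
open Pool.Agent.Q99.FAL

variable {N : ℕ}

/-- linear operators from `p'` strands to `p` strands which preserve the weight -/
structure Lc (p p' : ℕ) (O : (List (Fin N) → ℂ) → List (Fin N) → ℂ) : Prop where
  add : ∀ f g l, l.length = p → O (fun l' => f l' + g l') l = O f l + O g l
  smul : ∀ (c : ℂ) f l, l.length = p → O (fun l' => c * f l') l = c * O f l
  loc : ∀ f g l, l.length = p → (∀ l', l'.length = p' → kl l' = kl l → f l' = g l') →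
    O f l = O g l

lemma gdlc {p p' : ℕ} {O : (List (Fin N) → ℂ) → List (Fin N) → ℂ} (h : Gd p p' O) :
    Lc p p' O := ⟨h.add, h.smul, h.loc⟩

lemma Lc.zero {p p' : ℕ} {O : (List (Fin N) → ℂ) → List (Fin N) → ℂ} (h : Lc p p' O)
    (l : List (Fin N)) (hl : l.length = p) : O (fun _ => 0) l = 0 := by
  have := h.smul 0 (fun _ => 0) l hl
  simpa using this

lemma Lc.sum {p p' : ℕ} {O : (List (Fin N) → ℂ) → List (Fin N) → ℂ} (h : Lc p p' O) {ι : Type}
    (s : Finset ι) (f : ι → List (Fin N) → ℂ) (l : List (Fin N)) (hl : l.length = p) :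
    O (fun l' => ∑ i ∈ s, f i l') l = ∑ i ∈ s, O (f i) l := by
  classical
  induction s using Finset.induction_on with
  | empty => simp only [Finset.sum_empty]; exact h.zero l hl
  | insert i s hi ih => simp only [Finset.sum_insert hi]; rw [h.add _ _ l hl, ih]

lemma Lc.comp {p p' p'' : ℕ} {O O' : (List (Fin N) → ℂ) → List (Fin N) → ℂ} (h : Lc p p' O)
    (h' : Lc p' p'' O') : Lc p p'' (fun f => O (O' f)) where
  add f g l hl := by
    rw [← h.add _ _ l hl]
    exact h.loc _ _ l hl fun l' hl' _ => h'.add f g l' hl'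
  smul c f l hl := by
    rw [← h.smul _ _ l hl]
    exact h.loc _ _ l hl fun l' hl' _ => h'.smul c f l' hl'
  loc f g l hl hfg := h.loc _ _ l hl fun l' hl' hk => h'.loc _ _ l' hl' fun l'' hl'' hk' =>
    hfg l'' hl'' (hk'.trans hk)

lemma Lc_id (p : ℕ) : Lc (N := N) p p (fun f => f) := gdlc (Gd_id p)

lemma Lc.apply {p p' : ℕ} {O : (List (Fin N) → ℂ) → List (Fin N) → ℂ} (h : Lc p p' O)
    (s : Fin p → Fin N) (f : List (Fin N) → ℂ) :
    O f (List.ofFn s) = ∑ t, mg p p' O s t * f (List.ofFn t) := by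
  have hs : (List.ofFn s).length = p := List.length_ofFn
  rw [h.loc f (fun l => ∑ t : Fin p' → Fin N, f (List.ofFn t) * dl (List.ofFn t) l) _ hs
    fun l' hl' _ => expand f l' hl', h.sum _ _ _ hs]
  refine Finset.sum_congr rfl fun t _ => ?_
  rw [h.smul _ _ _ hs, mul_comm]
  rfl

/-! ### rotations -/

/-- the rotation of the strands, on the vectors killed by `E` -/
noncomputable def RF (b : Bool) (f : List (Fin N) → ℂ) (l : List (Fin N)) : ℂ :=
  if b then (match l.getLast? with
    | some c => Phi N l.length c (wl l) * f (c :: l.dropLast)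
    | none => 0)
  else (match l with
    | [] => 0
    | c :: r => (Phi N (r.length + 1) c (wl (c :: r)))⁻¹ * f (r ++ [c]))

lemma RF_true (f : List (Fin N) → ℂ) (l : List (Fin N)) (c : Fin N) :
    RF true f (l ++ [c]) = Phi N (l.length + 1) c (wl (l ++ [c])) * f (c :: l) := by
  unfold RF
  rw [if_pos rfl, List.getLast?_concat]
  simp

lemma RF_false (f : List (Fin N) → ℂ) (l : List (Fin N)) (c : Fin N) :
    RF false f (c :: l) = (Phi N (l.length + 1) c (wl (c :: l)))⁻¹ * f (l ++ [c]) := by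
  unfold RF
  rw [if_neg (by simp)]

lemma wl_sw (l : List (Fin N)) (c : Fin N) : wl (l ++ [c]) = wl (c :: l) := by
  rw [wl_append]
  simp only [wl]
  omega

lemma kl_sw (l : List (Fin N)) (c : Fin N) : kl (l ++ [c]) = kl (c :: l) := by
  rw [kl_append, kl_single, kl, mul_comm]

lemma snoc_of {l : List (Fin N)} {m : ℕ} (h : l.length = m + 1) :
    ∃ l' c, l = l' ++ [c] ∧ l'.length = m := by
  rcases List.eq_nil_or_concat l with rfl | ⟨l', c, rfl⟩
  · simp at h
  · exact ⟨l', c, by simp, by simpa using h⟩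

lemma Lc_RF (b : Bool) (m : ℕ) : Lc (N := N) (m + 1) (m + 1) (RF b) := by
  cases b
  · refine ⟨fun f g l hl => ?_, fun c f l hl => ?_, fun f g l hl h => ?_⟩
    · obtain ⟨x, r, rfl⟩ := List.exists_cons_of_length_eq_add_one hl
      rw [RF_false, RF_false, RF_false, mul_add]
    · obtain ⟨x, r, rfl⟩ := List.exists_cons_of_length_eq_add_one hl
      rw [RF_false, RF_false]; ring
    · obtain ⟨x, r, rfl⟩ := List.exists_cons_of_length_eq_add_one hl
      rw [RF_false, RF_false, h _ (by simpa using hl) (kl_sw r x)]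
  · refine ⟨fun f g l hl => ?_, fun c f l hl => ?_, fun f g l hl h => ?_⟩
    · obtain ⟨r, x, rfl, hr⟩ := snoc_of hl
      rw [RF_true, RF_true, RF_true, mul_add]
    · obtain ⟨r, x, rfl, hr⟩ := snoc_of hl
      rw [RF_true, RF_true]; ring
    · obtain ⟨r, x, rfl, hr⟩ := snoc_of hl
      rw [RF_true, RF_true, h _ (by simpa using hr) (kl_sw r x).symm]

lemma Lc_RFs (b : Bool) (r m : ℕ) : Lc (N := N) (m + 1) (m + 1) ((RF b)^[r]) := by
  induction r with
  | zero => exact Lc_id _
  | succ r ih =>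
    have h := (Lc_RF (N := N) b m).comp ih
    rw [Function.iterate_succ']
    exact h

/-- `F` is the operator on the vectors killed by `E`, with the label `0` on the first strand -/
def HatF (p p' : ℕ) (O F : (List (Fin N) → ℂ) → List (Fin N) → ℂ) : Prop :=
  ∀ f : List (Fin N) → ℂ, (∀ l, l.length = p' + 1 → EL l f = 0) → ∀ z : Fin N, (z : ℕ) = 0 →
    ∀ l : List (Fin N), l.length = p → O f (z :: l) = F (fun r => f (z :: r)) l

lemma HatF.comp {p p' p'' : ℕ} {O O' F F' : (List (Fin N) → ℂ) → List (Fin N) → ℂ}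
    (h : HatF p p' O F) (hF : Lc p p' F) (hO' : Gd (p' + 1) (p'' + 1) O') (h' : HatF p' p'' O' F') :
    HatF p p'' (fun f => O (O' f)) (fun f => F (F' f)) := by
  intro f hf z hz l hl
  have hE : ∀ l, l.length = p' + 1 → EL l (O' f) = 0 := by
    intro l hl
    rw [hO'.comm f l hl, hO'.loc _ (fun _ => 0) l hl fun l' hl' _ => hf l' hl', hO'.zero l hl]
  show O (O' f) (z :: l) = _
  rw [h (O' f) hE z hz l hl]
  exact hF.loc _ _ l hl fun l' hl' _ => h' f hf z hz l' hl'

lemma HatF.congr {p p' : ℕ} {O O' F : (List (Fin N) → ℂ) → List (Fin N) → ℂ}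
    (h : HatF p p' O F) (e : ∀ f l, l.length = p + 1 → O' f l = O f l) : HatF p p' O' F := by
  intro f hf z hz l hl
  rw [e f _ (by simp [hl])]
  exact h f hf z hz l hl

/-- the words of the rotations -/
def rwd (b : Bool) (n : ℕ) : List Piece := if b then wp (rotW n) else wp (winv (rotW n))

lemma Gd_rwd (b : Bool) (m : ℕ) :
    Gd (N := N) (m + 1 + 1) (m + 1 + 1) (run N (rt N) (rwd b (m + 1))) := by
  cases b
  · exact Gd_wp fun g hg => winv_mem (fun g hg => rotW_mem hg) hg
  · exact Gd_wp fun g hg => rotW_mem hg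

lemma HatF_rwd (b : Bool) (m : ℕ) :
    HatF (N := N) (m + 1) (m + 1) (run N (rt N) (rwd b (m + 1))) (RF b) := by
  have hw : ∀ g ∈ winv (rotW (m + 1)), g.1 + 2 ≤ m + 1 + 1 :=
    fun g hg => winv_mem (fun g hg => rotW_mem hg) hg
  cases b
  · refine HatF.congr (O := fun f l => Pool.Agent.Q191.TW.run (winv (rotW (m + 1))) l f) ?_
      fun f l hl => run_wp _ f l fun g hg => by rw [hl]; exact hw g hg
    intro f hf z hz l hl
    obtain ⟨x, r, rfl⟩ := List.exists_cons_of_length_eq_add_one hl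
    have hr : r.length = m := by simpa using hl
    have h1 := Rot_main (EL_run_zero (winv (rotW (m + 1))) hf) z hz x r (by omega)
    rw [← run_rotW, run_winv] at h1
    rw [RF_false]
    have h2 : wl (x :: r) = wl r + x := by simp only [wl]; omega
    rw [h2, hr, h1, ← mul_assoc, inv_mul_cancel₀ (Phi_ne _ _ _), one_mul]
  · refine HatF.congr (O := fun f l => Pool.Agent.Q191.TW.run (rotW (m + 1)) l f) ?_
      fun f l hl => run_wp _ f l fun g hg => by rw [hl]; exact rotW_mem hg
    intro f hf z hz l hl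
    obtain ⟨r, x, rfl, hr⟩ := snoc_of hl
    have h1 := Rot_main hf z hz x r (by omega)
    rw [← run_rotW] at h1
    rw [RF_true, hr]
    have h2 : wl (r ++ [x]) = wl r + x := by rw [wl_append]; simp [wl]
    rw [h2]
    exact h1

lemma rwds (b : Bool) (m : ℕ) : ∀ r : ℕ,
    Gd (N := N) (m + 1 + 1) (m + 1 + 1) (run N (rt N) (List.replicate r (rwd b (m + 1))).flatten) ∧
    HatF (N := N) (m + 1) (m + 1) (run N (rt N) (List.replicate r (rwd b (m + 1))).flatten)
      ((RF b)^[r])
  | 0 => ⟨Gd_id _, fun f _ z _ l _ => rfl⟩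
  | r + 1 => by
    obtain ⟨h1, h2⟩ := rwds b m r
    rw [List.replicate_succ, List.flatten_cons]
    refine ⟨Gd_app (Gd_rwd b m) h1, ?_⟩
    have h3 := h2.comp (Lc_RFs b r m) (Gd_rwd b m) (HatF_rwd b m)
    rw [Function.iterate_succ]
    exact h3.congr fun f l _ => by rw [Pool.Agent.Q191.TB.run_app]

/-! ### diagrams -/

/-- the word of a diagram with `n` strands below -/
def wds : List Vx → ℕ → List Piece
  | [], _ => []
  | V :: D, n => (List.replicate V.r (rwd V.b n)).flatten ++ ((els V.P).map shQ ++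
      wds D (up V.P.ty n))

/-- the operator of a diagram on the vectors killed by `E` -/
noncomputable def FD : List Vx → (List (Fin N) → ℂ) → List (Fin N) → ℂ
  | [], f => f
  | V :: D, f => FD D (run N (rt N) (els V.P) ((RF V.b)^[V.r] f))

lemma wds_all : ∀ (D : List Vx) (n n' : ℕ), Val D n n' →
    Gd (N := N) (n' + 1) (n + 1) (run N (rt N) (wds D n)) ∧ Lc (N := N) n' n (FD D) ∧
    HatF (N := N) n' n (run N (rt N) (wds D n)) (FD D)
  | [], n, n', h => by
    have h' : n = n' := h
    subst h'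
    exact ⟨Gd_id _, Lc_id _, fun f _ z _ l _ => rfl⟩
  | V :: D, n, n', h => by
    obtain ⟨h1, h2, h3⟩ := wds_all D _ n' h.2
    have hw := wd_pos V.P.ty
    have hn := h.1
    obtain ⟨m, rfl⟩ : ∃ m, n = m + 1 := ⟨n - 1, by omega⟩
    have g := Pool.Agent.Q162.FAL.Gd_els (N := N) V.P (m + 1) h.1
    obtain ⟨r1, r2⟩ := rwds (N := N) V.b m V.r
    have r3 := Lc_RFs (N := N) V.b V.r m
    have g2 : HatF (N := N) (up V.P.ty (m + 1)) (m + 1) (run N (rt N) ((els V.P).map shQ))
        (run N (rt N) (els V.P)) := fun f _ z _ l _ => shQ_run _ f z l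
    refine ⟨Gd_app r1 (Gd_app (Gd_shQ g) h1), h2.comp ((gdlc g).comp r3), ?_⟩
    have k1 := g2.comp (gdlc g) r1 r2
    have k2 := h3.comp h2 ((Gd_shQ g).comp r1) k1
    refine k2.congr fun f l _ => ?_
    show run N (rt N) ((List.replicate V.r (rwd V.b (m + 1))).flatten ++ ((els V.P).map shQ ++
      wds D (up V.P.ty (m + 1)))) f l = _
    rw [Pool.Agent.Q191.TB.run_app, Pool.Agent.Q191.TB.run_app]

lemma trace_wds (hN : 0 < N) (D : List Vx) (n : ℕ) (h : Val D n n) :
    (mg (n + 1) (n + 1) (run N (rt N) (wds D n))).trace =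
      N * ∑ t : Fin n → Fin N, FD D (dl (List.ofFn t)) (List.ofFn t) := by
  obtain ⟨h1, h2, h3⟩ := wds_all (N := N) D n n h
  have h4 : HatG n n (run N (rt N) (wds D n)) (mg n n (FD D)) := by
    intro f hf z hz s
    rw [h3 f hf z hz _ (by simp)]
    exact h2.apply s (fun r => f (z :: r))
  rw [trace_hatG hN h1 h4]
  rfl

end Pool.Agent.H760.TT
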