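import Pool.Agent.H760.TT.Sec

/-!
# Fully augmented links in the thickened torus, part 4: the operator of a diagram
-/

set_option autoImplicit false

namespace Pool.Agent.H760.TT

open Matrix Finset
open Pool.Agent.W715.VC (rt rt_ne)
open Pool.Agent.W709.QAT (Piece run)
open Pool.Agent.Q191.TW (cs cs_add cs_zero cs_ne cs_neg cs_norm cs_period cs_period' rt_cs
  kl kx wl)
open Pool.Agent.Q191.LB (sg)
open Pool.Agent.Q191.TB (Gd)
open Pool.Agent.Q98.FAL (uu_app nu_ne nu_add nu_norm)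
open Pool.Agent.Q99.FAL
open Pool.Agent.Q99.FP2 (th tr_all nu_cs phs_th)

variable {N : ℕ}

/-! ### signs -/

section nn
variable {R : Type} [AddCommGroup R] [PartialOrder R] [IsOrderedAddMonoid R]

lemma cor_nn (x : Fin 6 → R) (h : ∀ i, 0 ≤ x i) (j : Fin 4) : 0 ≤ cor x j := by
  fin_cases j
  · exact h 0
  · exact add_nonneg (h 1) (h 4)
  · exact h 3
  · exact add_nonneg (h 2) (h 5)

lemma rot_nn (b : Bool) (z : R × List R) (n : ℕ) (h : z.2.length = n + 2)
    (h0 : ∀ g ∈ z.2, 0 ≤ g) : ∀ g ∈ (rot b z).2, 0 ≤ g := by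
  obtain ⟨s, G⟩ := z
  obtain ⟨x, M, y, rfl, hM⟩ := exists_ends h
  have hx : 0 ≤ x := h0 x (by simp)
  have hy : 0 ≤ y := h0 y (by simp)
  have hM0 : ∀ g ∈ M, 0 ≤ g := fun g hg => h0 g (by simp [hg])
  cases b
  · rw [rot_false]
    intro g hg
    simp only [List.mem_cons] at hg
    rcases hg with rfl | rfl | hg
    · exact le_rfl
    · exact add_nonneg hy hx
    · exact hM0 g hg
  · rw [rot_true]
    intro g hg
    simp only [List.mem_append, List.mem_cons, List.not_mem_nil, or_false] at hg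
    rcases hg with hg | rfl | rfl
    · exact hM0 g hg
    · exact add_nonneg hy hx
    · exact le_rfl

lemma rots_nn (b : Bool) (r : ℕ) (z : R × List R) (n : ℕ) (h : z.2.length = n + 2)
    (h0 : ∀ g ∈ z.2, 0 ≤ g) : ∀ g ∈ ((rot b)^[r] z).2, 0 ≤ g := by
  induction r with
  | zero => exact h0
  | succ r ih => rw [Function.iterate_succ_apply']; exact rot_nn b _ n (rots_len b r z n h) ih

lemma nrm_nn (G : List R) (n : ℕ) (h : G.length = n + 2) (h0 : ∀ g ∈ G, 0 ≤ g) :
    ∀ g ∈ nrm G, 0 ≤ g := by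
  obtain ⟨x, M, y, rfl, hM⟩ := exists_ends h
  have hx : 0 ≤ x := h0 x (by simp)
  have hy : 0 ≤ y := h0 y (by simp)
  rw [nrm_eq]
  intro g hg
  simp only [List.mem_cons, List.mem_append, List.not_mem_nil, or_false] at hg
  rcases hg with rfl | hg | rfl
  · exact le_rfl
  · exact h0 g (by simp [hg])
  · exact add_nonneg hy hx

lemma stp_nn (T : Ty) (p n : ℕ) (q : Fin 4 → R) (hq : ∀ i, 0 ≤ q i) (G : List R)
    (hp : p + wd T ≤ n) (hG : G.length = n + 1) (h0 : ∀ g ∈ G, 0 ≤ g) :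
    (∀ g ∈ stp T p q G, 0 ≤ g) ∧ ∀ c ∈ cls T p q G, 0 ≤ c := by
  obtain ⟨A, x, m, y, r, rfl, rfl, hm⟩ := Pool.Agent.Q237.FAL.dec T p G (by omega)
  rw [Pool.Agent.Q237.FAL.stp_eq T q A x m y r hm, Pool.Agent.Q237.FAL.cls_eq T q A x m y r hm]
  have hx : 0 ≤ x := h0 x (by simp)
  have hy : 0 ≤ y := h0 y (by simp)
  have hmid : ∀ g ∈ Pool.Agent.Q237.FAL.mid T q, 0 ≤ g := by
    intro g hg
    cases T <;> simp only [Pool.Agent.Q237.FAL.mid, List.mem_cons, List.not_mem_nil,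
      or_false] at hg <;> first | (rcases hg with rfl | rfl <;> exact hq _) | (subst hg; exact hq _)
  have hmm : ∀ g ∈ m, 0 ≤ g := fun g hg => h0 g (by simp [hg])
  constructor
  · intro g hg
    simp only [List.mem_append, List.mem_cons] at hg
    rcases hg with hg | rfl | hg | rfl | hg
    · exact h0 g (by simp [hg])
    · exact add_nonneg hx (hq _)
    · exact hmid g hg
    · exact add_nonneg hy (hq _)
    · exact h0 g (by simp [hg])
  · intro c hc
    cases T <;> simp only [wd] at hm <;> rcases m with _ | ⟨a, _ | ⟨b, _ | ⟨c, m⟩⟩⟩ <;>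
      simp [Pool.Agent.Q237.FAL.ccl] at hm hc hmm <;>
      first
      | (rcases hc with rfl | rfl
         · exact add_nonneg hmm.1 (hq _)
         · exact add_nonneg hmm.2 (hq _))
      | (rw [hc]; exact add_nonneg hmm (hq _))

lemma vst_nn (V : Vx) (x : Fin 6 → R) (hx : ∀ i, 0 ≤ x i) (z : R × List R) (n : ℕ)
    (hV : V.P.p + wd V.P.ty ≤ n) (h : z.2.length = n + 1) (h0 : ∀ g ∈ z.2, 0 ≤ g) :
    (∀ g ∈ (vst V x z).2, 0 ≤ g) ∧ ∀ c ∈ vcl V x z, 0 ≤ c := by
  have := wd_pos V.P.ty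
  obtain ⟨k, rfl⟩ : ∃ k, n = k + 1 := ⟨n - 1, by omega⟩
  exact stp_nn V.P.ty V.P.p (k + 1) _ (cor_nn x hx) _ hV (rots_len V.b V.r z k h)
    (rots_nn V.b V.r z k h h0)

lemma fin_nn : ∀ (D : List Vx) (n n' : ℕ), Val D n n' → ∀ (a : Fin D.length → Fin 6 → R)
    (z : R × List R), (∀ k i, 0 ≤ a k i) → z.2.length = n + 1 → (∀ g ∈ z.2, 0 ≤ g) →
    (∀ g ∈ (fin D a z).2, 0 ≤ g) ∧ ∀ c ∈ clo D a z, 0 ≤ c
  | [], n, n', h, _, z, _, hz, h0 => ⟨h0, by intro c hc; simp [clo] at hc⟩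
  | V :: D, n, n', h, a, z, ha, hz, h0 => by
    obtain ⟨h1, h2⟩ := vst_nn V (a 0) (ha 0) z n h.1 hz h0
    obtain ⟨h3, h4⟩ := fin_nn D _ n' h.2 (fun k => a k.succ) (vst V (a 0) z)
      (fun k i => ha k.succ i) (vst_len V (a 0) z n h.1 hz) h1
    refine ⟨h3, fun c hc => ?_⟩
    rcases List.mem_append.1 (show c ∈ vcl V (a 0) z ++ clo D _ _ from hc) with hc | hc
    · exact h2 c hc
    · exact h4 c hc

end nn

lemma zz_nn (x : Fin 6 → Fin N) (i : Fin 6) : 0 ≤ zz x i := by unfold zz; positivity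

/-! ### the step -/

lemma US_step (hN : 0 < N) (V : Vx) (n : ℕ) (hV : V.P.p + wd V.P.ty ≤ n) (s : ℤ) (G : List ℤ)
    (hG : G.length = n + 1) (hG0 : ∀ g ∈ G, 0 ≤ g) :
    ∃ ε : (Fin 6 → Fin N) → ℂ, (∀ x, (∀ c ∈ vcl V (zz x) (s, G), c = N - 1) → ε x = 1) ∧
    ∀ l : List (Fin N), l.length = up V.P.ty n →
      run N (rt N) (els V.P) ((RF V.b)^[V.r] (US N s G)) l =
        rc N V.b n G.sum ^ V.r * th N V.P.ty V.P.p n V.P.σ V.P.m * N ^ ex V.P.ty *
          ∑ x : Fin 6 → Fin N, if n1 (zz x) + n2 (zz x) = N - 1 ∧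
          (∀ c ∈ vcl V (zz x) (s, G), (N : ℤ) ∣ c + 1) then
            wt6 N (sg V.P.σ * V.P.m) (zz x) * ε x *
              US N (vst V (zz x) (s, G)).1 (vst V (zz x) (s, G)).2 l else 0 := by
  have := wd_pos V.P.ty
  obtain ⟨m, rfl⟩ : ∃ k, n = k + 1 := ⟨n - 1, by omega⟩
  obtain ⟨ε, h1, h2⟩ := US_vert hN V.P.ty V.P.p (m + 1) V.P.σ V.P.m hV ((rot V.b)^[V.r] (s, G)).1
    ((rot V.b)^[V.r] (s, G)).2 (rots_len V.b V.r (s, G) m hG) (rots_nn V.b V.r (s, G) m hG hG0)
  refine ⟨ε, h1, fun l hl => ?_⟩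
  have g := Pool.Agent.Q162.FAL.Gd_els (N := N) V.P (m + 1) hV
  have h3 := g.loc ((RF V.b)^[V.r] (US N s G)) (fun l' => rc N V.b (m + 1) G.sum ^ V.r *
    US N ((rot V.b)^[V.r] (s, G)).1 ((rot V.b)^[V.r] (s, G)).2 l') l hl
    fun l' hl' _ => US_rots hN V.b m (s, G) hG V.r l' hl'
  rw [h3, g.smul _ _ l hl]
  have h4 := h2 l hl
  have e : (⟨V.P.ty, V.P.p, V.P.σ, V.P.m⟩ : Pc) = V.P := rfl
  rw [e] at h4
  rw [h4]
  simp only [vcl, vst]
  ring

/-- the constants of the diagram -/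
noncomputable def TD (N : ℕ) : List Vx → ℕ → ℤ → ℂ
  | [], _, _ => 1
  | V :: D, n, S => rc N V.b n S ^ V.r * th N V.P.ty V.P.p n V.P.σ V.P.m *
      TD N D (up V.P.ty n) (S + ((N : ℤ) - 1) * (1 - ncl V.P.ty))

lemma rc_ne (b : Bool) (n : ℕ) (S : ℤ) : rc N b n S ≠ 0 := by
  have h := mul_ne_zero (cR_ne (N := N) n) (nu_ne (N := N) S)
  unfold rc
  split_ifs
  · exact h
  · exact inv_ne_zero h

lemma th_ne (hN : 0 < N) (T : Ty) (p n : ℕ) (σ : Bool) (m : ℕ) (h : p + wd T ≤ n) :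
    th N T p n σ m ≠ 0 := by
  obtain ⟨β, γ, hb⟩ := phs_th T p n σ m h
  have h1 := hb N hN
  intro h0
  exact cs_ne _ _ (h1.symm.trans h0)

lemma TD_ne (hN : 0 < N) : ∀ (D : List Vx) (n n' : ℕ) (S : ℤ), Val D n n' → TD N D n S ≠ 0
  | [], _, _, _, _ => one_ne_zero
  | V :: D, n, n', S, h => mul_ne_zero (mul_ne_zero (pow_ne_zero _ (rc_ne _ _ _))
      (th_ne hN _ _ _ _ _ h.1)) (TD_ne hN D _ n' _ h.2)

/-- the exponent of `N` -/
def exD (D : List Vx) : ℕ := (D.map fun V => ex V.P.ty).sum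

/-- the conditions on the angles, modulo `N` -/
def Cnd (N : ℕ) (D : List Vx) (a : Fin D.length → Fin 6 → ℤ) (z : ℤ × List ℤ) : Prop :=
  (∀ k, n1 (a k) + n2 (a k) = N - 1) ∧ ∀ c ∈ clo D a z, (N : ℤ) ∣ c + 1

/-- the product of the weights -/
noncomputable def wtD (N : ℕ) (D : List Vx) (a : Fin D.length → Fin 6 → ℤ) : ℂ :=
  ∏ k : Fin D.length, wt6 N (sg (D.get k).P.σ * (D.get k).P.m) (a k)

lemma Lc.ite {p p' : ℕ} {O : (List (Fin N) → ℂ) → List (Fin N) → ℂ} (h : Lc p p' O)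
    (P : Prop) [Decidable P] (c : ℂ) (f : List (Fin N) → ℂ) (l : List (Fin N))
    (hl : l.length = p) : O (fun l' => if P then c * f l' else 0) l =
      if P then c * O f l else 0 := by
  split_ifs
  · exact h.smul c f l hl
  · exact h.zero l hl

open Classical in
/-- **the operator of a diagram.** -/
theorem raw (hN : 0 < N) : ∀ (D : List Vx) (n n' : ℕ), Val D n n' → ∀ (s : ℤ) (G : List ℤ),
    G.length = n + 1 → (∀ g ∈ G, 0 ≤ g) →
    ∃ E : (Fin D.length → Fin 6 → Fin N) → ℂ,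
      (∀ a, (∀ c ∈ clo D (fun k => zz (a k)) (s, G), c = N - 1) →
        (∀ k, n1 (zz (a k)) + n2 (zz (a k)) = N - 1) → E a = 1) ∧
      ∀ l : List (Fin N), l.length = n' → FD D (US N s G) l =
        TD N D n G.sum * N ^ exD D * ∑ a : Fin D.length → Fin 6 → Fin N,
          if Cnd N D (fun k => zz (a k)) (s, G) then wtD N D (fun k => zz (a k)) * E a *
            US N (fin D (fun k => zz (a k)) (s, G)).1 (fin D (fun k => zz (a k)) (s, G)).2 l else 0
  | [], n, n', h, s, G, hG, hG0 => by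
    refine ⟨fun _ => 1, fun _ _ _ => rfl, fun l hl => ?_⟩
    have h0 : (Finset.univ : Finset (Fin ([] : List Vx).length → Fin 6 → Fin N)) =
        {fun k => k.elim0} := by
      ext a
      simp only [Finset.mem_univ, Finset.mem_singleton, true_iff]
      funext k
      exact k.elim0
    rw [h0, Finset.sum_singleton, if_pos ⟨fun k => k.elim0, by intro c hc; simp [clo] at hc⟩]
    have e1 : wtD N [] (fun k : Fin ([] : List Vx).length => zz ((fun k => k.elim0 :
      Fin ([] : List Vx).length → Fin 6 → Fin N) k)) = 1 :=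
      Finset.prod_eq_one fun k _ => k.elim0
    rw [e1]
    simp [FD, TD, exD, fin]
  | V :: D, n, n', h, s, G, hG, hG0 => by
    obtain ⟨ε, hε1, hε2⟩ := US_step hN V n h.1 s G hG hG0
    have IH := fun x : Fin 6 → Fin N => raw hN D (up V.P.ty n) n' h.2 (vst V (zz x) (s, G)).1
      (vst V (zz x) (s, G)).2 (vst_len V (zz x) (s, G) n h.1 hG)
      (vst_nn V (zz x) (zz_nn x) (s, G) n h.1 hG hG0).1
    choose E' hE1 hE2 using IH
    obtain ⟨S1, hS1⟩ : ∃ t : ℤ, t = G.sum + ((N : ℤ) - 1) * (1 - ncl V.P.ty) := ⟨_, rfl⟩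
    have hTD := TD_ne hN D (up V.P.ty n) n' S1 h.2
    refine ⟨fun a => ε (a 0) * E' (a 0) (fun k => a k.succ) *
      (TD N D (up V.P.ty n) (vst V (zz (a 0)) (s, G)).2.sum / TD N D (up V.P.ty n) S1), ?_, ?_⟩
    · intro a ha hb
      have hc : ∀ c ∈ vcl V (zz (a 0)) (s, G), c = N - 1 := fun c hc =>
        ha c (List.mem_append.2 (Or.inl hc))
      have hd : ∀ c ∈ clo D (fun k => zz (a k.succ)) (vst V (zz (a 0)) (s, G)), c = N - 1 :=
        fun c hc => ha c (List.mem_append.2 (Or.inr hc))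
      have h1 := vst_sum V (zz (a 0)) (s, G) n h.1 hG
      have h2 := Pool.Agent.Q99.FAL.GG.sum_eq' hc
      rw [vcl_len V (zz (a 0)) (s, G) n h.1 hG] at h2
      have h3 := hb 0
      have e : (vst V (zz (a 0)) (s, G)).2.sum = S1 := by
        rw [hS1]
        linear_combination h1 - h2 + h3
      show ε (a 0) * E' (a 0) (fun k => a k.succ) * _ = 1
      rw [e, div_self hTD, hε1 _ hc, hE1 (a 0) (fun k => a k.succ) hd fun k => hb k.succ]
      norm_num
    · intro l hl
      obtain ⟨w1, w2, w3⟩ := wds_all (N := N) D _ n' h.2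
      show FD D (run N (rt N) (els V.P) ((RF V.b)^[V.r] (US N s G))) l = _
      rw [w2.loc _ _ l hl fun l' hl' _ => hε2 l' hl', w2.smul _ _ l hl, w2.sum _ _ l hl]
      have hL : (Fin (V :: D).length → Fin 6 → Fin N) = (Fin (D.length + 1) → Fin 6 → Fin N) := rfl
      have hR : ∑ a : Fin (V :: D).length → Fin 6 → Fin N,
          (if Cnd N (V :: D) (fun k => zz (a k)) (s, G) then wtD N (V :: D) (fun k => zz (a k)) *
            (ε (a 0) * E' (a 0) (fun k => a k.succ) *
      (TD N D (up V.P.ty n) (vst V (zz (a 0)) (s, G)).2.sum / TD N D (up V.P.ty n) S1)) *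
            US N (fin (V :: D) (fun k => zz (a k)) (s, G)).1
              (fin (V :: D) (fun k => zz (a k)) (s, G)).2 l else 0) =
          ∑ x : Fin 6 → Fin N, ∑ a : Fin D.length → Fin 6 → Fin N,
            (if (n1 (zz x) + n2 (zz x) = N - 1 ∧ ∀ c ∈ vcl V (zz x) (s, G), (N : ℤ) ∣ c + 1) ∧
              Cnd N D (fun k => zz (a k)) (vst V (zz x) (s, G)) then
              (wt6 N (sg V.P.σ * V.P.m) (zz x) * wtD N D (fun k => zz (a k))) *
            (ε x * E' x a *
      (TD N D (up V.P.ty n) (vst V (zz x) (s, G)).2.sum / TD N D (up V.P.ty n) S1)) *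
            US N (fin D (fun k => zz (a k)) (vst V (zz x) (s, G))).1
              (fin D (fun k => zz (a k)) (vst V (zz x) (s, G))).2 l else 0) := by
        refine Eq.trans ((Fin.consEquiv (fun _ : Fin (D.length + 1) =>
          Fin 6 → Fin N)).sum_comp _).symm ?_
        rw [Fintype.sum_prod_type]
        refine Finset.sum_congr rfl fun x _ => Finset.sum_congr rfl fun a _ => ?_
        have hcnd : Cnd N (V :: D) (fun k => zz ((Fin.consEquiv (fun _ : Fin (D.length + 1) =>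
            Fin 6 → Fin N)) (x, a) k)) (s, G) ↔
            (n1 (zz x) + n2 (zz x) = N - 1 ∧ ∀ c ∈ vcl V (zz x) (s, G), (N : ℤ) ∣ c + 1) ∧
              Cnd N D (fun k => zz (a k)) (vst V (zz x) (s, G)) := by
          constructor
          · rintro ⟨c1, c2⟩
            exact ⟨⟨c1 0, fun c hc => c2 c (List.mem_append.2 (Or.inl hc))⟩,
              fun k => c1 k.succ, fun c hc => c2 c (List.mem_append.2 (Or.inr hc))⟩
          · rintro ⟨⟨c1, c2⟩, c3, c4⟩
            refine ⟨fun k => ?_, fun c hc => ?_⟩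
            · refine Fin.cases c1 (fun j => ?_) k
              exact c3 j
            · rcases List.mem_append.1 (show c ∈ vcl V (zz x) (s, G) ++
                clo D (fun k => zz (a k)) (vst V (zz x) (s, G)) from hc) with hc | hc
              · exact c2 c hc
              · exact c4 c hc
        have hw : wtD N (V :: D) (fun k => zz ((Fin.consEquiv (fun _ : Fin (D.length + 1) =>
            Fin 6 → Fin N)) (x, a) k)) = wt6 N (sg V.P.σ * V.P.m) (zz x) *
              wtD N D (fun k => zz (a k)) :=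
          Fin.prod_univ_succ (fun k : Fin (D.length + 1) => wt6 N (sg ((V :: D).get k).P.σ *
            ((V :: D).get k).P.m) (zz ((Fin.consEquiv (fun _ : Fin (D.length + 1) =>
            Fin 6 → Fin N)) (x, a) k)))
        rw [hw]
        by_cases hh : Cnd N (V :: D) (fun k => zz ((Fin.consEquiv (fun _ : Fin (D.length + 1) =>
            Fin 6 → Fin N)) (x, a) k)) (s, G)
        · rw [if_pos hh, if_pos (hcnd.1 hh)]
          rfl
        · rw [if_neg hh, if_neg fun h' => hh (hcnd.2 h')]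
      rw [hR]
      have hex : exD (V :: D) = ex V.P.ty + exD D := by simp [exD]
      rw [hex, pow_add]
      have key : ∀ x : Fin 6 → Fin N, FD D (fun l' => if n1 (zz x) + n2 (zz x) = N - 1 ∧
          (∀ c ∈ vcl V (zz x) (s, G), (N : ℤ) ∣ c + 1) then
            wt6 N (sg V.P.σ * V.P.m) (zz x) * ε x *
              US N (vst V (zz x) (s, G)).1 (vst V (zz x) (s, G)).2 l' else 0) l =
          TD N D (up V.P.ty n) S1 * N ^ exD D * ∑ a : Fin D.length → Fin 6 → Fin N,
            (if (n1 (zz x) + n2 (zz x) = N - 1 ∧ ∀ c ∈ vcl V (zz x) (s, G), (N : ℤ) ∣ c + 1) ∧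
              Cnd N D (fun k => zz (a k)) (vst V (zz x) (s, G)) then
              (wt6 N (sg V.P.σ * V.P.m) (zz x) * wtD N D (fun k => zz (a k))) *
            (ε x * E' x a *
      (TD N D (up V.P.ty n) (vst V (zz x) (s, G)).2.sum / TD N D (up V.P.ty n) S1)) *
            US N (fin D (fun k => zz (a k)) (vst V (zz x) (s, G))).1
              (fin D (fun k => zz (a k)) (vst V (zz x) (s, G))).2 l else 0) := by
        intro x
        rw [w2.ite _ _ _ l hl]
        by_cases hx : n1 (zz x) + n2 (zz x) = (N : ℤ) - 1 ∧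
          (∀ c ∈ vcl V (zz x) (s, G), (N : ℤ) ∣ c + 1)
        · rw [if_pos hx, hE2 x l hl, Finset.mul_sum, Finset.mul_sum, Finset.mul_sum]
          refine Finset.sum_congr rfl fun a _ => ?_
          by_cases hc : Cnd N D (fun k => zz (a k)) (vst V (zz x) (s, G))
          · have hc' : Cnd N D (fun k => zz (a k)) ((vst V (zz x) (s, G)).1,
              (vst V (zz x) (s, G)).2) := hc
            rw [if_pos hc', if_pos ⟨hx, hc⟩]
            field_simp
          · have hc' : ¬ Cnd N D (fun k => zz (a k)) ((vst V (zz x) (s, G)).1,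
              (vst V (zz x) (s, G)).2) := hc
            rw [if_neg hc', if_neg fun h' => hc h'.2]
            simp
        · rw [if_neg hx]
          symm
          rw [Finset.sum_eq_zero fun a _ => if_neg fun h' => hx h'.1, mul_zero]
      rw [Finset.sum_congr rfl fun x _ => key x, ← Finset.mul_sum]
      show _ = rc N V.b n G.sum ^ V.r * th N V.P.ty V.P.p n V.P.σ V.P.m *
        TD N D (up V.P.ty n) (G.sum + ((N : ℤ) - 1) * (1 - ncl V.P.ty)) * _ * _
      rw [← hS1]
      ring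

end Pool.Agent.H760.TT
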