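import Pool.Agent.H760.TT.Ops

/-!
# Fully augmented links in the thickened torus, part 3: sectors
-/

set_option autoImplicit false

namespace Pool.Agent.H760.TT

open Matrix Finset
open Pool.Agent.W715.VC (rt rt_ne)
open Pool.Agent.W709.QAT (Piece run)
open Pool.Agent.Q191.TW (cs cs_add cs_zero cs_ne cs_neg cs_norm cs_period cs_period' rt_cs
  kl kx wl EL Phi Phi_ne phx wl_append kl_append kl_eq)
open Pool.Agent.Q191.LB (sg)
open Pool.Agent.Q191.TB (Gd)
open Pool.Agent.Q224.FAL (lab lab_length str_append)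
open Pool.Agent.Q98.FAL (uu_app nu_ne nu_add nu_norm)
open Pool.Agent.Q99.FAL
open Pool.Agent.Q99.FP2 (th tr_all nu_cs)

variable {N : ℕ}

lemma cs_one_iff (hN : 0 < N) (a : ℤ) : cs N (a : ℝ) = 1 ↔ (2 * (N : ℤ)) ∣ a := by
  have hN0 : (N : ℝ) ≠ 0 := by exact_mod_cast hN.ne'
  constructor
  · intro h2
    unfold cs at h2
    rw [Complex.exp_eq_one_iff] at h2
    obtain ⟨n, hn⟩ := h2
    have h3 : ((Real.pi * (a : ℝ) / N : ℝ) : ℂ) = ((n * (2 * Real.pi) : ℝ) : ℂ) := by
      apply mul_right_cancel₀ Complex.I_ne_zero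
      rw [hn]
      push_cast
      ring
    have h4 : (Real.pi * (a : ℝ) / N : ℝ) = n * (2 * Real.pi) := by
      exact_mod_cast h3
    rw [div_eq_iff hN0] at h4
    have h5 : Real.pi * ((a : ℝ) - n * 2 * N) = 0 := by linarith
    rcases mul_eq_zero.1 h5 with h6 | h6
    · exact absurd h6 Real.pi_ne_zero
    · have h7 : a = n * 2 * N := by
        have : (a : ℝ) = ((n * 2 * N : ℤ) : ℝ) := by push_cast; linarith
        exact_mod_cast this
      exact ⟨n, by rw [h7]; ring⟩
  · rintro ⟨k, rfl⟩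
    rw [cs_period' hN (y := 0) k (by push_cast; ring), cs_zero]

lemma rt_eq_iff (hN : 0 < N) (a b : ℤ) : rt N ^ a = rt N ^ b ↔ (2 * (N : ℤ)) ∣ a - b := by
  rw [← cs_one_iff hN, ← rt_cs, zpow_sub₀ (rt_ne N), div_eq_one_iff_eq (zpow_ne_zero _ (rt_ne N))]

/-- the weight of the sector of the gaps `G` -/
noncomputable def kG (N : ℕ) (G : List ℤ) : ℂ :=
  rt N ^ (2 * G.sum - ((G.length : ℤ) - 1) * ((N : ℤ) - 1))

/-- the Fourier vector in its sector -/
noncomputable def US (N : ℕ) (s : ℤ) (G : List ℤ) (l : List (Fin N)) : ℂ :=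
  if kl l = kG N G then UU N (str s G) l else 0

lemma kl_kG (hN : 0 < N) (G : List ℤ) (l : List (Fin N)) (h : G.length = l.length + 1) :
    kl l = kG N G ↔ (N : ℤ) ∣ G.sum + wl l + l.length := by
  rw [kl_eq, kG, rt_eq_iff hN, h]
  have e : (l.length : ℤ) * ((N : ℤ) - 1) - 2 * (wl l : ℤ) -
      (2 * G.sum - (((l.length + 1 : ℕ) : ℤ) - 1) * ((N : ℤ) - 1)) =
      2 * ((N : ℤ) * l.length - (G.sum + wl l + l.length)) := by
    push_cast
    ring
  rw [e, mul_dvd_mul_iff_left (by norm_num : (2 : ℤ) ≠ 0)]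
  constructor
  · rintro ⟨k, hk⟩
    exact ⟨l.length - k, by linear_combination -hk⟩
  · rintro ⟨k, hk⟩
    exact ⟨l.length - k, by linear_combination -hk⟩

lemma uu_pos : ∀ (S : List ℤ) (l : List (Fin N)) (k : ℤ), uu N (k + 1) S l =
    cs N (-(((N : ℝ) - 1) * (wl l : ℕ))) * uu N k S l
  | [], [], k => by simp [uu, wl, cs_zero]
  | [], _ :: _, k => by simp [uu]
  | _ :: _, [], k => by simp [uu]
  | s :: S, x :: l, k => by
    simp only [uu]
    rw [uu_pos S l (k + 1)]
    have e : ph N (k + 1) s (x : ℕ) = cs N (-(((N : ℝ) - 1) * (x : ℕ))) * ph N k s (x : ℕ) := by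
      unfold ph
      rw [← cs_add]
      congr 1
      push_cast
      ring
    have e2 : cs N (-(((N : ℝ) - 1) * (wl (x :: l) : ℕ))) =
        cs N (-(((N : ℝ) - 1) * (x : ℕ))) * cs N (-(((N : ℝ) - 1) * (wl l : ℕ))) := by
      rw [← cs_add]
      congr 1
      simp only [wl]
      push_cast
      ring
    rw [e, e2]
    ring

lemma str_ends (s x y : ℤ) (M : List ℤ) : str s (x :: (M ++ [y])) = (s - x) :: lab (s - x) M := by
  have h := str_append (x :: M) s y []
  rw [List.cons_append] at h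
  rw [h]
  simp [str, lab]

lemma str_two (s y z : ℤ) (M : List ℤ) :
    str s (M ++ [y, z]) = lab s M ++ [s - M.sum - y] := by
  rw [str_append]
  rfl

/-- the constant of a rotation -/
noncomputable def cR (N n : ℕ) : ℂ := cs N (((N : ℝ) - 1) * (n + 1))

lemma Phi_cs (n x T : ℕ) : Phi N n x T = cs N (((N : ℝ) - 1) * (n + T) +
    (x : ℝ) * (((n : ℝ) + 1) * (N - 1) - 2 * T + 2) + ((N : ℝ) - 1) * (1 + x)) := by
  unfold Phi phx
  rw [rt_cs, rt_cs, rt_cs, ← cs_add, ← cs_add]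
  congr 1
  push_cast
  ring

lemma rot_US (hN : 0 < N) (s x y : ℤ) (M : List ℤ) (l : List (Fin N))
    (hl : l.length = M.length + 1) : RF true (US N s (x :: (M ++ [y]))) l =
      cR N (M.length + 1) * nu N (x :: (M ++ [y])).sum * US N (s - x) (M ++ [y + x, 0]) l := by
  obtain ⟨r, c, rfl, hr⟩ := snoc_of hl
  rw [RF_true]
  unfold US
  have hk : kG N (M ++ [y + x, 0]) = kG N (x :: (M ++ [y])) := by
    unfold kG
    have e1 : (M ++ [y + x, 0]).sum = (x :: (M ++ [y])).sum := by simp; ring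
    have e2 : (M ++ [y + x, 0]).length = (x :: (M ++ [y])).length := by simp
    rw [e1, e2]
  rw [hk, kl_sw]
  by_cases h : kl (c :: r) = kG N (x :: (M ++ [y]))
  swap
  · rw [if_neg h, if_neg h, mul_zero, mul_zero]
  rw [if_pos h, if_pos h, str_ends, str_two]
  rw [kl_kG hN _ _ (by simp [hr])] at h
  obtain ⟨q, hq⟩ := h
  unfold UU
  rw [uu_app _ _ _ _ _ (by rw [lab_length, hr])]
  simp only [uu, List.sum_cons, List.sum_append, List.sum_nil, mul_one, add_zero] at hq ⊢
  have hu := uu_pos (N := N) (lab (s - x) M) r 0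
  rw [zero_add] at hu
  rw [zero_add, hu, lab_length, zero_add]
  set S := (lab (s - x) M).sum with hS
  set A := uu N 0 (lab (s - x) M) r with hA
  have hnu : nu N (s - x + S) = nu N (x + (M.sum + y)) * nu N (S + (s - x - M.sum - (y + x))) := by
    rw [← nu_add]
    congr 1
    ring
  rw [hnu, hr, Phi_cs]
  generalize M.sum = SM at hq hnu ⊢
  have hT : (wl (r ++ [c]) : ℕ) = wl r + c := by rw [wl_append]; simp [wl]
  have hT' : (wl (c :: r) : ℕ) = wl r + c := by simp only [wl]; omega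
  rw [hT]
  rw [hT'] at hq
  have key : cs N (((N : ℝ) - 1) * (((M.length + 1 : ℕ) : ℝ) + ((wl r + (c : ℕ) : ℕ) : ℝ)) +
      ((c : ℕ) : ℝ) * ((((M.length + 1 : ℕ) : ℝ) + 1) * (N - 1) - 2 * ((wl r + (c : ℕ) : ℕ) : ℝ) + 2) +
        ((N : ℝ) - 1) * (1 + ((c : ℕ) : ℝ))) * (ph N 0 (s - x) (c : ℕ) *
        cs N (-(((N : ℝ) - 1) * (wl r : ℕ)))) =
      cR N (M.length + 1) * ph N (M.length : ℕ) (s - x - SM - (y + x)) (c : ℕ) := by
    unfold cR ph
    rw [← cs_add, ← cs_add, ← cs_add]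
    refine cs_period' hN ((c : ℕ) * ((M.length : ℤ) + 2 - q)) ?_
    have hq' : (SM : ℝ) + x + y = N * q - (wl r + (c : ℕ) : ℝ) - (M.length + 1) := by
      have := congrArg (fun z : ℤ => (z : ℝ)) hq
      simp only [List.length_cons] at this
      rw [hr] at this
      push_cast at this
      linarith
    have hq'' : (SM : ℝ) = N * q - (wl r + (c : ℕ) : ℝ) - (M.length + 1) - x - y := by linarith
    push_cast
    rw [hq'']
    ring
  linear_combination (nu N (x + (SM + y)) * nu N (S + (s - x - SM - (y + x))) * A) * key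

lemma RF_inv (m : ℕ) (f : List (Fin N) → ℂ) (l : List (Fin N)) (hl : l.length = m + 1) :
    RF false (RF true f) l = f l := by
  obtain ⟨c, r, rfl⟩ := List.exists_cons_of_length_eq_add_one hl
  rw [RF_false, RF_true, wl_sw, ← mul_assoc, inv_mul_cancel₀ (Phi_ne _ _ _), one_mul]

/-- the constant of a rotation, on the gaps with the sum `S` -/
noncomputable def rc (N : ℕ) (b : Bool) (n : ℕ) (S : ℤ) : ℂ :=
  if b then cR N n * nu N S else (cR N n * nu N S)⁻¹

lemma cR_ne (n : ℕ) : cR N n ≠ 0 := cs_ne _ _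

lemma US_rot (hN : 0 < N) (b : Bool) (m : ℕ) (z : ℤ × List ℤ) (hz : z.2.length = m + 2)
    (l : List (Fin N)) (hl : l.length = m + 1) :
    RF b (US N z.1 z.2) l = rc N b (m + 1) z.2.sum * US N (rot b z).1 (rot b z).2 l := by
  obtain ⟨s, G⟩ := z
  obtain ⟨x, M, y, rfl, hM⟩ := exists_ends hz
  cases b
  · have h1 : ∀ l : List (Fin N), l.length = m + 1 →
        RF true (US N (rot false (s, x :: (M ++ [y]))).1 (rot false (s, x :: (M ++ [y]))).2) l =
        cR N (m + 1) * nu N (x :: (M ++ [y])).sum * US N s (x :: (M ++ [y])) l := by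
      intro l hl
      rw [rot_false]
      obtain ⟨M2, z, h2, hM2⟩ : ∃ M2 z, (y + x) :: M = M2 ++ [z] ∧ M2.length = M.length := by
        rcases List.eq_nil_or_concat ((y + x) :: M) with h | ⟨M2, z, h⟩
        · simp at h
        · refine ⟨M2, z, by rw [h]; simp, ?_⟩
          have := congrArg List.length h
          simp at this
          omega
      simp only
      rw [h2, rot_US hN _ _ _ _ _ (by rw [hM2, hM, hl]), hM2, hM, sub_zero, add_zero]
      have e1 : (0 :: (M2 ++ [z])).sum = (x :: (M ++ [y])).sum := by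
        rw [← h2]; simp; ring
      rw [e1]
      congr 1
      have e2 : M2 ++ [z, 0] = (y + x) :: (M ++ [0]) := by
        have : M2 ++ [z, 0] = (M2 ++ [z]) ++ [0] := by simp
        rw [this, ← h2]
        simp
      rw [e2]
      unfold US
      have hk : kG N ((y + x) :: (M ++ [0])) = kG N (x :: (M ++ [y])) := by
        unfold kG
        have e1 : ((y + x) :: (M ++ [0])).sum = (x :: (M ++ [y])).sum := by simp; ring
        have e2 : ((y + x) :: (M ++ [0])).length = (x :: (M ++ [y])).length := by simp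
        rw [e1, e2]
      have e3 : s + y - (y + x) = s - x := by ring
      rw [hk, str_ends, str_ends, e3]
    have h2 := (Lc_RF (N := N) false m).loc (US N s (x :: (M ++ [y])))
      (fun l => (cR N (m + 1) * nu N (x :: (M ++ [y])).sum)⁻¹ * RF true
        (US N (rot false (s, x :: (M ++ [y]))).1 (rot false (s, x :: (M ++ [y]))).2) l) l hl
      fun l' hl' _ => by
        rw [h1 l' hl', ← mul_assoc, inv_mul_cancel₀ (mul_ne_zero (cR_ne _) (nu_ne _)), one_mul]
    rw [h2, (Lc_RF (N := N) false m).smul _ _ l hl, RF_inv m _ l hl]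
    rfl
  · rw [rot_true]
    have := rot_US hN s x y M l (by rw [hM, hl])
    rw [hM] at this
    exact this

lemma US_rots (hN : 0 < N) (b : Bool) (m : ℕ) (z : ℤ × List ℤ) (hz : z.2.length = m + 2) :
    ∀ r : ℕ, ∀ l : List (Fin N), l.length = m + 1 →
    (RF b)^[r] (US N z.1 z.2) l = rc N b (m + 1) z.2.sum ^ r *
      US N ((rot b)^[r] z).1 ((rot b)^[r] z).2 l
  | 0, l, _ => by simp
  | r + 1, l, hl => by
    rw [Function.iterate_succ_apply', Function.iterate_succ_apply']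
    have h1 := (Lc_RF (N := N) b m).loc ((RF b)^[r] (US N z.1 z.2))
      (fun l => rc N b (m + 1) z.2.sum ^ r * US N ((rot b)^[r] z).1 ((rot b)^[r] z).2 l) l hl
      fun l' hl' _ => US_rots hN b m z hz r l' hl'
    rw [h1, (Lc_RF (N := N) b m).smul _ _ l hl,
      US_rot hN b m _ (rots_len b r z m hz) l hl, rots_sum b r z m hz]
    ring

/-! ### vertices -/

lemma sum_cls (l : List ℤ) (h : ∀ c ∈ l, (N : ℤ) ∣ c + 1) : ∃ k : ℤ, l.sum + l.length = N * k := by
  induction l with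
  | nil => exact ⟨0, by simp⟩
  | cons a l ih =>
    obtain ⟨k, hk⟩ := ih fun c hc => h c (by simp [hc])
    obtain ⟨j, hj⟩ := h a (by simp)
    refine ⟨j + k, ?_⟩
    rw [List.sum_cons, List.length_cons]
    push_cast
    linear_combination hk + hj

lemma kG_stp (hN : 0 < N) (T : Ty) (p n : ℕ) (x : Fin 6 → ℤ) (G : List ℤ) (h : p + wd T ≤ n)
    (hG : G.length = n + 1) (hx : n1 x + n2 x = N - 1)
    (hc : ∀ c ∈ cls T p (cor x) G, (N : ℤ) ∣ c + 1) : kG N (stp T p (cor x) G) = kG N G := by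
  have h1 := cons_law' T x n p G h hG
  have h2 := Pool.Agent.Q237.FAL.stp_len T (cor x) n p G h hG
  have h3 := Pool.Agent.Q237.FAL.cls_len T (cor x) n p G h hG
  have h4 := Pool.Agent.Q237.FAL.ncl_up T n p h
  obtain ⟨k, hk⟩ := sum_cls _ hc
  unfold kG
  rw [rt_eq_iff hN, h2, hG]
  rw [h3] at hk
  rw [hx] at h1
  refine ⟨(ncl T : ℤ) - k, ?_⟩
  have h5 : (2 : ℤ) * ncl T + up T n = 2 + n := by exact_mod_cast h4
  push_cast
  linear_combination 2 * h1 - 2 * hk - ((N : ℤ) - 1) * h5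

lemma US_vert (hN : 0 < N) (T : Ty) (p n : ℕ) (σ : Bool) (m : ℕ) (h : p + wd T ≤ n)
    (s : ℤ) (G : List ℤ) (hG : G.length = n + 1) (hG0 : ∀ g ∈ G, 0 ≤ g) :
    ∃ ε : (Fin 6 → Fin N) → ℂ, (∀ x, (∀ c ∈ cls T p (cor (zz x)) G, c = N - 1) → ε x = 1) ∧
    ∀ l : List (Fin N), l.length = up T n →
      run N (rt N) (els ⟨T, p, σ, m⟩) (US N s G) l =
        th N T p n σ m * N ^ ex T * ∑ x : Fin 6 → Fin N, if n1 (zz x) + n2 (zz x) = N - 1 ∧
          (∀ c ∈ cls T p (cor (zz x)) G, (N : ℤ) ∣ c + 1) then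
            wt6 N (sg σ * m) (zz x) * ε x * US N s (stp T p (cor (zz x)) G) l else 0 := by
  obtain ⟨ε, h1, h2⟩ := tr_all T N hN p n σ m h s G hG hG0
  refine ⟨ε, h1, fun l hl => ?_⟩
  have g := Pool.Agent.Q162.FAL.Gd_els (N := N) ⟨T, p, σ, m⟩ n h
  have h3 := g.loc (US N s G) (fun l' => (if kl l = kG N G then 1 else 0) * UU N (str s G) l') l hl
    fun l' _ hk => by
      unfold US
      rw [hk]
      split_ifs <;> simp
  rw [h3, g.smul _ _ l hl, h2 l hl, ← mul_assoc, mul_comm _ (th N T p n σ m * N ^ ex T), mul_assoc]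
  congr 1
  rw [Finset.mul_sum]
  refine Finset.sum_congr rfl fun x _ => ?_
  by_cases hx : n1 (zz x) + n2 (zz x) = N - 1 ∧ ∀ c ∈ cls T p (cor (zz x)) G, (N : ℤ) ∣ c + 1
  · rw [if_pos hx, if_pos hx]
    unfold US
    rw [kG_stp hN T p n (zz x) G h hG hx.1 hx.2]
    split_ifs <;> simp
  · rw [if_neg hx, if_neg hx, mul_zero]

end Pool.Agent.H760.TT
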