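import Pool.Agent.H760.TT.NetT

/-!
# Fully augmented links in the thickened torus, part 10: the state sum of the net
-/

set_option autoImplicit false

namespace Pool.Agent.H760.TT

open Finset
open Pool.Agent.Q191.TW (cs cs_add cs_zero cs_ne cs_neg cs_norm cs_period cs_period' rt_cs)
open Pool.Agent.Q99.FAL
open Pool.Agent.Q98.FAL (nu_ne nu_add nu_norm)
open Pool.Agent.Q99.FP2 (nu_cs)

variable {N : ℕ} {D : List Vx} {k m : ℕ}

/-! ### residues -/

/-- the residue -/
def rs (hN : 0 < N) (g : ℤ) : Fin N := ⟨(g % N).toNat, by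
  have h1 := Int.emod_nonneg g (by exact_mod_cast hN.ne' : (N : ℤ) ≠ 0)
  have h2 := Int.emod_lt_of_pos g (by exact_mod_cast hN : (0 : ℤ) < N)
  omega⟩

lemma rs_cast (hN : 0 < N) (g : ℤ) : (((((rs hN g : Fin N) : ℕ) : ℤ) : ZMod N)) = (g : ZMod N) := by
  have h1 := Int.emod_nonneg g (by exact_mod_cast hN.ne' : (N : ℤ) ≠ 0)
  have h2 : (((rs hN g : Fin N) : ℕ) : ℤ) = g % N := by
    show (((g % N).toNat : ℕ) : ℤ) = g % N
    omega
  rw [h2]
  rw [ZMod.intCast_eq_intCast_iff_dvd_sub]
  exact ⟨g / N, by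
    have := Int.emod_add_mul_ediv g N
    linarith⟩

lemma cg_iff (A B : List ℤ) : Cg N A B ↔
    A.map (Int.castAddHom (ZMod N)) = B.map (Int.castAddHom (ZMod N)) := by
  induction A generalizing B with
  | nil =>
    rcases B with _ | ⟨b, B⟩
    · simp [Cg]
    · simp [Cg]
  | cons a A ih =>
    rcases B with _ | ⟨b, B⟩
    · simp [Cg]
    · have h1 : Cg N (a :: A) (b :: B) ↔ (N : ℤ) ∣ a - b ∧ Cg N A B := by
        simp [Cg, List.forall₂_cons]
      rw [h1, ih, List.map_cons, List.map_cons, List.cons.injEq]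
      have h2 : (N : ℤ) ∣ a - b ↔ Int.castAddHom (ZMod N) a = Int.castAddHom (ZMod N) b := by
        show _ ↔ ((a : ℤ) : ZMod N) = ((b : ℤ) : ZMod N)
        rw [eq_comm, ZMod.intCast_eq_intCast_iff_dvd_sub]
      rw [h2]

lemma io_eq (l : List (Fin N)) : io l = l.map (fun x : Fin N => ((x : ℕ) : ℤ)) := by
  induction l with
  | nil => simp [io]
  | cons x l ih =>
    rw [List.map_cons, ← ih]
    simp [io]

lemma io_inj {M M' : List (Fin N)} (h : io M = io M') : M = M' := by
  rw [io_eq, io_eq] at h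
  exact List.map_injective_iff.2 (fun x y hxy => by
    apply Fin.ext
    exact_mod_cast hxy) h

lemma Gp_inj {M M' : List (Fin N)} {y y' : Fin N} (h : Gp M y = Gp M' y') : M = M' ∧ y = y' := by
  unfold Gp at h
  have h1 := (List.cons.inj h).2
  have hl : (io M).length = (io M').length := by
    have := congrArg List.length h1
    simpa using this
  obtain ⟨h2, h3⟩ := List.append_inj h1 hl
  refine ⟨io_inj h2, ?_⟩
  have h4 := (List.cons.inj h3).1
  apply Fin.ext
  exact_mod_cast h4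

lemma exists_Gp (hN : 0 < N) (h : Val D (m + 1) (m + 1)) (hC : Cell D m k)
    (a : Fin D.length → Fin 6 → ℤ) (ha : ∀ b i, 0 ≤ a b i) (hs : TS k m D a ((N : ℤ) - 1)) :
    ∃ (M : List (Fin N)) (y : Fin N), M.length = m ∧ Gof k m D a = Gp M y ∧
      Exa N D a (Gp M y) := by
  have hl := Gof_len h k a
  have hfix := fixZ h hC a
  have hfl := fin_len D (m + 1) (m + 1) h a (0, Gof k m D a) hl
  obtain ⟨x1, M1, y1, hf1, hM1⟩ := exists_ends hfl
  have hG : Gof k m D a = 0 :: (M1 ++ [y1 + x1]) := by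
    have h1 : nrm (fin D a (0, Gof k m D a)).2 = Gof k m D a := hfix
    rw [hf1, nrm_eq] at h1
    exact h1.symm
  obtain ⟨φ, hφ⟩ : ∃ φ : ℤ →+ ZMod N, φ = Int.castAddHom (ZMod N) := ⟨_, rfl⟩
  obtain ⟨M, hM⟩ : ∃ M : List (Fin N), M = M1.map (rs hN) := ⟨_, rfl⟩
  obtain ⟨y, hy⟩ : ∃ y : Fin N, y = rs hN (y1 + x1) := ⟨_, rfl⟩
  have hMl : M.length = m := by rw [hM, List.length_map, hM1]
  have hio : (io M).map φ = M1.map φ := by
    rw [hM, hφ, io_eq]
    rw [List.map_map, List.map_map]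
    apply List.map_congr_left
    intro g _
    exact rs_cast hN g
  have hyc : φ ((y : ℕ) : ℤ) = φ (y1 + x1) := by
    rw [hy, hφ]
    exact rs_cast hN _
  have hGm : (Gp M y).map φ = (Gof k m D a).map φ := by
    rw [hG]
    unfold Gp
    rw [List.map_cons, List.map_cons, List.map_append, List.map_append, hio]
    simp only [List.map_cons, List.map_nil, hyc]
  have hsm : sm φ ((0 : ℤ), Gp M y) = sm φ (0, Gof k m D a) := by
    unfold sm
    simp only [hGm]
  have hclo : (clo D a (0, Gp M y)).map φ = (clo D a (0, Gof k m D a)).map φ := by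
    rw [← clo_map, ← clo_map, hsm]
  have hfin : sm φ (fin D a (0, Gp M y)) = sm φ (fin D a (0, Gof k m D a)) := by
    rw [← fin_map, ← fin_map, hsm]
  have hcnd : Cnd N D a (0, Gp M y) := by
    refine ⟨hs.1, fun c hc => ?_⟩
    have h1 : φ c ∈ (clo D a (0, Gof k m D a)).map φ := by
      rw [← hclo]
      exact List.mem_map_of_mem hc
    obtain ⟨c', hc', he⟩ := List.mem_map.1 h1
    rw [hs.2 c' hc', hφ] at he
    have he' : (((N : ℤ) - 1 : ℤ) : ZMod N) = ((c : ℤ) : ZMod N) := he
    rw [ZMod.intCast_eq_intCast_iff_dvd_sub] at he'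
    obtain ⟨j, hj⟩ := he'
    exact ⟨j + 1, by linarith⟩
  obtain ⟨x', M', y', hf', hM'⟩ := exists_ends
    (fin_len D (m + 1) (m + 1) h a (0, Gp M y) (by simp [Gp_len, hMl]))
  have hcg : Cg N M' (io M) := by
    rw [cg_iff]
    have h1 := congrArg Prod.snd hfin
    unfold sm at h1
    simp only at h1
    rw [hf', hf1, List.map_cons, List.map_cons, List.map_append, List.map_append] at h1
    have h2 := (List.cons.inj h1).2
    have h3 := List.append_inj_left h2 (by simp [hM', hM1])
    rw [← hφ, h3, ← hio]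
  obtain ⟨e1, -⟩ := exa_of hN D M y (by rw [hMl]; exact h) a ha hcnd x' y' M' hf' hcg
  exact ⟨M, y, hMl, (uniqZ h hC a (Gp M y) (by simp [Gp_len, hMl]) e1.2.2).symm, e1⟩

lemma sL_single (v : ℂ) : ∀ (p : ℕ) (M : List (Fin N)), M.length = p →
    sL p (fun l => if l = M then v else 0) = v
  | 0, M, h => by
    have : M = [] := List.length_eq_zero_iff.1 h
    subst this
    simp [sL]
  | p + 1, [], h => by simp at h
  | p + 1, x :: M, h => by
    rw [sL, Finset.sum_eq_single x]
    · have h1 := sL_single v p M (by simpa using h)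
      refine Eq.trans (sL_congr _ _ _ fun l _ => ?_) h1
      simp
    · intro x' _ hx
      refine Eq.trans (sL_congr _ _ _ fun l _ => ?_) (sL_zero (N := N) p)
      rw [if_neg]
      intro he
      exact hx (List.cons.inj he).1
    · intro hx
      exact absurd (Finset.mem_univ _) hx

open Classical in
/-- **the state sum over the solutions** -/
theorem state_swap (hN : 0 < N) (h : Val D (m + 1) (m + 1)) (hC : Cell D m k)
    (F : (Fin D.length → Fin 6 → Fin N) → List ℤ → ℂ) :
    sL m (fun M : List (Fin N) => ∑ y : Fin N, ∑ a : Fin D.length → Fin 6 → Fin N,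
      if Exa N D (fun b => zz (a b)) (Gp M y) then F a (Gp M y) else 0) =
    ∑ a : Fin D.length → Fin 6 → Fin N, if TS k m D (fun b => zz (a b)) ((N : ℤ) - 1) then
      F a (Gof k m D (fun b => zz (a b))) else 0 := by
  have h1 : ∀ M : List (Fin N), (∑ y : Fin N, ∑ a : Fin D.length → Fin 6 → Fin N,
      if Exa N D (fun b => zz (a b)) (Gp M y) then F a (Gp M y) else 0) =
      ∑ a : Fin D.length → Fin 6 → Fin N, ∑ y : Fin N,
      if Exa N D (fun b => zz (a b)) (Gp M y) then F a (Gp M y) else 0 := fun M =>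
    Finset.sum_comm
  simp only [h1]
  rw [sL_sum]
  refine Finset.sum_congr rfl fun a _ => ?_
  by_cases hs : TS k m D (fun b => zz (a b)) ((N : ℤ) - 1)
  · rw [if_pos hs]
    obtain ⟨M0, y0, hM0, hG, hE⟩ := exists_Gp hN h hC (fun b => zz (a b)) (fun b i => zz_nn _ i) hs
    rw [hG]
    refine Eq.trans (sL_congr _ _ _ fun M hM => ?_) (sL_single (F a (Gp M0 y0)) m M0 hM0)
    have hiff : ∀ y : Fin N, Exa N D (fun b => zz (a b)) (Gp M y) ↔ M = M0 ∧ y = y0 := by
      intro y
      constructor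
      · intro hx
        have h2 := uniqZ h hC _ (Gp M y) (by simp [Gp_len, hM]) hx.2.2
        rw [hG] at h2
        exact Gp_inj h2
      · rintro ⟨rfl, rfl⟩
        exact hE
    rw [Finset.sum_eq_single y0]
    · by_cases hMM : M = M0
      · rw [if_pos hMM, if_pos ((hiff y0).2 ⟨hMM, rfl⟩), hMM]
      · rw [if_neg hMM, if_neg fun hx => hMM ((hiff y0).1 hx).1]
    · intro y _ hy
      rw [if_neg fun hx => hy ((hiff y).1 hx).2]
    · intro hy
      exact absurd (Finset.mem_univ _) hy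
  · rw [if_neg hs]
    refine Eq.trans (sL_congr _ _ _ fun M hM => ?_) (sL_zero (N := N) m)
    refine Finset.sum_eq_zero fun y _ => ?_
    rw [if_neg]
    intro hx
    apply hs
    have h2 := uniqZ h hC _ (Gp M y) (by simp [Gp_len, hM]) hx.2.2
    refine ⟨hx.1, ?_⟩
    rw [← h2]
    exact hx.2.1

/-! ### phases -/

/-- the total number of the rotations -/
def wr : List Vx → ℤ
  | [] => 0
  | V :: D => (if V.b then (V.r : ℤ) else -V.r) + wr D

lemma nu_pow (s : ℤ) (r : ℕ) : nu N s ^ r = nu N (r * s) := by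
  unfold nu
  rw [← zpow_natCast, ← zpow_mul, mul_comm s]

lemma nu_inv (s : ℤ) : (nu N s)⁻¹ = nu N (-s) := by
  unfold nu
  rw [zpow_neg]

lemma rc_add (b : Bool) (n : ℕ) (S d : ℤ) :
    rc N b n (S + d) = rc N b n S * nu N (if b then d else -d) := by
  unfold rc
  cases b
  · simp only [Bool.false_eq_true, if_false]
    rw [nu_add, ← mul_assoc, mul_inv, nu_inv d]
  · simp only [if_true]
    rw [nu_add, mul_assoc]

lemma TD_add : ∀ (D : List Vx) (n : ℕ) (S d : ℤ),
    TD N D n (S + d) = TD N D n S * nu N (wr D * d)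
  | [], n, S, d => by simp [TD, wr, nu]
  | V :: D, n, S, d => by
    rw [TD, TD, rc_add, mul_pow, nu_pow]
    have e : S + d + ((N : ℤ) - 1) * (1 - ncl V.P.ty) =
      S + ((N : ℤ) - 1) * (1 - ncl V.P.ty) + d := by ring
    rw [e, TD_add D]
    have e2 : wr (V :: D) * d = (V.r : ℤ) * (if V.b then d else -d) + wr D * d := by
      rw [wr]
      split_ifs <;> ring
    rw [e2, nu_add]
    ring

/-- the phases of a term -/
lemma phase (hN : 0 < N) (D : List Vx) (n : ℕ) (S K : ℤ) :
    TD N D n S * (nu N (n * K) * cs N (2 * K * (S + n))) =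
      TD N D n 0 * cs N (n * wr D * ((N : ℝ) - 1) ^ 2 / 2) *
        cs N (2 * ((S : ℝ) - n * ((N : ℝ) - 1) / 2) * ((K : ℝ) + wr D * ((N : ℝ) - 1) / 2)) := by
  have h1 := TD_add (N := N) D n 0 S
  rw [zero_add] at h1
  rw [h1, nu_cs hN, nu_cs hN]
  have e : cs N (N * ((wr D * S : ℤ) : ℝ) - ((wr D * S : ℤ) : ℝ)) *
      (cs N (N * ((n * K : ℤ) : ℝ) - ((n * K : ℤ) : ℝ)) * cs N (2 * K * (S + n))) =
      cs N (n * wr D * ((N : ℝ) - 1) ^ 2 / 2) *
        cs N (2 * ((S : ℝ) - n * ((N : ℝ) - 1) / 2) * ((K : ℝ) + wr D * ((N : ℝ) - 1) / 2)) := by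
    rw [← cs_add, ← cs_add, ← cs_add]
    refine cs_period' hN ((n : ℤ) * K) ?_
    push_cast
    ring
  rw [mul_assoc, e, ← mul_assoc]

lemma exD_len : ∀ (D : List Vx) (n n' : ℕ), Val D n n' → 2 * exD D + n' = 2 * D.length + n
  | [], n, n', h => by
    have h' : n = n' := h
    simp [exD, h']
  | V :: D, n, n', h => by
    have ih := exD_len D _ n' h.2
    have h1 : exD (V :: D) = ex V.P.ty + exD D := by simp [exD]
    have h2 : (V :: D).length = D.length + 1 := rfl
    have h3 := h.1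
    rw [h1, h2]
    generalize V.P.ty = T at *
    cases T <;> simp only [ex, up, wd] at * <;> omega

end Pool.Agent.H760.TT
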