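import Pool.Agent.H760.TT.Four

/-!
# Fully augmented links in the thickened torus, part 6: the trace as a state sum
-/

set_option autoImplicit false

namespace Pool.Agent.H760.TT

open Matrix Finset
open Pool.Agent.W715.VC (rt rt_ne)
open Pool.Agent.W709.QAT (Piece run)
open Pool.Agent.Q191.TW (cs cs_add cs_zero cs_ne cs_neg cs_norm cs_period cs_period' rt_cs
  kl kx wl dl)
open Pool.Agent.Q191.LB (sg)
open Pool.Agent.Q191.TB (Gd)
open Pool.Agent.Q224.FAL (lab lab_length str_append)
open Pool.Agent.Q98.FAL (uu_app nu_ne nu_add nu_norm sum_cs)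
open Pool.Agent.Q99.FAL
open Pool.Agent.Q99.FP2 (nu_cs)

variable {N : ℕ}

/-- congruence of lists -/
def Cg (N : ℕ) (A B : List ℤ) : Prop := List.Forall₂ (fun a b => (N : ℤ) ∣ a - b) A B

lemma lab_cong (K : ℤ) : ∀ (A B : List ℤ) (s' s : ℤ), A.length = B.length → (N : ℤ) ∣ s' - s - K →
    ((∀ e ∈ List.zipWith (· - ·) (lab s' A) (lab s B), (N : ℤ) ∣ e - K) ↔ Cg N A B)
  | [], [], s', s, _, _ => by simp [lab, Cg]
  | [], _ :: _, _, _, h, _ => by simp at h
  | _ :: _, [], _, _, h, _ => by simp at h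
  | a :: A, b :: B, s', s, h, h0 => by
    have h' : A.length = B.length := by simpa using h
    simp only [lab, List.zipWith_cons_cons, List.mem_cons, forall_eq_or_imp, Cg,
      List.forall₂_cons]
    have e : s' - a - (s - b) - K = (s' - s - K) - (a - b) := by ring
    constructor
    · rintro ⟨h1, h2⟩
      rw [e] at h1
      have h3 : (N : ℤ) ∣ a - b := by
        have := dvd_sub h0 h1
        rwa [show s' - s - K - (s' - s - K - (a - b)) = a - b by ring] at this
      exact ⟨h3, (lab_cong K A B (s' - a) (s - b) h' (by rw [e]; exact dvd_sub h0 h3)).1 h2⟩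
    · rintro ⟨h1, h2⟩
      have h3 : (N : ℤ) ∣ s' - a - (s - b) - K := by rw [e]; exact dvd_sub h0 h1
      exact ⟨h3, (lab_cong K A B (s' - a) (s - b) h' h3).2 h2⟩

lemma kl_Gp (hN : 0 < N) (M : List (Fin N)) (y : Fin N) (t : List (Fin N))
    (ht : t.length = M.length + 1) : kl t = kG N (Gp M y) ↔
      (N : ℤ) ∣ (wl t : ℤ) - (-((Gp M y).sum + (M.length + 1))) := by
  rw [kl_kG hN _ _ (by rw [Gp_len, ht]), ht]
  have e : (Gp M y).sum + (wl t : ℤ) + ((M.length + 1 : ℕ) : ℤ) =
    (wl t : ℤ) - (-((Gp M y).sum + (M.length + 1))) := by push_cast; ring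
  rw [e]

open Classical in
/-- the sum over a sector -/
lemma base (hN : 0 < N) (M : List (Fin N)) (y : Fin N) (s' x' y' : ℤ) (M' : List ℤ)
    (hl : M'.length = M.length) (hk : kG N (x' :: (M' ++ [y'])) = kG N (Gp M y)) :
    sL (M.length + 1) (fun t : List (Fin N) => if kl t = kG N (Gp M y) then
      (UU N (str 0 (Gp M y)) t)⁻¹ * US N s' (x' :: (M' ++ [y'])) t else 0) =
    if Cg N M' (io M) then (N : ℂ) ^ M.length *
      (nu N ((str s' (x' :: (M' ++ [y']))).sum - (str 0 (Gp M y)).sum) *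
      cs N (2 * (s' - x') * ((Gp M y).sum + (M.length + 1)))) else 0 := by
  obtain ⟨K, hK⟩ : ∃ K, K = s' - x' := ⟨_, rfl⟩
  obtain ⟨S0, hS0⟩ : ∃ t : ℤ, t = (Gp M y).sum := ⟨_, rfl⟩
  have hio : (io M).length = M.length := by simp [io]
  have hS : str s' (x' :: (M' ++ [y'])) = K :: lab K M' := by rw [str_ends, hK]
  have hz : (List.zipWith (· - ·) (lab K M') (lab 0 (io M))).length = M.length := by
    rw [List.length_zipWith, lab_length, lab_length, hl, hio, min_self]
  have h1 : ∀ t : List (Fin N), t.length = M.length + 1 →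
      (if kl t = kG N (Gp M y) then
      (UU N (str 0 (Gp M y)) t)⁻¹ * US N s' (x' :: (M' ++ [y'])) t else 0) =
      nu N ((K :: lab K M').sum - (str 0 (Gp M y)).sum) *
        (if (N : ℤ) ∣ (wl t : ℤ) - (-(S0 + (M.length + 1))) then
        pd (K :: List.zipWith (· - ·) (lab K M') (lab 0 (io M))) t else 0) := by
    intro t ht
    rw [hS0, ← hS]
    by_cases h : kl t = kG N (Gp M y)
    · rw [if_pos h, if_pos ((kl_Gp hN M y t ht).1 h), US, if_pos (h.trans hk.symm), UU, UU, hS,
        str_Gp]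
      have h2 := uu_div (N := N) (K :: lab K M') (0 :: lab 0 (io M)) t 0
        (by simp [lab_length, hl, ht]) (by simp [lab_length, hio, ht])
      rw [List.zipWith_cons_cons, sub_zero] at h2
      rw [← h2, mul_inv]
      have h3 : nu N ((K :: lab K M').sum - (0 :: lab 0 (io M)).sum) =
          nu N (K :: lab K M').sum * (nu N (0 :: lab 0 (io M)).sum)⁻¹ := by
        have h4 := nu_add (N := N) ((K :: lab K M').sum - (0 :: lab 0 (io M)).sum)
          (0 :: lab 0 (io M)).sum
        rw [sub_add_cancel] at h4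
        rw [h4, mul_assoc, mul_inv_cancel₀ (nu_ne _), mul_one]
      rw [h3]
      ring
    · rw [if_neg h, if_neg fun h' => h ((kl_Gp hN M y t ht).2 h'), mul_zero]
  rw [sL_congr _ _ _ h1, sL_mul]
  have h5 := B_val hN (List.zipWith (· - ·) (lab K M') (lab 0 (io M))) K (-(S0 + (M.length + 1)))
  rw [hz] at h5
  rw [h5, hS]
  have h6 := lab_cong (N := N) K M' (io M) K 0 (by rw [hl, hio]) (by simp)
  have h7 : cs N (-(2 * (K : ℝ) * ((-(S0 + (M.length + 1)) : ℤ) : ℝ))) =
      cs N (2 * (s' - x') * ((Gp M y).sum + (M.length + 1))) := by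
    rw [← hS0, hK]
    congr 1
    push_cast
    ring
  by_cases hc : Cg N M' (io M)
  · rw [if_pos (h6.2 hc), if_pos hc, h7]
    ring
  · rw [if_neg fun h' => hc (h6.1 h'), if_neg hc, mul_zero]

/-! ### exactness -/

lemma fin_cg (D : List Vx) (n : ℕ) (h : Val D n n) (a : Fin D.length → Fin 6 → ℤ)
    (z : ℤ × List ℤ) (hz : z.2.length = n + 1) (hc : Cnd N D a z) :
    ∃ k : ℤ, (fin D a z).2.sum = z.2.sum + N * k := by
  have h1 := fin_sum D n n h a z hz
  have h2 := clo_len D n n h a z hz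
  obtain ⟨k, hk⟩ := sum_cls (N := N) _ hc.2
  have h3 : (clo D a z).length = D.length := by omega
  have h4 : ∑ k, (n1 (a k) + n2 (a k)) = (D.length : ℤ) * (N - 1) := by
    rw [Finset.sum_congr rfl fun k _ => hc.1 k]
    simp
    ring
  rw [h4] at h1
  rw [h3] at hk
  exact ⟨D.length - k, by linear_combination h1 - hk⟩

lemma kG_fin (hN : 0 < N) (D : List Vx) (n : ℕ) (h : Val D n n) (a : Fin D.length → Fin 6 → ℤ)
    (z : ℤ × List ℤ) (hz : z.2.length = n + 1) (hc : Cnd N D a z) :
    kG N (fin D a z).2 = kG N z.2 := by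
  obtain ⟨k, hk⟩ := fin_cg D n h a z hz hc
  unfold kG
  rw [rt_eq_iff hN, fin_len D n n h a z hz, hz, hk]
  exact ⟨k, by ring⟩

lemma cg_le {A : List ℤ} {M : List (Fin N)} (h : Cg N A (io M)) (hA : ∀ g ∈ A, 0 ≤ g) :
    (io M).sum ≤ A.sum ∧ (A.sum = (io M).sum → A = io M) ∧ (N : ℤ) ∣ A.sum - (io M).sum := by
  induction M generalizing A with
  | nil =>
    have : A = [] := by
      rcases A with _ | ⟨a, A⟩
      · rfl
      · simp [Cg, io] at h
    subst this
    exact ⟨le_rfl, fun _ => rfl, by simp [io]⟩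
  | cons x M ih =>
    rcases A with _ | ⟨a, A⟩
    · simp [Cg, io] at h
    · have h' : (N : ℤ) ∣ a - ((x : ℕ) : ℤ) ∧ Cg N A (io M) := by
        simpa [Cg, io, List.forall₂_cons] using h
      obtain ⟨i1, i2, i3⟩ := ih h'.2 fun g hg => hA g (by simp [hg])
      have ha := hA a (by simp)
      have hx : ((x : ℕ) : ℤ) < N := by exact_mod_cast x.2
      have hax : ((x : ℕ) : ℤ) ≤ a := by
        obtain ⟨k, hk⟩ := h'.1
        by_contra hlt
        have hN0 : (0 : ℤ) < N := by omega
        have hk0 : k < 0 := by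
          by_contra hk0
          have : 0 ≤ (N : ℤ) * k := mul_nonneg hN0.le (by omega)
          omega
        have : (N : ℤ) * k ≤ -N := by nlinarith
        omega
      have e1 : (io (x :: M)).sum = ((x : ℕ) : ℤ) + (io M).sum := by simp [io]
      rw [e1, List.sum_cons]
      refine ⟨by linarith, fun he => ?_, ?_⟩
      · have h1 : a = ((x : ℕ) : ℤ) := by linarith
        have h2 : A = io M := i2 (by linarith)
        rw [h1, h2]
        rfl
      · have := dvd_add h'.1 i3
        have e : a - ((x : ℕ) : ℤ) + (A.sum - (io M).sum) =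
          a + A.sum - (((x : ℕ) : ℤ) + (io M).sum) := by ring
        rwa [e] at this

/-- exactness -/
def Exa (N : ℕ) (D : List Vx) (a : Fin D.length → Fin 6 → ℤ) (G : List ℤ) : Prop :=
  (∀ k, n1 (a k) + n2 (a k) = N - 1) ∧ (∀ c ∈ clo D a (0, G), c = N - 1) ∧ turn D a G = G

lemma exa_of (hN : 0 < N) (D : List Vx) (M : List (Fin N)) (y : Fin N)
    (h : Val D (M.length + 1) (M.length + 1)) (a : Fin D.length → Fin 6 → ℤ)
    (ha : ∀ k i, 0 ≤ a k i) (hc : Cnd N D a (0, Gp M y)) (x' y' : ℤ) (M' : List ℤ)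
    (he : (fin D a (0, Gp M y)).2 = x' :: (M' ++ [y'])) (hM : Cg N M' (io M)) :
    Exa N D a (Gp M y) ∧ M' = io M := by
  have hGl : ((0 : ℤ), Gp M y).2.length = M.length + 1 + 1 := by simp [Gp_len]
  obtain ⟨f1, f2⟩ := fin_nn D _ _ h a (0, Gp M y) ha hGl (Gp_nn M y)
  obtain ⟨k, hk⟩ := fin_cg D _ h a (0, Gp M y) hGl hc
  have h1 := fin_sum D _ _ h a (0, Gp M y) hGl
  have h2 := clo_len D _ _ h a (0, Gp M y) hGl
  have h3 : (clo D a (0, Gp M y)).length = D.length := by omega
  have h4 : ∑ k, (n1 (a k) + n2 (a k)) = (D.length : ℤ) * (N - 1) := by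
    rw [Finset.sum_congr rfl fun k _ => hc.1 k]
    simp
    ring
  have h5 := Pool.Agent.Q162.FAL.cls_ge (N := N) _ f2 hc.2
  rw [h3] at h5
  rw [he] at f1 hk h1
  obtain ⟨m1, m2, m3⟩ := cg_le hM fun g hg => f1 g (by simp [hg])
  have hx' := f1 x' (by simp)
  have hy' := f1 y' (by simp)
  have hG : (Gp M y).sum = (io M).sum + ((y : ℕ) : ℤ) := by simp [Gp]
  have hsum : (x' :: (M' ++ [y'])).sum = x' + y' + M'.sum := by simp; ring
  simp only [hG] at hk h1
  rw [hsum] at hk h1
  have hdv : (N : ℤ) ∣ x' + y' - ((y : ℕ) : ℤ) := by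
    obtain ⟨j, hj⟩ := m3
    exact ⟨k - j, by linear_combination hk - hj⟩
  have hylt : ((y : ℕ) : ℤ) < N := by exact_mod_cast y.2
  have hle : ((y : ℕ) : ℤ) ≤ x' + y' := by
    obtain ⟨j, hj⟩ := hdv
    by_contra hlt
    have hN0 : (0 : ℤ) < N := by exact_mod_cast hN
    have hk0 : j < 0 := by
      by_contra hk0
      have : 0 ≤ (N : ℤ) * j := mul_nonneg hN0.le (by omega)
      omega
    have : (N : ℤ) * j ≤ -N := by nlinarith
    omega
  rw [h4] at h1
  have hclo : (clo D a (0, Gp M y)).sum = (D.length : ℤ) * (N - 1) := by linarith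
  have e1 : M' = io M := m2 (by linarith)
  have e2 : x' + y' = ((y : ℕ) : ℤ) := by linarith
  refine ⟨⟨hc.1, ?_, ?_⟩, e1⟩
  · by_contra hne
    push Not at hne
    have hge : ∀ c ∈ clo D a (0, Gp M y), (N : ℤ) - 1 ≤ c := by
      intro c hcm
      have h3 := Int.le_of_dvd (by have := f2 c hcm; omega) (hc.2 c hcm)
      omega
    have := Pool.Agent.Q99.FAL.GG.sum_gt hge hne
    rw [h3] at this
    linarith
  · unfold turn
    rw [he, nrm_eq, e1, add_comm y' x', e2]
    rfl

/-- the label shift -/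
def Kf {R : Type} [AddCommGroup R] (D : List Vx) (a : Fin D.length → Fin 6 → R) (G : List R) : R :=
  (fin D a (0, G)).1 - (fin D a (0, G)).2.headD 0

lemma lab_sum (K : ℤ) : ∀ (M : List ℤ) (s : ℤ), (lab (s + K) M).sum =
    (lab s M).sum + M.length * K
  | [], _ => by simp [lab]
  | g :: M, s => by
    have e : s + K - g = s - g + K := by ring
    rw [lab, lab, List.sum_cons, List.sum_cons, e, lab_sum K M (s - g), List.length_cons]
    push_cast
    ring

lemma alg (a b c S : ℂ) (ha : a ≠ 0) : a⁻¹ * (b * c * (a * S)) = c * (b * S) := by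
  field_simp

open Classical in
/-- **the trace as a state sum** -/
theorem trace_state (hN : 0 < N) (D : List Vx) (m : ℕ) (h : Val D (m + 1) (m + 1)) :
    ∑ t : Fin (m + 1) → Fin N, FD D (dl (List.ofFn t)) (List.ofFn t) =
      (N : ℂ) ^ exD D * sL m (fun M : List (Fin N) => ∑ y : Fin N,
        TD N D (m + 1) (Gp M y).sum * ∑ a : Fin D.length → Fin 6 → Fin N,
          if Exa N D (fun k => zz (a k)) (Gp M y) then wtD N D (fun k => zz (a k)) *
            (nu N ((m + 1) * Kf D (fun k => zz (a k)) (Gp M y)) *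
              cs N (2 * (Kf D (fun k => zz (a k)) (Gp M y)) * ((Gp M y).sum + (m + 1)))) else 0) := by
  obtain ⟨-, hF, -⟩ := wds_all (N := N) D (m + 1) (m + 1) h
  rw [trace_four hN m hF, ← sL_mul, ← sL_mul]
  refine sL_congr _ _ _ fun M hM => ?_
  rw [Finset.mul_sum, Finset.mul_sum]
  refine Finset.sum_congr rfl fun y _ => ?_
  have hGl : (Gp M y).length = m + 1 + 1 := by rw [Gp_len, hM]
  obtain ⟨E, hE1, hE2⟩ := raw hN D (m + 1) (m + 1) h 0 (Gp M y) hGl (Gp_nn M y)
  have hNm : (N : ℂ) ^ m ≠ 0 := pow_ne_zero _ (by exact_mod_cast hN.ne')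
  have h1 : ∀ t : List (Fin N), t.length = m + 1 → (if kl t = kG N (Gp M y) then
      (UU N (str 0 (Gp M y)) t)⁻¹ * FD D (US N 0 (Gp M y)) t else 0) =
      TD N D (m + 1) (Gp M y).sum * N ^ exD D * ∑ a : Fin D.length → Fin 6 → Fin N,
        (if Cnd N D (fun k => zz (a k)) (0, Gp M y) then wtD N D (fun k => zz (a k)) * E a else 0) *
          (if kl t = kG N (Gp M y) then (UU N (str 0 (Gp M y)) t)⁻¹ *
            US N (fin D (fun k => zz (a k)) (0, Gp M y)).1
              (fin D (fun k => zz (a k)) (0, Gp M y)).2 t else 0) := by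
    intro t ht
    by_cases hk : kl t = kG N (Gp M y)
    · simp only [if_pos hk]
      rw [hE2 t ht, Finset.mul_sum, Finset.mul_sum, Finset.mul_sum]
      refine Finset.sum_congr rfl fun a _ => ?_
      split_ifs <;> ring
    · simp only [if_neg hk, mul_zero, Finset.sum_const_zero]
  rw [sL_congr _ _ _ h1, sL_mul, sL_sum]
  have h2 : ∀ a : Fin D.length → Fin 6 → Fin N, sL (m + 1) (fun t : List (Fin N) =>
      (if Cnd N D (fun k => zz (a k)) (0, Gp M y) then wtD N D (fun k => zz (a k)) * E a else 0) *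
          (if kl t = kG N (Gp M y) then (UU N (str 0 (Gp M y)) t)⁻¹ *
            US N (fin D (fun k => zz (a k)) (0, Gp M y)).1
              (fin D (fun k => zz (a k)) (0, Gp M y)).2 t else 0)) =
      (N : ℂ) ^ m * (if Exa N D (fun k => zz (a k)) (Gp M y) then wtD N D (fun k => zz (a k)) *
            (nu N ((m + 1) * Kf D (fun k => zz (a k)) (Gp M y)) *
              cs N (2 * (Kf D (fun k => zz (a k)) (Gp M y)) * ((Gp M y).sum + (m + 1)))) else 0) := by
    intro a
    rw [sL_mul]
    by_cases hc : Cnd N D (fun k => zz (a k)) (0, Gp M y)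
    swap
    · rw [if_neg hc, zero_mul, if_neg, mul_zero]
      intro hx
      apply hc
      refine ⟨hx.1, fun c hcm => ?_⟩
      rw [hx.2.1 c hcm]
      simp
    rw [if_pos hc]
    have hfl := fin_len D (m + 1) (m + 1) h (fun k => zz (a k)) (0, Gp M y) hGl
    obtain ⟨x', M', y', he, hM'⟩ := exists_ends hfl
    have hkG := kG_fin hN D (m + 1) h (fun k => zz (a k)) (0, Gp M y) hGl hc
    rw [he] at hkG ⊢
    have hb := base hN M y (fin D (fun k => zz (a k)) (0, Gp M y)).1 x' y' M'
      (by rw [hM', hM]) hkG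
    rw [hM] at hb
    rw [hb]
    have hM1 : Val D (M.length + 1) (M.length + 1) := by rw [hM]; exact h
    have hK : Kf D (fun k => zz (a k)) (Gp M y) =
        (fin D (fun k => zz (a k)) (0, Gp M y)).1 - x' := by
      unfold Kf
      rw [he]
      rfl
    by_cases hcg : Cg N M' (io M)
    · obtain ⟨e1, e2⟩ := exa_of hN D M y hM1 (fun k => zz (a k)) (fun k i => zz_nn _ i) hc x' y' M' he
        hcg
      rw [if_pos hcg, if_pos e1, hE1 a e1.2.1 e1.1, hK]
      have hs : (str (fin D (fun k => zz (a k)) (0, Gp M y)).1 (x' :: (M' ++ [y']))).sum -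
          (str 0 (Gp M y)).sum = (m + 1) * ((fin D (fun k => zz (a k)) (0, Gp M y)).1 - x') := by
        rw [str_ends, str_Gp, e2, List.sum_cons, List.sum_cons]
        have := lab_sum ((fin D (fun k => zz (a k)) (0, Gp M y)).1 - x') (io M) 0
        rw [zero_add] at this
        rw [this]
        have hio : (io M).length = m := by simp [io, hM]
        rw [hio]
        ring
      rw [hs]
      push_cast
      ring
    · rw [if_neg hcg, mul_zero, if_neg, mul_zero]
      intro hx
      apply hcg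
      have h3 := hx.2.2
      unfold turn at h3
      rw [he, nrm_eq] at h3
      unfold Gp at h3
      have h4 := (List.cons.inj h3).2
      have h5 := List.append_inj_left' h4 rfl
      rw [h5]
      exact List.forall₂_same.2 fun x _ => by simp
  rw [Finset.sum_congr rfl fun a _ => h2 a, ← Finset.mul_sum]
  exact alg _ _ _ _ hNm

end Pool.Agent.H760.TT
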